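import Mathlib

/-!
# Arithmetic stack machines

A finite-state machine working on finitely many integer registers, each register being read modulo
a base `m`. We show that such machines have an undecidable halting problem, by simulating the
machines `Turing.PartrecToTM2.tr` of Mathlib.
-/

set_option autoImplicit false
set_option linter.unusedSectionVars false

namespace Pool.Agent.Helper55

open StateTransition

/-- An arithmetic stack machine with states in `Q` and registers indexed by `K`. In state `q` it
writes the register `rd q` as `m * x + d` with `0 ≤ d < m`, replaces it by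
`mul q d * x + add q d`, and goes to state `nx q d` (`none` meaning: halt). -/
structure AM (Q K : Type) where
  m : ℕ
  hm : 0 < m
  rd : Q → K
  nx : Q → ℕ → Option Q
  mul : Q → ℕ → ℕ
  hmul : ∀ q d, 0 < mul q d
  add : Q → ℕ → ℕ

namespace AM

variable {Q K : Type} [DecidableEq K] (A : AM Q K)

/-- The digit read in state `q` with registers `s`. -/
def digit (q : Q) (s : K → ℤ) : ℕ := (s (A.rd q) % (A.m : ℤ)).toNat

/-- The new register contents. -/
def upd (q : Q) (s : K → ℤ) : K → ℤ :=
  Function.update s (A.rd q)
    ((A.mul q (A.digit q s) : ℤ) * (s (A.rd q) / (A.m : ℤ)) + (A.add q (A.digit q s) : ℤ))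

/-- The step function. -/
def step : Option Q × (K → ℤ) → Option (Option Q × (K → ℤ))
  | (none, _) => none
  | (some q, s) => some (A.nx q (A.digit q s), A.upd q s)

@[simp] theorem step_none (s : K → ℤ) : A.step (none, s) = none := rfl

@[simp] theorem step_some (q : Q) (s : K → ℤ) :
    A.step (some q, s) = some (A.nx q (A.digit q s), A.upd q s) := rfl

/-- The machine halts from a configuration. -/
def Halts (a : Option Q × (K → ℤ)) : Prop := (eval A.step a).Dom

theorem halts_none (s : K → ℤ) : A.Halts (none, s) := by
  have : (none, s) ∈ eval A.step (none, s) := by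
    rw [mem_eval]
    exact ⟨Relation.ReflTransGen.refl, rfl⟩
  exact Part.dom_iff_mem.2 ⟨_, this⟩

theorem halts_some (q : Q) (s : K → ℤ) :
    A.Halts (some q, s) ↔ A.Halts (A.nx q (A.digit q s), A.upd q s) := by
  unfold Halts
  have h : Reaches A.step (some q, s) (A.nx q (A.digit q s), A.upd q s) :=
    Relation.ReflTransGen.single rfl
  rw [reaches_eval h]

end AM

namespace SimTM2

open Turing Turing.PartrecToTM2 Turing.TM2

/-- Codes of the symbols. -/
def cd : Γ' → ℕ
  | Γ'.consₗ => 1
  | Γ'.cons => 2
  | Γ'.bit0 => 3
  | Γ'.bit1 => 4

/-- Decoding of symbols. -/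
def dc : ℕ → Option Γ'
  | 1 => some Γ'.consₗ
  | 2 => some Γ'.cons
  | 3 => some Γ'.bit0
  | 4 => some Γ'.bit1
  | _ => none

/-- Code of a stack. -/
def encL : List Γ' → ℤ
  | [] => 0
  | a :: l => 5 * encL l + cd a

theorem encL_mod (l : List Γ') : dc (encL l % 5).toNat = l.head? := by
  cases l with
  | nil => rfl
  | cons a l =>
    have h : (encL (a :: l) % 5).toNat = cd a := by
      simp only [encL]
      have : cd a < 5 := by cases a <;> simp [cd]
      omega
    rw [h]
    cases a <;> rfl

theorem encL_div (l : List Γ') : encL l / 5 = encL l.tail := by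
  cases l with
  | nil => rfl
  | cons a l =>
    simp only [encL, List.tail_cons]
    have : cd a < 5 := by cases a <;> simp [cd]
    omega

/-- The state type. -/
abbrev QS : Type := TM2.Stmt (fun _ : K' => Γ') Λ' (Option Γ') × Option Γ'

/-- The program `tr`, with its type unfolded. -/
abbrev tr' : Λ' → TM2.Stmt (fun _ : K' => Γ') Λ' (Option Γ') := tr

/-- The arithmetic machine simulating `tr`. -/
def mach : AM QS K' where
  m := 5
  hm := by norm_num
  rd
    | (.push k _ _, _) => k
    | (.peek k _ _, _) => k
    | (.pop k _ _, _) => k
    | _ => K'.main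
  nx
    | (.push _ _ q, v), _ => some (q, v)
    | (.peek _ f q, v), d => some (q, f v (dc d))
    | (.pop _ f q, v), d => some (q, f v (dc d))
    | (.load a q, v), _ => some (q, a v)
    | (.branch f q₁ q₂, v), _ => some (bif f v then q₁ else q₂, v)
    | (.goto f, v), _ => some (tr' (f v), v)
    | (.halt, _), _ => none
  mul
    | (.push _ _ _, _), _ => 25
    | (.pop _ _ _, _), _ => 1
    | _, _ => 5
  hmul := by
    rintro ⟨q, v⟩ d
    cases q <;> simp
  add
    | (.push _ f _, v), d => 5 * d + cd (f v)
    | (.pop _ _ _, _), _ => 0
    | _, d => d

/-- Encoding of TM2 configurations. -/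
def encC : Cfg' → Option QS × (K' → ℤ)
  | ⟨some l, v, S⟩ => (some (tr' l, v), fun k => encL (S k))
  | ⟨none, _, S⟩ => (none, fun k => encL (S k))

theorem upd_id (A : AM QS K') (q : QS) (s : K' → ℤ) (hm : A.m = 5)
    (h1 : A.mul q (A.digit q s) = 5) (h2 : A.add q (A.digit q s) = A.digit q s) :
    A.upd q s = s := by
  unfold AM.upd
  rw [h1, h2]
  have : (((5 : ℕ) : ℤ) * (s (A.rd q) / (A.m : ℤ)) + (A.digit q s : ℤ)) = s (A.rd q) := by
    unfold AM.digit
    rw [hm]
    omega
  rw [this, Function.update_eq_self]

theorem reaches₁_step (q : TM2.Stmt (fun _ : K' => Γ') Λ' (Option Γ')) (v : Option Γ') (S : K' → List Γ') :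
    Reaches₁ mach.step (some (q, v), fun k => encL (S k)) (encC (stepAux q v S)) := by
  induction q generalizing v S with
  | push k f q ih =>
    have h := ih v (Function.update S k (f v :: S k))
    have e : mach.step (some (.push k f q, v), fun k => encL (S k)) =
        some (some (q, v), fun j => encL (Function.update S k (f v :: S k) j)) := by
      rw [AM.step_some]
      congr 1
      refine Prod.ext rfl ?_
      funext j
      by_cases hj : j = k
      · subst hj
        simp only [AM.upd, mach, AM.digit, Function.update_self, encL]
        push_cast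
        omega
      · simp only [AM.upd, mach, Function.update_of_ne hj]
    exact Relation.TransGen.head e h
  | peek k f q ih =>
    have h := ih (f v (S k).head?) S
    have e : mach.step (some (.peek k f q, v), fun k => encL (S k)) =
        some (some (q, f v (S k).head?), fun j => encL (S j)) := by
      rw [AM.step_some]
      congr 1
      refine Prod.ext ?_ ?_
      · simp only [mach, AM.digit]
        rw [show ((5 : ℕ) : ℤ) = 5 from rfl, encL_mod]
      · exact upd_id _ _ _ rfl rfl rfl
    exact Relation.TransGen.head e h
  | pop k f q ih =>
    have h := ih (f v (S k).head?) (Function.update S k (S k).tail)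
    have e : mach.step (some (.pop k f q, v), fun k => encL (S k)) =
        some (some (q, f v (S k).head?),
          fun j => encL (Function.update S k (S k).tail j)) := by
      rw [AM.step_some]
      congr 1
      refine Prod.ext ?_ ?_
      · simp only [mach, AM.digit]
        rw [show ((5 : ℕ) : ℤ) = 5 from rfl, encL_mod]
      · funext j
        by_cases hj : j = k
        · subst hj
          simp only [AM.upd, mach, AM.digit, Function.update_self]
          rw [← encL_div]
          push_cast
          omega
        · simp only [AM.upd, mach, Function.update_of_ne hj]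
    exact Relation.TransGen.head e h
  | load a q ih =>
    have h := ih (a v) S
    have e : mach.step (some (.load a q, v), fun k => encL (S k)) =
        some (some (q, a v), fun j => encL (S j)) := by
      rw [AM.step_some]
      congr 1
      refine Prod.ext rfl ?_
      exact upd_id _ _ _ rfl rfl rfl
    exact Relation.TransGen.head e h
  | branch f q₁ q₂ ih₁ ih₂ =>
    have e : mach.step (some (.branch f q₁ q₂, v), fun k => encL (S k)) =
        some (some (bif f v then q₁ else q₂, v), fun j => encL (S j)) := by
      rw [AM.step_some]
      congr 1
      refine Prod.ext rfl ?_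
      exact upd_id _ _ _ rfl rfl rfl
    refine Relation.TransGen.head e ?_
    simp only [stepAux]
    cases f v
    · exact ih₂ v S
    · exact ih₁ v S
  | goto f =>
    have e : mach.step (some (.goto f, v), fun k => encL (S k)) =
        some (some (tr' (f v), v), fun j => encL (S j)) := by
      rw [AM.step_some]
      congr 1
      refine Prod.ext rfl ?_
      exact upd_id _ _ _ rfl rfl rfl
    exact Relation.TransGen.single e
  | halt =>
    have e : mach.step (some (.halt, v), fun k => encL (S k)) =
        some (none, fun j => encL (S j)) := by
      rw [AM.step_some]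
      congr 1
      refine Prod.ext rfl ?_
      exact upd_id _ _ _ rfl rfl rfl
    exact Relation.TransGen.single e

theorem respects : Respects (TM2.step tr) mach.step (fun a b => encC a = b) := by
  rintro ⟨l, v, S⟩ b rfl
  cases l with
  | none => rfl
  | some l =>
    simp only [TM2.step]
    exact ⟨_, rfl, reaches₁_step (tr l) v S⟩

/-- Starting configuration on a list of inputs. -/
theorem halts_iff (c : ToPartrec.Code) (v : List ℕ) :
    mach.Halts (encC (init c v)) ↔ (c.eval v).Dom := by
  unfold AM.Halts
  rw [StateTransition.tr_eval_dom respects (a₁ := init c v) rfl, PartrecToTM2.tr_eval]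
  simp

end SimTM2

end Pool.Agent.Helper55
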