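import Mathlib
import Pool.Agent.Helper55.AMachine

/-!
# An arithmetic stack machine with undecidable halting problem
-/

set_option autoImplicit false
set_option linter.unusedSectionVars false

namespace Pool.Agent.Helper55

open StateTransition

namespace SimTM2

open Turing Turing.PartrecToTM2 Turing.TM2

/-- Code of the input stack for the number `n`. -/
def inp (n : ℕ) : ℕ :=
  if h : n = 0 then 2 else 5 * inp (n / 2) + (if n % 2 = 0 then 3 else 4)
decreasing_by exact Nat.div_lt_self (Nat.pos_of_ne_zero h) one_lt_two

theorem inp_zero : inp 0 = 2 := by rw [inp]; simp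

theorem inp_pos {n : ℕ} (h : n ≠ 0) :
    inp n = 5 * inp (n / 2) + (if n % 2 = 0 then 3 else 4) := by
  rw [inp, dif_neg h]

theorem encL_pos (p : PosNum) : encL (trPosNum p ++ [Γ'.cons]) = inp (p : ℕ) := by
  induction p with
  | one =>
    have h1 : ((PosNum.one : PosNum) : ℕ) = 1 := rfl
    rw [h1, inp_pos one_ne_zero]
    norm_num [trPosNum, encL, cd, inp_zero]
  | bit1 p ih =>
    have h0 : ((p.bit1 : PosNum) : ℕ) ≠ 0 := by rw [PosNum.cast_bit1]; omega
    rw [inp_pos h0, PosNum.cast_bit1]
    have h1 : ((p : ℕ) + p + 1) / 2 = p := by omega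
    have h2 : ((p : ℕ) + p + 1) % 2 ≠ 0 := by omega
    rw [h1, if_neg h2]
    simp only [trPosNum, List.cons_append, encL, ih, cd]
    push_cast
    ring
  | bit0 p ih =>
    have hp : 0 < (p : ℕ) := PosNum.cast_pos p
    have h0 : ((p.bit0 : PosNum) : ℕ) ≠ 0 := by rw [PosNum.cast_bit0]; omega
    rw [inp_pos h0, PosNum.cast_bit0]
    have h1 : ((p : ℕ) + p) / 2 = p := by omega
    have h2 : ((p : ℕ) + p) % 2 = 0 := by omega
    rw [h1, if_pos h2]
    simp only [trPosNum, List.cons_append, encL, ih, cd]
    push_cast
    ring

theorem encL_trList (n : ℕ) : encL (trList [n]) = inp n := by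
  simp only [trList, trNat]
  have h : ((n : Num) : ℕ) = n := Num.to_of_nat n
  generalize (n : Num) = m at h
  cases m with
  | zero =>
    have : n = 0 := by rw [← h]; rfl
    subst this
    rw [inp_zero]
    simp [trNum, encL, cd]
  | pos p =>
    have h2 : ((Num.pos p : Num) : ℕ) = (p : ℕ) := rfl
    rw [h2] at h
    simp only [trNum]
    rw [encL_pos, h]

theorem primrec_inp : Primrec inp := by
  have h : Primrec₂ (fun (_ : Unit) (n : ℕ) => inp n) := by
    refine Primrec.nat_strong_rec (fun (_ : Unit) (n : ℕ) => inp n)
      (g := fun _ l => some (if l.length = 0 then 2 else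
        5 * (l.getD (l.length / 2) 0) + (if l.length % 2 = 0 then 3 else 4))) ?_ ?_
    · refine Primrec.option_some.comp ?_
      have hlen : Primrec (fun p : Unit × List ℕ => p.2.length) :=
        Primrec.list_length.comp Primrec.snd
      have hget : Primrec (fun p : Unit × List ℕ => p.2.getD (p.2.length / 2) 0) :=
        (Primrec.list_getD 0).comp Primrec.snd
          (Primrec.nat_div.comp hlen (Primrec.const 2))
      have hmod : PrimrecPred (fun p : Unit × List ℕ => p.2.length % 2 = 0) :=
        Primrec.eq.comp (Primrec.nat_mod.comp hlen (Primrec.const 2)) (Primrec.const 0)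
      have hz : PrimrecPred (fun p : Unit × List ℕ => p.2.length = 0) :=
        Primrec.eq.comp hlen (Primrec.const 0)
      exact Primrec.ite hz (Primrec.const 2)
        (Primrec.nat_add.comp (Primrec.nat_mul.comp (Primrec.const 5) hget)
          (Primrec.ite hmod (Primrec.const 3) (Primrec.const 4)))
    · intro _ n
      simp only [List.length_map, List.length_range, Option.some.injEq]
      by_cases hn : n = 0
      · subst hn; simp [inp_zero]
      · rw [if_neg hn, inp_pos hn]
        have h1 : n / 2 < n := Nat.div_lt_self (Nat.pos_of_ne_zero hn) one_lt_two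
        congr 2
        rw [List.getD_eq_getElem?_getD]
        simp [h1]
  exact h.comp (Primrec.const ()) Primrec.id

/-- A finite set of states closed under transitions. -/
noncomputable def states (c : ToPartrec.Code) : Finset QS :=
  open scoped Classical in
  ((codeSupp c Cont'.halt).biUnion fun l => stmts₁ (tr' l)) ×ˢ Finset.univ

theorem mem_states {c : ToPartrec.Code} {q : QS} :
    q ∈ states c ↔ ∃ l ∈ codeSupp c Cont'.halt, q.1 ∈ stmts₁ (tr' l) := by
  classical
  unfold states
  simp

theorem start_mem_states (c : ToPartrec.Code) :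
    (tr' (trNormal c Cont'.halt), none) ∈ states c := by
  rw [mem_states]
  exact ⟨_, (tr_supports c Cont'.halt).1, stmts₁_self⟩

theorem nx_mem_states (c : ToPartrec.Code) (q : QS) (hq : q ∈ states c) (d : ℕ) (q' : QS)
    (h : mach.nx q d = some q') : q' ∈ states c := by
  classical
  rw [mem_states] at hq ⊢
  obtain ⟨l, hl, hq⟩ := hq
  obtain ⟨q, v⟩ := q
  have hsub : ∀ q₁, q₁ ∈ stmts₁ q → q₁ ∈ stmts₁ (tr' l) := fun q₁ h1 => stmts₁_trans hq h1
  cases q with
  | push k f q =>
    simp only [mach, Option.some.injEq] at h
    subst h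
    exact ⟨l, hl, hsub _ (by simp [stmts₁, stmts₁_self])⟩
  | peek k f q =>
    simp only [mach, Option.some.injEq] at h
    subst h
    exact ⟨l, hl, hsub _ (by simp [stmts₁, stmts₁_self])⟩
  | pop k f q =>
    simp only [mach, Option.some.injEq] at h
    subst h
    exact ⟨l, hl, hsub _ (by simp [stmts₁, stmts₁_self])⟩
  | load a q =>
    simp only [mach, Option.some.injEq] at h
    subst h
    exact ⟨l, hl, hsub _ (by simp [stmts₁, stmts₁_self])⟩
  | branch f q₁ q₂ =>
    simp only [mach, Option.some.injEq] at h
    subst h
    refine ⟨l, hl, hsub _ ?_⟩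
    cases f v
    · simp [stmts₁, stmts₁_self]
    · simp [stmts₁, stmts₁_self]
  | goto f =>
    simp only [mach, Option.some.injEq] at h
    subst h
    have hs := (tr_supports c Cont'.halt).2 l hl
    have hs2 := stmts₁_supportsStmt_mono hq hs
    exact ⟨f v, hs2 v, stmts₁_self⟩
  | halt => simp [mach] at h

end SimTM2

open SimTM2 Turing in
/-- There is an arithmetic stack machine, with finitely many relevant states, whose halting problem
on the inputs `inp n` in the main register is undecidable. -/
theorem exists_machine : ∃ (T : Finset QS) (q₀ : QS), q₀ ∈ T ∧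
    (∀ q ∈ T, ∀ d q', mach.nx q d = some q' → q' ∈ T) ∧
    ¬ ComputablePred (fun n : ℕ => mach.Halts
      (some q₀, Function.update (fun _ => 0) PartrecToTM2.K'.main (inp n : ℤ))) := by
  -- the universal function
  have hf : Nat.Partrec (fun n : ℕ => (Nat.Partrec.Code.eval (Denumerable.ofNat Nat.Partrec.Code n) 0)) := by
    have h1 : Partrec (fun n : ℕ => (Nat.Partrec.Code.eval (Denumerable.ofNat Nat.Partrec.Code n) 0)) :=
      Nat.Partrec.Code.eval_part.comp (Computable.ofNat _) (Computable.const 0)
    exact Partrec.nat_iff.1 h1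
  have hf' := Nat.Partrec'.part_iff₁.2 (Partrec.nat_iff.2 hf)
  obtain ⟨c, hc⟩ := ToPartrec.Code.exists_code hf'
  refine ⟨states c, _, start_mem_states c, nx_mem_states c, ?_⟩
  intro hcomp
  apply ComputablePred.halting_problem 0
  have key : ∀ n : ℕ, mach.Halts
      (some (tr' (PartrecToTM2.trNormal c PartrecToTM2.Cont'.halt), none),
        Function.update (fun _ => 0) PartrecToTM2.K'.main (inp n : ℤ)) ↔
      (Nat.Partrec.Code.eval (Denumerable.ofNat Nat.Partrec.Code n) 0).Dom := by
    intro n
    have h1 := halts_iff c [n]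
    have h2 : encC (PartrecToTM2.init c [n]) =
        (some (tr' (PartrecToTM2.trNormal c PartrecToTM2.Cont'.halt), none),
          Function.update (fun _ => 0) PartrecToTM2.K'.main (inp n : ℤ)) := by
      refine Prod.ext rfl ?_
      funext k
      cases k with
      | main =>
        show encL (PartrecToTM2.trList [n]) = _
        rw [encL_trList]
        show _ = Function.update (fun _ => (0 : ℤ)) PartrecToTM2.K'.main (inp n : ℤ)
          PartrecToTM2.K'.main
        rw [Function.update_self]
      | rev => rfl
      | aux => rfl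
      | stack => rfl
    rw [← h2, h1]
    have h3 := hc ⟨[n], rfl⟩
    rw [h3]
    simp
    rfl
  have h1 : ComputablePred (fun n : ℕ =>
      (Nat.Partrec.Code.eval (Denumerable.ofNat Nat.Partrec.Code n) 0).Dom) := by
    refine ComputablePred.of_eq hcomp key
  have h2 := ComputablePred.computable_iff.1 h1
  obtain ⟨f, hf1, hf2⟩ := h2
  rw [ComputablePred.computable_iff]
  refine ⟨fun c => f (Encodable.encode c), hf1.comp Computable.encode, ?_⟩
  funext c
  have := congrFun hf2 (Encodable.encode c)
  simpa using this

end Pool.Agent.Helper55
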