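import Mathlib

/-!
# Iterated HNN extensions and the control of a subgroup
-/

set_option autoImplicit false
set_option linter.unusedSectionVars false

namespace Pool.Agent.Helper55

open HNNExtension HNNExtension.NormalWord

section Britton

variable {G : Type*} [Group G] {A B : Subgroup G} (φ : A ≃* B) (U : Subgroup G)

/-- Elements represented by a reduced word with all entries in `U`. -/
def URed (x : HNNExtension G A B φ) : Prop :=
  ∃ w : ReducedWord G A B, w.prod φ = x ∧ w.head ∈ U ∧ ∀ p ∈ w.toList, p.2 ∈ U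

variable {φ U}

theorem URed.of_mul {x : HNNExtension G A B φ} (hx : URed φ U x) {u : G} (hu : u ∈ U) :
    URed φ U (of u * x) := by
  obtain ⟨w, rfl, hw1, hw2⟩ := hx
  refine ⟨⟨u * w.head, w.toList, w.chain⟩, ?_, U.mul_mem hu hw1, hw2⟩
  simp [ReducedWord.prod, mul_assoc]

theorem URed.t_mul (hU : ∀ a : A, (a : G) ∈ U ↔ (φ a : G) ∈ U) {x : HNNExtension G A B φ}
    (hx : URed φ U x) (u : ℤˣ) : URed φ U (t ^ (u : ℤ) * x) := by
  have hU2 : ∀ (v : ℤˣ) (a : toSubgroup A B v), (a : G) ∈ U → (toSubgroupEquiv φ v a : G) ∈ U := by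
    intro v a ha
    rcases Int.units_eq_one_or v with rfl | rfl
    · exact (hU a).1 ha
    · have := hU (φ.symm a)
      rw [φ.apply_symm_apply] at this
      exact this.2 ha
  have hconj : ∀ (v : ℤˣ) (a : toSubgroup A B v),
      (t ^ (v : ℤ) : HNNExtension G A B φ) * of (a : G) =
        of (toSubgroupEquiv φ v a : G) * t ^ (v : ℤ) := by
    intro v a
    rcases Int.units_eq_one_or v with rfl | rfl
    · have h := t_mul_of (φ := φ) a
      rw [Units.val_one, zpow_one]
      exact h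
    · have h := inv_t_mul_of (φ := φ) a
      rw [Units.val_neg, Units.val_one, zpow_neg, zpow_one]
      exact h
  obtain ⟨w, rfl, hw1, hw2⟩ := hx
  obtain ⟨g, l, hl⟩ := w
  cases l with
  | nil =>
    refine ⟨⟨1, [(u, g)], by simp⟩, ?_, U.one_mem, ?_⟩
    · simp [ReducedWord.prod]
    · simpa using hw1
  | cons p l =>
    obtain ⟨v, g₁⟩ := p
    by_cases hc : g ∈ toSubgroup A B u ∧ v ≠ u
    · obtain ⟨hg, hv⟩ := hc
      have hv2 : v = -u := by
        rcases Int.units_eq_one_or u with rfl | rfl <;>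
        rcases Int.units_eq_one_or v with rfl | rfl <;> simp_all
      refine ⟨⟨(toSubgroupEquiv φ u ⟨g, hg⟩ : G) * g₁, l, ?_⟩, ?_, ?_, ?_⟩
      · exact (List.isChain_cons.1 hl).2
      · simp only [ReducedWord.prod, List.map_cons, List.prod_cons]
        rw [← mul_assoc, hconj u ⟨g, hg⟩, hv2]
        simp [mul_assoc]
      · exact U.mul_mem (hU2 u _ hw1) (hw2 (v, g₁) (by simp))
      · intro q hq
        exact hw2 q (by simp [hq])
    · refine ⟨⟨1, (u, g) :: (v, g₁) :: l, ?_⟩, ?_, U.one_mem, ?_⟩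
      · rw [List.isChain_cons_cons]
        refine ⟨?_, hl⟩
        intro hg
        by_contra hne
        exact hc ⟨hg, fun h => hne h.symm⟩
      · simp [ReducedWord.prod, mul_assoc]
      · intro q hq
        rcases List.mem_cons.1 hq with h | h
        · rw [h]; exact hw1
        · exact hw2 q h

/-- If `φ` preserves membership in `U`, then the subgroup generated by `U` and the stable letter
meets the base group in `U`. -/
theorem mem_of_mem_closure (hU : ∀ a : A, (a : G) ∈ U ↔ (φ a : G) ∈ U) {g : G}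
    (hg : (of g : HNNExtension G A B φ) ∈ Subgroup.closure ((of '' (U : Set G)) ∪ {t})) :
    g ∈ U := by
  have h : URed φ U (of g : HNNExtension G A B φ) := by
    refine Subgroup.closure_induction_left (p := fun x _ => URed φ U x) ?_ ?_ ?_ hg
    · exact ⟨ReducedWord.empty G A B, by simp [ReducedWord.prod], U.one_mem, by simp⟩
    · rintro x (⟨u, hu, rfl⟩ | rfl) y _ hy
      · exact hy.of_mul hu
      · simpa using hy.t_mul hU 1
    · rintro x (⟨u, hu, rfl⟩ | rfl) y _ hy
      · rw [← map_inv]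
        exact hy.of_mul (U.inv_mem hu)
      · simpa using hy.t_mul hU (-1)
  obtain ⟨w, hw, hw1, _⟩ := h
  have h1 := ReducedWord.toList_eq_nil_of_mem_of_range φ w ⟨g, hw.symm⟩
  have h2 : w.prod φ = of w.head := by
    simp [ReducedWord.prod, h1]
  rw [h2] at hw
  rw [← of_injective φ hw]
  exact hw1

/-- In the HNN extension of `G` centralising `U`, the stable letter commutes with `g ∈ G` only if
`g ∈ U`. -/
theorem commute_t_iff (U : Subgroup G) (g : G) :
    (t * of g : HNNExtension G U U (MulEquiv.refl U)) = of g * t ↔ g ∈ U := by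
  constructor
  · intro h
    by_contra hg
    let w : ReducedWord G U U := ⟨g⁻¹, [(1, g), (-1, 1)], by
      rw [List.isChain_cons_cons]
      refine ⟨fun hg' => absurd hg' hg, by simp⟩⟩
    have hw : w.prod (MulEquiv.refl U) = 1 := by
      simp only [ReducedWord.prod, w, List.map_cons, List.map_nil, List.prod_cons, List.prod_nil,
        map_one, mul_one]
      simp only [Units.val_one, zpow_one, Units.val_neg, zpow_neg]
      rw [h, mul_inv_cancel_right, map_inv, inv_mul_cancel]
    have := ReducedWord.toList_eq_nil_of_mem_of_range (MulEquiv.refl U) w ⟨1, by rw [hw, map_one]⟩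
    simp [w] at this
  · intro hg
    exact t_mul_of (φ := MulEquiv.refl U) ⟨g, hg⟩

end Britton

/-- One HNN step. -/
theorem hnn_step {K I : Type} [Group K] [Group I] (j₁ j₂ : I →* K)
    (h₁ : Function.Injective j₁) (h₂ : Function.Injective j₂) (U : Subgroup K)
    (hU : ∀ x, j₁ x ∈ U ↔ j₂ x ∈ U) :
    ∃ (K' : Type) (_ : Group K') (ι : K →* K') (U' : Subgroup K') (r : K'),
      Function.Injective ι ∧ (∀ g, ι g ∈ U' ↔ g ∈ U) ∧ r ∈ U' ∧
      ∀ x, r * ι (j₁ x) = ι (j₂ x) * r := by
  let φ : j₁.range ≃* j₂.range :=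
    (MonoidHom.ofInjective h₁).symm.trans (MonoidHom.ofInjective h₂)
  have hφ : ∀ x : I, φ ⟨j₁ x, x, rfl⟩ = ⟨j₂ x, x, rfl⟩ := by
    intro x
    have : (MonoidHom.ofInjective h₁).symm ⟨j₁ x, x, rfl⟩ = x := by
      rw [MulEquiv.symm_apply_eq]; rfl
    show (MonoidHom.ofInjective h₂) ((MonoidHom.ofInjective h₁).symm ⟨j₁ x, x, rfl⟩) = _
    rw [this]; rfl
  refine ⟨HNNExtension K j₁.range j₂.range φ, inferInstance, of,
    Subgroup.closure ((of '' (U : Set K)) ∪ {t}), t, of_injective φ, ?_, ?_, ?_⟩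
  · intro g
    constructor
    · intro hg
      refine mem_of_mem_closure ?_ hg
      rintro ⟨_, x, rfl⟩
      rw [hφ]
      exact hU x
    · intro hg
      exact Subgroup.subset_closure (Or.inl ⟨g, hg, rfl⟩)
  · exact Subgroup.subset_closure (Or.inr rfl)
  · intro x
    have := t_mul_of (φ := φ) ⟨j₁ x, x, rfl⟩
    rw [hφ] at this
    exact this

/-- Iterated HNN extensions. -/
theorem hnn_iterate (n : ℕ) : ∀ {K : Type} [Group K] (I : Fin n → Type) [∀ i, Group (I i)]
    (j₁ j₂ : ∀ i, I i →* K) (_ : ∀ i, Function.Injective (j₁ i))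
    (_ : ∀ i, Function.Injective (j₂ i)) (U : Subgroup K)
    (_ : ∀ i x, j₁ i x ∈ U ↔ j₂ i x ∈ U),
    ∃ (K' : Type) (_ : Group K') (ι : K →* K') (U' : Subgroup K') (r : Fin n → K'),
      Function.Injective ι ∧ (∀ g, ι g ∈ U' ↔ g ∈ U) ∧ (∀ i, r i ∈ U') ∧
      ∀ i x, r i * ι (j₁ i x) = ι (j₂ i x) * r i := by
  induction n with
  | zero =>
    intro K _ I _ j₁ j₂ _ _ U _
    exact ⟨K, inferInstance, MonoidHom.id K, U, fun i => i.elim0, Function.injective_id,
      fun g => Iff.rfl, fun i => i.elim0, fun i => i.elim0⟩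
  | succ n ih =>
    intro K _ I _ j₁ j₂ h₁ h₂ U hU
    obtain ⟨K₁, iK₁, ι₁, U₁, r₁, a1, a2, a3, a4⟩ :=
      hnn_step (j₁ 0) (j₂ 0) (h₁ 0) (h₂ 0) U (hU 0)
    obtain ⟨K₂, iK₂, ι₂, U₂, r₂, b1, b2, b3, b4⟩ :=
      ih (K := K₁) (fun i => I i.succ) (fun i => ι₁.comp (j₁ i.succ))
        (fun i => ι₁.comp (j₂ i.succ)) (fun i => a1.comp (h₁ i.succ))
        (fun i => a1.comp (h₂ i.succ)) U₁
        (fun i x => by
          rw [MonoidHom.comp_apply, MonoidHom.comp_apply, a2, a2]
          exact hU i.succ x)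
    refine ⟨K₂, iK₂, ι₂.comp ι₁, U₂, Fin.cons (ι₂ r₁) r₂, b1.comp a1, ?_, ?_, ?_⟩
    · intro g
      rw [MonoidHom.comp_apply, b2, a2]
    · intro i
      refine Fin.cases ?_ (fun i => ?_) i
      · rw [Fin.cons_zero, b2]; exact a3
      · rw [Fin.cons_succ]; exact b3 i
    · intro i
      refine Fin.cases ?_ (fun i => ?_) i
      · intro x
        rw [Fin.cons_zero, MonoidHom.comp_apply, MonoidHom.comp_apply, ← map_mul, a4, map_mul]
      · intro x
        rw [Fin.cons_succ]
        exact b4 i x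

/-- The final model: stable letters `r i` realising the partial isomorphisms and a letter `k`
commuting with all `r i` and exactly with the elements of `U` in the base group. -/
theorem hnn_model {ρ : Type} [Fintype ρ] {K : Type} [Group K] (I : ρ → Type) [∀ i, Group (I i)]
    (j₁ j₂ : ∀ i, I i →* K) (h₁ : ∀ i, Function.Injective (j₁ i))
    (h₂ : ∀ i, Function.Injective (j₂ i)) (U : Subgroup K)
    (hU : ∀ i x, j₁ i x ∈ U ↔ j₂ i x ∈ U) :
    ∃ (K' : Type) (_ : Group K') (ι : K →* K') (r : ρ → K') (k : K'),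
      (∀ i x, r i * ι (j₁ i x) = ι (j₂ i x) * r i) ∧ (∀ i, k * r i = r i * k) ∧
      ∀ g, k * ι g = ι g * k ↔ g ∈ U := by
  classical
  let e := Fintype.equivFin ρ
  obtain ⟨K₁, iK₁, ι₁, U₁, r₁, a1, a2, a3, a4⟩ :=
    hnn_iterate (Fintype.card ρ) (fun i => I (e.symm i)) (fun i => j₁ (e.symm i))
      (fun i => j₂ (e.symm i)) (fun i => h₁ _) (fun i => h₂ _) U (fun i x => hU _ x)
  refine ⟨HNNExtension K₁ U₁ U₁ (MulEquiv.refl U₁), inferInstance, of.comp ι₁,
    fun i => of (r₁ (e i)), t, ?_, ?_, ?_⟩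
  · intro i x
    obtain ⟨i, rfl⟩ := e.symm.surjective i
    have := a4 i x
    simp only [Equiv.apply_symm_apply, MonoidHom.comp_apply]
    rw [← map_mul, this, map_mul]
  · intro i
    exact t_mul_of (φ := MulEquiv.refl U₁) ⟨r₁ (e i), a3 (e i)⟩
  · intro g
    rw [MonoidHom.comp_apply, commute_t_iff, a2]

end Pool.Agent.Helper55
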