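import Mathlib
import Pool.Agent.Helper55.HNNStep

/-!
# The model group attached to a finite family of partial affine maps
-/

set_option autoImplicit false
set_option linter.unusedSectionVars false

namespace Pool.Agent.Helper55

open SemidirectProduct

section FreeGroupSupport

variable {α β : Type*}

open scoped Classical in
/-- The retraction of a free group killing the generators outside `S`. -/
noncomputable def retr (S : Set β) : FreeGroup β →* FreeGroup β :=
  FreeGroup.lift fun b => if b ∈ S then FreeGroup.of b else 1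

theorem retr_of_mem {S : Set β} {b : β} (hb : b ∈ S) :
    retr S (FreeGroup.of b) = FreeGroup.of b := by
  simp [retr, hb]

theorem retr_of_notMem {S : Set β} {b : β} (hb : b ∉ S) :
    retr S (FreeGroup.of b) = 1 := by
  simp [retr, hb]

theorem retr_eq_self {S : Set β} {w : FreeGroup β}
    (hw : w ∈ Subgroup.closure (FreeGroup.of '' S)) : retr S w = w := by
  induction hw using Subgroup.closure_induction with
  | mem x hx =>
    obtain ⟨b, hb, rfl⟩ := hx
    exact retr_of_mem hb
  | one => simp
  | mul x y _ _ hx hy => rw [map_mul, hx, hy]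
  | inv x _ hx => rw [map_inv, hx]

theorem retr_mem (S : Set β) (w : FreeGroup β) :
    retr S w ∈ Subgroup.closure (FreeGroup.of '' S) := by
  induction w using FreeGroup.induction_on with
  | C1 => rw [map_one]; exact Subgroup.one_mem _
  | of b =>
    by_cases hb : b ∈ S
    · rw [retr_of_mem hb]
      exact Subgroup.subset_closure ⟨b, hb, rfl⟩
    · rw [retr_of_notMem hb]
      exact Subgroup.one_mem _
  | inv_of b ih => rw [map_inv]; exact Subgroup.inv_mem _ ih
  | mul x y hx hy => rw [map_mul]; exact Subgroup.mul_mem _ hx hy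

theorem retr_map (g : α → β) (S : Set β) (w : FreeGroup α) :
    retr S (FreeGroup.map g w) = FreeGroup.map g (retr (g ⁻¹' S) w) := by
  have : (retr S).comp (FreeGroup.map g) = (FreeGroup.map g).comp (retr (g ⁻¹' S)) := by
    ext a
    by_cases ha : g a ∈ S
    · have ha' : a ∈ g ⁻¹' S := ha
      simp [retr_of_mem ha, retr_of_mem ha']
    · have ha' : a ∉ g ⁻¹' S := ha
      simp [retr_of_notMem ha, retr_of_notMem ha']
  exact DFunLike.congr_fun this w

theorem map_mem_closure_iff {g : α → β} (hg : Function.Injective g) (S : Set β)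
    (w : FreeGroup α) : FreeGroup.map g w ∈ Subgroup.closure (FreeGroup.of '' S) ↔
      w ∈ Subgroup.closure (FreeGroup.of '' (g ⁻¹' S)) := by
  constructor
  · intro h
    have h1 := retr_eq_self h
    rw [retr_map] at h1
    have h2 := FreeGroup.map_injective hg h1
    rw [← h2]
    exact retr_mem _ _
  · intro h
    have h1 := retr_eq_self h
    rw [← h1, ← retr_map]
    exact retr_mem _ _

theorem of_mem_closure_iff (S : Set β) (b : β) :
    FreeGroup.of b ∈ Subgroup.closure (FreeGroup.of '' S) ↔ b ∈ S := by
  constructor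
  · intro h
    by_contra hb
    have h1 := retr_eq_self h
    rw [retr_of_notMem hb] at h1
    exact FreeGroup.of_ne_one b h1.symm
  · intro h
    exact Subgroup.subset_closure ⟨b, h, rfl⟩

end FreeGroupSupport

section Base

variable (M : Type) [AddCommGroup M]

/-- The translation action of `M` on the free group on `M`. -/
def transl : Multiplicative M →* MulAut (FreeGroup M) where
  toFun m := FreeGroup.freeGroupCongr (Equiv.addLeft m.toAdd)
  map_one' := by
    apply MulEquiv.toMonoidHom_injective
    ext x
    simp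
  map_mul' a b := by
    apply MulEquiv.toMonoidHom_injective
    ext x
    simp [add_assoc]

/-- The base group `F(M) ⋊ M ≅ M * ℤ`. -/
abbrev BaseGp : Type := FreeGroup M ⋊[transl M] Multiplicative M

variable {M}

theorem transl_of (m : Multiplicative M) (a : M) :
    transl M m (FreeGroup.of a) = FreeGroup.of (m.toAdd + a) := by
  simp [transl]

/-- The basic free generators. -/
def tt (m : M) : BaseGp M := inl (FreeGroup.of m)

/-- The translations. -/
def xx (m : M) : BaseGp M := inr (Multiplicative.ofAdd m)

theorem xx_mul_tt (a m : M) : xx a * tt m * (xx a)⁻¹ = tt (a + m) := by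
  unfold xx tt
  rw [← map_inv, ← SemidirectProduct.inl_aut, transl_of]
  rfl

/-- The subgroup generated by `tt s`, `s ∈ S`. -/
def US (S : Set M) : Subgroup (BaseGp M) :=
  (Subgroup.closure (FreeGroup.of '' S)).map inl

theorem mem_US {S : Set M} {g : BaseGp M} :
    g ∈ US S ↔ g.right = 1 ∧ g.left ∈ Subgroup.closure (FreeGroup.of '' S) := by
  constructor
  · rintro ⟨w, hw, rfl⟩
    exact ⟨by simp, by simpa using hw⟩
  · rintro ⟨h1, h2⟩
    refine ⟨g.left, h2, ?_⟩
    ext
    · simp
    · simp [h1]

theorem tt_mem_US {S : Set M} {m : M} : tt m ∈ US S ↔ m ∈ S := by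
  rw [mem_US]
  unfold tt
  simp [of_mem_closure_iff]

variable {X : Type} [AddCommGroup X]

/-- The map between base groups attached to an additive map and a base point. -/
def jmap (f : X →+ M) (u : M) : BaseGp X →* BaseGp M :=
  SemidirectProduct.map (FreeGroup.map fun x => u + f x) (AddMonoidHom.toMultiplicative f) (by
    intro g
    ext x
    simp [transl]
    abel_nf)

theorem jmap_tt (f : X →+ M) (u : M) (x : X) : jmap f u (tt x) = tt (u + f x) := by
  simp [jmap, tt]

theorem jmap_xx (f : X →+ M) (u : M) (x : X) : jmap f u (xx x) = xx (f x) := by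
  simp [jmap, xx]

theorem jmap_injective {f : X →+ M} (hf : Function.Injective f) (u : M) :
    Function.Injective (jmap f u) := by
  intro a b h
  have h1 := congrArg SemidirectProduct.left h
  have h2 := congrArg SemidirectProduct.right h
  simp only [jmap, SemidirectProduct.map_left, SemidirectProduct.map_right] at h1 h2
  have hinj : Function.Injective (fun x => u + f x) := fun x y hxy => hf (add_left_cancel hxy)
  ext
  · exact FreeGroup.map_injective hinj h1
  · exact hf h2

theorem jmap_mem_US {f : X →+ M} (hf : Function.Injective f) (u : M) (S : Set M)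
    (g : BaseGp X) : jmap f u g ∈ US S ↔ g ∈ US ((fun x => u + f x) ⁻¹' S) := by
  have hinj : Function.Injective (fun x => u + f x) := fun x y hxy => hf (add_left_cancel hxy)
  rw [mem_US, mem_US]
  simp only [jmap, SemidirectProduct.map_left, SemidirectProduct.map_right]
  rw [map_mem_closure_iff hinj]
  refine and_congr_left fun _ => ?_
  constructor
  · intro h
    have h' : f (Multiplicative.toAdd g.right) = f 0 := by rw [map_zero]; exact h
    exact hf h'
  · intro h
    rw [h, map_one]

end Base

/-- The model group for a finite family of partial affine maps. -/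
theorem aff_model {κ ρ : Type} [Fintype ρ] (p₁ p₂ u₁ u₂ : ρ → κ → ℤ)
    (hp : ∀ i j, p₁ i j = 0 ↔ p₂ i j = 0) (S : Set (κ → ℤ))
    (hS : ∀ i (x : κ → ℤ), (∀ j, p₁ i j = 0 → x j = 0) →
      (u₁ i + p₁ i * x ∈ S ↔ u₂ i + p₂ i * x ∈ S)) :
    ∃ (K' : Type) (_ : Group K') (X : Multiplicative (κ → ℤ) →* K') (t : K') (r : ρ → K') (k : K'),
      (∀ i (x : κ → ℤ), (∀ j, p₁ i j = 0 → x j = 0) →
        r i * X (Multiplicative.ofAdd (p₁ i * x)) = X (Multiplicative.ofAdd (p₂ i * x)) * r i) ∧
      (∀ i, r i * (X (Multiplicative.ofAdd (u₁ i)) * t * (X (Multiplicative.ofAdd (u₁ i)))⁻¹) =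
        (X (Multiplicative.ofAdd (u₂ i)) * t * (X (Multiplicative.ofAdd (u₂ i)))⁻¹) * r i) ∧
      (∀ i, k * r i = r i * k) ∧
      ∀ c : κ → ℤ, (k * (X (Multiplicative.ofAdd c) * t * (X (Multiplicative.ofAdd c))⁻¹) =
        (X (Multiplicative.ofAdd c) * t * (X (Multiplicative.ofAdd c))⁻¹) * k ↔ c ∈ S) := by
  classical
  let X : ρ → AddSubgroup (κ → ℤ) := fun i =>
    { carrier := {x | ∀ j, p₁ i j = 0 → x j = 0}
      zero_mem' := fun j _ => rfl
      add_mem' := fun {a b} ha hb j hj => by
        show a j + b j = 0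
        rw [ha j hj, hb j hj, add_zero]
      neg_mem' := fun {a} ha j hj => by
        show - a j = 0
        rw [ha j hj, neg_zero] }
  let f : (ρ → κ → ℤ) → ∀ i, X i →+ (κ → ℤ) := fun p i =>
    { toFun := fun x => p i * (x : κ → ℤ)
      map_zero' := by simp
      map_add' := fun a b => by simp [mul_add] }
  have hf1 : ∀ i, Function.Injective (f p₁ i) := by
    intro i a b hab
    ext j
    have h := congrFun hab j
    have h' : p₁ i j * (a : κ → ℤ) j = p₁ i j * (b : κ → ℤ) j := h
    by_cases hj : p₁ i j = 0
    · rw [a.2 j hj, b.2 j hj]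
    · exact mul_left_cancel₀ hj h'
  have hf2 : ∀ i, Function.Injective (f p₂ i) := by
    intro i a b hab
    ext j
    have h := congrFun hab j
    have h' : p₂ i j * (a : κ → ℤ) j = p₂ i j * (b : κ → ℤ) j := h
    by_cases hj : p₁ i j = 0
    · rw [a.2 j hj, b.2 j hj]
    · exact mul_left_cancel₀ (fun h => hj ((hp i j).2 h)) h'
  obtain ⟨K', iK', ι, r, k, h1, h2, h3⟩ :=
    hnn_model (ρ := ρ) (K := BaseGp (κ → ℤ)) (fun i => BaseGp (X i))
      (fun i => jmap (f p₁ i) (u₁ i)) (fun i => jmap (f p₂ i) (u₂ i))
      (fun i => jmap_injective (hf1 i) _) (fun i => jmap_injective (hf2 i) _) (US S)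
      (fun i g => by
        rw [jmap_mem_US (hf1 i), jmap_mem_US (hf2 i)]
        have : (fun x : X i => u₁ i + f p₁ i x) ⁻¹' S = (fun x : X i => u₂ i + f p₂ i x) ⁻¹' S := by
          ext x
          exact hS i x x.2
        rw [this])
  refine ⟨K', iK', ι.comp inr, ι (tt 0), r, k, ?_, ?_, h2, ?_⟩
  · intro i x hx
    have := h1 i (xx ⟨x, hx⟩)
    rw [jmap_xx, jmap_xx] at this
    exact this
  · intro i
    have := h1 i (tt 0)
    rw [jmap_tt, jmap_tt, map_zero, map_zero, add_zero, add_zero] at this
    have e : ∀ u : κ → ℤ, (ι.comp inr) (Multiplicative.ofAdd u) * ι (tt 0) *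
        ((ι.comp inr) (Multiplicative.ofAdd u))⁻¹ = ι (tt u) := by
      intro u
      have := xx_mul_tt u (0 : κ → ℤ)
      rw [add_zero] at this
      rw [← this]
      simp [xx]
    rw [e, e]
    exact this
  · intro c
    have e : (ι.comp inr) (Multiplicative.ofAdd c) * ι (tt 0) *
        ((ι.comp inr) (Multiplicative.ofAdd c))⁻¹ = ι (tt c) := by
      have := xx_mul_tt c (0 : κ → ℤ)
      rw [add_zero] at this
      rw [← this]
      simp [xx]
    rw [e, h3, tt_mem_US]

end Pool.Agent.Helper55
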