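import Mathlib
import Pool.Agent.Helper55.AffModel

/-!
# The finitely presented group attached to a finite family of partial affine maps
-/

set_option autoImplicit false
set_option linter.unusedSectionVars false

namespace Pool.Agent.Helper55

open scoped commutatorElement

/-- Generators. -/
inductive Gen (κ ρ : Type) : Type
  | x (j : κ) : Gen κ ρ
  | t : Gen κ ρ
  | r (i : ρ) : Gen κ ρ
  | k : Gen κ ρ
  deriving DecidableEq, Fintype

section GroupSide

variable {κ ρ : Type} [Fintype κ] {Q : Type*} [Group Q]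

/-- The product of powers of the `x j`, in the fixed order of `Finset.univ.toList`. -/
noncomputable def Xp (x : κ → Q) (u : κ → ℤ) : Q :=
  ((Finset.univ : Finset κ).toList.map fun j => x j ^ u j).prod

/-- The conjugates of `t`. -/
noncomputable def Tp (x : κ → Q) (t : Q) (u : κ → ℤ) : Q := Xp x u * t * (Xp x u)⁻¹

theorem map_Xp {Q' : Type*} [Group Q'] (f : Q →* Q') (x : κ → Q) (u : κ → ℤ) :
    f (Xp x u) = Xp (fun j => f (x j)) u := by
  unfold Xp
  rw [map_list_prod, List.map_map]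
  congr 1
  refine List.map_congr_left fun j _ => ?_
  simp

theorem map_Tp {Q' : Type*} [Group Q'] (f : Q →* Q') (x : κ → Q) (t : Q) (u : κ → ℤ) :
    f (Tp x t u) = Tp (fun j => f (x j)) (f t) u := by
  unfold Tp
  rw [map_mul, map_mul, map_inv, map_Xp]

theorem Xp_add {x : κ → Q} (hx : ∀ i j, Commute (x i) (x j)) (u v : κ → ℤ) :
    Xp x (u + v) = Xp x u * Xp x v := by
  unfold Xp
  generalize (Finset.univ : Finset κ).toList = l
  induction l with
  | nil => simp
  | cons a l ih =>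
    simp only [List.map_cons, List.prod_cons, Pi.add_apply]
    have ih' : (List.map (fun j => x j ^ (u j + v j)) l).prod =
        (List.map (fun j => x j ^ u j) l).prod * (List.map (fun j => x j ^ v j) l).prod := ih
    rw [ih', zpow_add]
    have hc : Commute (x a ^ v a) (List.map (fun j => x j ^ u j) l).prod := by
      refine Commute.list_prod_right _ _ ?_
      intro y hy
      obtain ⟨j, _, rfl⟩ := List.mem_map.1 hy
      exact (hx a j).zpow_zpow _ _
    have h1 := hc.eq
    calc x a ^ u a * x a ^ v a * ((List.map (fun j => x j ^ u j) l).prod *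
          (List.map (fun j => x j ^ v j) l).prod)
        = x a ^ u a * (x a ^ v a * (List.map (fun j => x j ^ u j) l).prod) *
          (List.map (fun j => x j ^ v j) l).prod := by group
      _ = _ := by rw [h1]; group

theorem Tp_add {x : κ → Q} (hx : ∀ i j, Commute (x i) (x j)) (t : Q) (u v : κ → ℤ) :
    Tp x t (u + v) = Xp x v * Tp x t u * (Xp x v)⁻¹ := by
  unfold Tp
  rw [add_comm, Xp_add hx]
  group

theorem r_mul_Xp {x : κ → Q} {p₁ p₂ : κ → ℤ} {r : Q}
    (hr : ∀ j, r * x j ^ p₁ j = x j ^ p₂ j * r) (v : κ → ℤ) :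
    r * Xp x (p₁ * v) = Xp x (p₂ * v) * r := by
  have h1 : r * Xp x (p₁ * v) * r⁻¹ = Xp x (p₂ * v) := by
    have h2 : r * Xp x (p₁ * v) * r⁻¹ = MulAut.conj r (Xp x (p₁ * v)) := rfl
    rw [h2]
    unfold Xp
    rw [map_list_prod, List.map_map]
    congr 1
    refine List.map_congr_left fun j _ => ?_
    simp only [Function.comp, Pi.mul_apply, zpow_mul, map_zpow]
    congr 1
    rw [MulAut.conj_apply, conj_zpow, hr, mul_inv_cancel_right]
  rw [← h1]
  group

theorem r_mul_Tp {x : κ → Q} (hx : ∀ i j, Commute (x i) (x j)) {t : Q}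
    {p₁ p₂ u₁ u₂ : κ → ℤ} {r : Q}
    (hr : ∀ j, r * x j ^ p₁ j = x j ^ p₂ j * r)
    (ht : r * Tp x t u₁ = Tp x t u₂ * r) (v : κ → ℤ) :
    r * Tp x t (u₁ + p₁ * v) = Tp x t (u₂ + p₂ * v) * r := by
  rw [Tp_add hx, Tp_add hx]
  have h1 := r_mul_Xp hr v
  have h2 : r * (Xp x (p₁ * v))⁻¹ = (Xp x (p₂ * v))⁻¹ * r := by
    rw [eq_inv_mul_iff_mul_eq, ← mul_assoc, ← h1, mul_inv_cancel_right]
  calc r * (Xp x (p₁ * v) * Tp x t u₁ * (Xp x (p₁ * v))⁻¹)
      = (r * Xp x (p₁ * v)) * Tp x t u₁ * (Xp x (p₁ * v))⁻¹ := by group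
    _ = Xp x (p₂ * v) * (r * Tp x t u₁) * (Xp x (p₁ * v))⁻¹ := by rw [h1]; group
    _ = Xp x (p₂ * v) * Tp x t u₂ * (r * (Xp x (p₁ * v))⁻¹) := by rw [ht]; group
    _ = _ := by rw [h2]; group

theorem commute_iff_of_rule {x : κ → Q} (hx : ∀ i j, Commute (x i) (x j)) {t k : Q}
    {p₁ p₂ u₁ u₂ : κ → ℤ} {r : Q}
    (hr : ∀ j, r * x j ^ p₁ j = x j ^ p₂ j * r)
    (ht : r * Tp x t u₁ = Tp x t u₂ * r) (hk : k * r = r * k) (v : κ → ℤ) :
    Commute k (Tp x t (u₁ + p₁ * v)) ↔ Commute k (Tp x t (u₂ + p₂ * v)) := by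
  have h := r_mul_Tp hx hr ht v
  have hkr : Commute k r := hk
  have h2 : Tp x t (u₂ + p₂ * v) = r * Tp x t (u₁ + p₁ * v) * r⁻¹ := by rw [h]; group
  have h3 : Tp x t (u₁ + p₁ * v) = r⁻¹ * Tp x t (u₂ + p₂ * v) * r := by rw [h2]; group
  constructor
  · intro hc
    rw [h2]
    exact (hkr.mul_right hc).mul_right hkr.inv_right
  · intro hc
    rw [h3]
    exact (hkr.inv_right.mul_right hc).mul_right hkr

end GroupSide

section Presentation

variable {κ ρ : Type} [Fintype κ] [Fintype ρ] (p₁ p₂ u₁ u₂ : ρ → κ → ℤ) (h₀ : κ → ℤ)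

/-- Generators as elements of the free group. -/
abbrev fx (j : κ) : FreeGroup (Gen κ ρ) := FreeGroup.of (Gen.x j)
/-- Generators as elements of the free group. -/
abbrev ft : FreeGroup (Gen κ ρ) := FreeGroup.of Gen.t
/-- Generators as elements of the free group. -/
abbrev fr (i : ρ) : FreeGroup (Gen κ ρ) := FreeGroup.of (Gen.r i)
/-- Generators as elements of the free group. -/
abbrev fk : FreeGroup (Gen κ ρ) := FreeGroup.of Gen.k

/-- The relators. -/
inductive AffRel : FreeGroup (Gen κ ρ) → Prop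
  | xx (a b : κ) : AffRel ⁅(fx a : FreeGroup (Gen κ ρ)), (fx b : FreeGroup (Gen κ ρ))⁆
  | rx (i : ρ) (j : κ) : AffRel (fr i * fx j ^ p₁ i j * (fr i)⁻¹ * (fx j ^ p₂ i j)⁻¹)
  | rt (i : ρ) : AffRel (fr i * Tp fx ft (u₁ i) * (fr i)⁻¹ * (Tp fx ft (u₂ i))⁻¹)
  | kr (i : ρ) : AffRel ⁅(fk : FreeGroup (Gen κ ρ)), (fr i : FreeGroup (Gen κ ρ))⁆
  | kh : AffRel ⁅(fk : FreeGroup (Gen κ ρ)), (Tp fx ft h₀ : FreeGroup (Gen κ ρ))⁆

/-- The set of relators. -/
def affRels : Set (FreeGroup (Gen κ ρ)) := {w | AffRel p₁ p₂ u₁ u₂ h₀ w}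

variable {p₁ p₂ u₁ u₂ h₀} in
theorem mem_affRels {w : FreeGroup (Gen κ ρ)} :
    w ∈ affRels p₁ p₂ u₁ u₂ h₀ ↔ AffRel p₁ p₂ u₁ u₂ h₀ w := Iff.rfl

theorem affRels_finite : (affRels p₁ p₂ u₁ u₂ h₀).Finite := by
  have hfin : ((Set.range fun q : κ × κ => ⁅(fx q.1 : FreeGroup (Gen κ ρ)), (fx q.2 : FreeGroup (Gen κ ρ))⁆) ∪
      (Set.range fun q : ρ × κ => fr q.1 * fx q.2 ^ p₁ q.1 q.2 * (fr q.1)⁻¹ *
        (fx q.2 ^ p₂ q.1 q.2)⁻¹) ∪
      (Set.range fun i : ρ => fr i * Tp fx ft (u₁ i) * (fr i)⁻¹ * (Tp fx ft (u₂ i))⁻¹) ∪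
      (Set.range fun i : ρ => ⁅(fk : FreeGroup (Gen κ ρ)), (fr i : FreeGroup (Gen κ ρ))⁆) ∪
      {⁅(fk : FreeGroup (Gen κ ρ)), (Tp fx ft h₀ : FreeGroup (Gen κ ρ))⁆}).Finite :=
    ((((Set.finite_range _).union (Set.finite_range _)).union (Set.finite_range _)).union
      (Set.finite_range _)).union (Set.finite_singleton _)
  refine hfin.subset ?_
  intro w hw
  rw [mem_affRels] at hw
  simp only [Set.mem_union, Set.mem_range, Set.mem_singleton_iff]
  cases hw with
  | xx a b => exact Or.inl (Or.inl (Or.inl (Or.inl ⟨(a, b), rfl⟩)))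
  | rx i j => exact Or.inl (Or.inl (Or.inl (Or.inr ⟨(i, j), rfl⟩)))
  | rt i => exact Or.inl (Or.inl (Or.inr ⟨i, rfl⟩))
  | kr i => exact Or.inl (Or.inr ⟨i, rfl⟩)
  | kh => exact Or.inr rfl

/-- The word `[k, T(c)]`. -/
noncomputable def commWord (c : κ → ℤ) : FreeGroup (Gen κ ρ) :=
  ⁅(fk : FreeGroup (Gen κ ρ)), (Tp fx ft c : FreeGroup (Gen κ ρ))⁆

variable {p₁ p₂ u₁ u₂ h₀}

theorem commWord_mem_iff {c : κ → ℤ} :
    commWord c ∈ Subgroup.normalClosure (affRels p₁ p₂ u₁ u₂ h₀) ↔
    Commute (PresentedGroup.of (rels := affRels p₁ p₂ u₁ u₂ h₀) Gen.k)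
      (Tp (fun j => PresentedGroup.of (rels := affRels p₁ p₂ u₁ u₂ h₀) (Gen.x j))
        (PresentedGroup.of Gen.t) c) := by
  rw [← commutatorElement_eq_one_iff_commute, ← PresentedGroup.mk_eq_one_iff]
  unfold commWord
  rw [map_commutatorElement, map_Tp]
  rfl

/-- The words `[k, T(c)]` that are trivial in the presented group form a set containing `h₀` and
closed under the rules in both directions. -/
theorem commWord_h₀ : commWord h₀ ∈ Subgroup.normalClosure (affRels p₁ p₂ u₁ u₂ h₀) :=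
  Subgroup.subset_normalClosure (mem_affRels.2 AffRel.kh)

theorem commWord_rule (i : ρ) (v : κ → ℤ) :
    commWord (u₁ i + p₁ i * v) ∈ Subgroup.normalClosure (affRels p₁ p₂ u₁ u₂ h₀) ↔
    commWord (u₂ i + p₂ i * v) ∈ Subgroup.normalClosure (affRels p₁ p₂ u₁ u₂ h₀) := by
  rw [commWord_mem_iff, commWord_mem_iff]
  set R := affRels p₁ p₂ u₁ u₂ h₀ with hR
  refine commute_iff_of_rule (r := PresentedGroup.of (rels := R) (Gen.r i)) ?_ ?_ ?_ ?_ v
  · intro a b
    rw [← commutatorElement_eq_one_iff_commute]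
    have h : PresentedGroup.mk R ⁅(fx a : FreeGroup (Gen κ ρ)), (fx b : FreeGroup (Gen κ ρ))⁆ = 1 :=
      PresentedGroup.one_of_mem (mem_affRels.2 (AffRel.xx a b))
    rw [map_commutatorElement] at h
    exact h
  · intro j
    have h : PresentedGroup.mk R (fr i * fx j ^ p₁ i j * (fr i)⁻¹ * (fx j ^ p₂ i j)⁻¹) = 1 :=
      PresentedGroup.one_of_mem (mem_affRels.2 (AffRel.rx i j))
    simp only [map_mul, map_inv, map_zpow] at h
    rw [mul_inv_eq_one, mul_inv_eq_iff_eq_mul] at h
    exact h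
  · have h : PresentedGroup.mk R (fr i * Tp fx ft (u₁ i) * (fr i)⁻¹ * (Tp fx ft (u₂ i))⁻¹) = 1 :=
      PresentedGroup.one_of_mem (mem_affRels.2 (AffRel.rt i))
    simp only [map_mul, map_inv, map_Tp] at h
    rw [mul_inv_eq_one, mul_inv_eq_iff_eq_mul] at h
    exact h
  · have h : PresentedGroup.mk R ⁅(fk : FreeGroup (Gen κ ρ)), (fr i : FreeGroup (Gen κ ρ))⁆ = 1 :=
      PresentedGroup.one_of_mem (mem_affRels.2 (AffRel.kr i))
    rw [map_commutatorElement, commutatorElement_eq_one_iff_mul_comm] at h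
    exact h

/-- Conversely every set with these closure properties contains all `c` with `[k, T(c)] = 1`. -/
theorem mem_of_commWord (hp : ∀ i j, p₁ i j = 0 ↔ p₂ i j = 0) (S : Set (κ → ℤ)) (hh : h₀ ∈ S)
    (hS : ∀ i (x : κ → ℤ), (∀ j, p₁ i j = 0 → x j = 0) →
      (u₁ i + p₁ i * x ∈ S ↔ u₂ i + p₂ i * x ∈ S)) {c : κ → ℤ}
    (hc : commWord c ∈ Subgroup.normalClosure (affRels p₁ p₂ u₁ u₂ h₀)) : c ∈ S := by
  classical
  obtain ⟨K', iK', X, t, r, k, h1, h2, h3, h4⟩ := aff_model p₁ p₂ u₁ u₂ hp S hS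
  let x : κ → K' := fun j => X (Multiplicative.ofAdd (Pi.single j 1))
  have hXp : ∀ u : κ → ℤ, Xp x u = X (Multiplicative.ofAdd u) := by
    intro u
    have e1 : ∀ j, x j ^ u j = X (Multiplicative.ofAdd (Pi.single j (u j))) := by
      intro j
      show X (Multiplicative.ofAdd (Pi.single j 1)) ^ u j = _
      rw [← map_zpow, ← ofAdd_zsmul]
      congr 2
      ext i
      by_cases hi : i = j
      · subst hi; simp
      · simp [hi]
    unfold Xp
    simp_rw [e1]
    have e2 : (List.map (fun j => X (Multiplicative.ofAdd (Pi.single j (u j))))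
        (Finset.univ : Finset κ).toList).prod =
        X ((List.map (fun j => Multiplicative.ofAdd (Pi.single j (u j)))
        (Finset.univ : Finset κ).toList).prod) := by
      rw [map_list_prod, List.map_map]; rfl
    rw [e2]
    congr 1
    rw [Finset.prod_map_toList]
    have e3 := Finset.univ_sum_single u
    conv_rhs => rw [← e3]
    rw [ofAdd_sum]
  let f : Gen κ ρ → K' := fun g => match g with
    | .x j => x j
    | .t => t
    | .r i => r i
    | .k => k
  have hTp : ∀ u : κ → ℤ, FreeGroup.lift f (Tp fx ft u) =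
      X (Multiplicative.ofAdd u) * t * (X (Multiplicative.ofAdd u))⁻¹ := by
    intro u
    rw [map_Tp]
    simp only [FreeGroup.lift_apply_of]
    unfold Tp
    have := hXp u
    rw [← this]
  have hf : ∀ w ∈ affRels p₁ p₂ u₁ u₂ h₀, FreeGroup.lift f w = 1 := by
    intro w hw
    rw [mem_affRels] at hw
    cases hw with
    | xx a b =>
      rw [map_commutatorElement, commutatorElement_eq_one_iff_mul_comm]
      simp only [FreeGroup.lift_apply_of]
      show X _ * X _ = X _ * X _
      rw [← map_mul X, ← map_mul X, mul_comm]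
    | rx i j =>
      simp only [map_mul, map_inv, map_zpow, FreeGroup.lift_apply_of]
      rw [mul_inv_eq_one, mul_inv_eq_iff_eq_mul]
      have e : ∀ n : ℤ, x j ^ n = X (Multiplicative.ofAdd (Pi.single j n)) := by
        intro n
        show X (Multiplicative.ofAdd (Pi.single j 1)) ^ n = _
        rw [← map_zpow, ← ofAdd_zsmul]
        congr 2
        ext i
        by_cases hi : i = j
        · subst hi; simp
        · simp [hi]
      show r i * x j ^ p₁ i j = x j ^ p₂ i j * r i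
      rw [e, e]
      by_cases hj : p₁ i j = 0
      · rw [hj, (hp i j).1 hj]
        simp
      · have h5 := h1 i (Pi.single j 1) (by
          intro j' hj'
          by_cases hjj : j' = j
          · subst hjj; exact absurd hj' hj
          · simp [hjj])
        have e1 : ∀ p : κ → ℤ, p * Pi.single j 1 = Pi.single j (p j) := by
          intro p
          ext j'
          by_cases hjj : j' = j
          · subst hjj; simp
          · simp [hjj]
        rw [e1, e1] at h5
        exact h5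
    | rt i =>
      simp only [map_mul, map_inv, hTp]
      rw [mul_inv_eq_one, mul_inv_eq_iff_eq_mul]
      simp only [FreeGroup.lift_apply_of]
      exact h2 i
    | kr i =>
      rw [map_commutatorElement, commutatorElement_eq_one_iff_mul_comm]
      simp only [FreeGroup.lift_apply_of]
      exact h3 i
    | kh =>
      rw [map_commutatorElement, commutatorElement_eq_one_iff_mul_comm, hTp]
      simp only [FreeGroup.lift_apply_of]
      exact (h4 h₀).2 hh
  have hc1 : FreeGroup.lift f (commWord c) = 1 := by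
    have hle : Subgroup.normalClosure (affRels p₁ p₂ u₁ u₂ h₀) ≤ (FreeGroup.lift f).ker :=
      Subgroup.normalClosure_le_normal hf
    exact hle hc
  unfold commWord at hc1
  rw [map_commutatorElement, commutatorElement_eq_one_iff_mul_comm, hTp] at hc1
  simp only [FreeGroup.lift_apply_of] at hc1
  exact (h4 c).1 hc1

end Presentation

end Pool.Agent.Helper55
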