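import Mathlib

/-!
# Centres of amalgamated products and HNN extensions
-/

set_option autoImplicit false
set_option linter.unusedSectionVars false

namespace Pool.Agent.Helper55

open Monoid

section Amalgam

open Monoid.PushoutI

variable {G : Bool → Type*} [∀ i, Group (G i)] {H : Type*} [Group H] {φ : ∀ i, H →* G i}

variable (φ) in
/-- The product of a list of letters. -/
def lprod (l : List (Σ i, G i)) : PushoutI φ := (l.map fun x => PushoutI.of x.1 x.2).prod

theorem lprod_append (l m : List (Σ i, G i)) : lprod φ (l ++ m) = lprod φ l * lprod φ m := by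
  simp [lprod]

theorem lprod_cons (x : Σ i, G i) (m : List (Σ i, G i)) :
    lprod φ (x :: m) = PushoutI.of x.1 x.2 * lprod φ m := by
  simp [lprod]

/-- The inverse list. -/
def linv (l : List (Σ i, G i)) : List (Σ i, G i) :=
  (l.map fun x => (⟨x.1, x.2⁻¹⟩ : Σ i, G i)).reverse

theorem lprod_linv (l : List (Σ i, G i)) : lprod φ (linv l) = (lprod φ l)⁻¹ := by
  rw [lprod, lprod, List.prod_inv_reverse, linv, List.map_reverse, List.map_map, List.map_map]
  congr 2

theorem chain_linv {l : List (Σ i, G i)} (h : l.IsChain fun a b => a.1 ≠ b.1) :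
    (linv l).IsChain fun a b => a.1 ≠ b.1 := by
  rw [linv, List.isChain_reverse, List.isChain_map]
  exact h.imp fun a b hab => hab.symm

theorem eq_nil_of_lprod_mem (hφ : ∀ i, Function.Injective (φ i)) {l : List (Σ i, G i)}
    (hc : l.IsChain fun a b => a.1 ≠ b.1) (hr : ∀ x ∈ l, x.2 ∉ (φ x.1).range)
    (h : lprod φ l ∈ (base φ).range) : l = [] := by
  let w : CoprodI.Word G := ⟨l, fun x hx h1 => hr x hx (h1 ▸ one_mem _), hc⟩
  have hw : Reduced φ w := hr
  have := hw.eq_empty_of_mem_range hφ (by
    have : ofCoprodI (φ := φ) w.prod = lprod φ l := by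
      simp only [CoprodI.Word.prod, lprod, map_list_prod, List.map_map, w]
      congr 1
    rw [this]; exact h)
  exact congrArg CoprodI.Word.toList this

theorem key_ne (hφ : ∀ i, Function.Injective (φ i)) {l : List (Σ i, G i)} (hl : l ≠ [])
    (hc : l.IsChain fun a b => a.1 ≠ b.1) (hr : ∀ x ∈ l, x.2 ∉ (φ x.1).range) {k : Bool}
    (h1 : ∀ x ∈ l.head?, x.1 ≠ k) (h2 : ∀ x ∈ l.getLast?, x.1 ≠ k) {c d : G k}
    (hcr : c ∉ (φ k).range) (hdr : d ∉ (φ k).range) :
    PushoutI.of k c * lprod φ l ≠ lprod φ l * PushoutI.of k d := by
  intro heq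
  have h3 : lprod φ (linv l ++ (⟨k, c⟩ :: (l ++ [⟨k, d⁻¹⟩]))) = 1 := by
    rw [lprod_append, lprod_cons, lprod_append, lprod_linv, ← mul_assoc (PushoutI.of k c), heq]
    simp [lprod]
  have h4 := eq_nil_of_lprod_mem hφ (l := linv l ++ (⟨k, c⟩ :: (l ++ [⟨k, d⁻¹⟩]))) ?_ ?_
    (by rw [h3]; exact one_mem _)
  · simp at h4
  · rw [List.isChain_append]
    refine ⟨chain_linv hc, ?_, ?_⟩
    · rw [List.isChain_cons]
      constructor
      · intro y hy
        cases l with
        | nil => exact absurd rfl hl
        | cons x l => simp only [List.cons_append, List.head?_cons, Option.mem_some_iff] at hy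
                      subst hy
                      exact fun h => h1 x (by simp) h.symm
      · rw [List.isChain_append]
        refine ⟨hc, by simp, ?_⟩
        intro x hx y hy
        simp only [List.head?_cons, Option.mem_some_iff] at hy
        subst hy
        exact h2 x hx
    · intro x hx y hy
      simp only [List.head?_cons, Option.mem_some_iff] at hy
      subst hy
      rw [linv, List.getLast?_reverse, List.head?_map, Option.mem_def, Option.map_eq_some_iff] at hx
      obtain ⟨z, hz, rfl⟩ := hx
      exact h1 z hz
  · intro x hx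
    simp only [linv, List.mem_append, List.mem_reverse, List.mem_map, List.mem_cons,
      List.not_mem_nil, or_false] at hx
    rcases hx with ⟨z, hz, rfl⟩ | rfl | hx | rfl
    · simpa using hr z hz
    · exact hcr
    · exact hr x hx
    · simpa using hdr

/-- The centre of a nontrivial amalgamated product is contained in the amalgamated subgroup. -/
theorem center_le_base (hφ : ∀ i, Function.Injective (φ i))
    (hs : ∀ i, ¬ Function.Surjective (φ i)) {z : PushoutI φ}
    (hz : ∀ g, z * g = g * z) : z ∈ (base φ).range := by
  classical
  obtain ⟨d⟩ := NormalWord.transversal_nonempty φ hφ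
  let w : NormalWord d := NormalWord.equiv z
  have hw : w.prod = z := NormalWord.equiv.symm_apply_apply z
  have hprod : z = base φ w.head * lprod φ w.toList := by
    rw [← hw]
    simp only [NormalWord.prod, CoprodI.Word.prod, lprod, map_list_prod, List.map_map]
    congr 1
  have hr : ∀ x ∈ w.toList, x.2 ∉ (φ x.1).range := by
    intro x hx hxr
    have h1 : x.2 ∈ d.set x.1 := w.normalized x.1 x.2 hx
    have h2 := (d.compl x.1).injective (a₁ := (⟨x.2, hxr⟩, ⟨1, d.one_mem x.1⟩))
      (a₂ := (⟨1, one_mem _⟩, ⟨x.2, h1⟩)) (by simp)
    have h3 := congrArg (fun p => (p.1 : G x.1)) h2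
    exact w.ne_one x hx h3
  have hc : w.toList.IsChain fun a b => a.1 ≠ b.1 := w.chain_ne
  generalize w.toList = l at hprod hr hc
  generalize w.head = h at hprod
  cases l with
  | nil =>
    rw [hprod]
    simp [lprod]
  | cons x l =>
    exfalso
    by_cases hlast : ∀ y ∈ (x :: l).getLast?, y.1 = x.1
    · -- all extremal letters lie in the factor `x.1`
      have hs' := hs (!x.1)
      rw [Function.Surjective] at hs'
      push Not at hs'
      obtain ⟨a, ha⟩ := hs'
      have ha' : a ∉ (φ (!x.1)).range := fun ⟨b, hb⟩ => ha b hb
      refine key_ne hφ (l := x :: l) (by simp) hc hr (k := !x.1) ?_ ?_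
        (c := (φ (!x.1) h)⁻¹ * a * φ (!x.1) h) (d := a) ?_ ha' ?_
      · intro y hy
        simp only [List.head?_cons, Option.mem_some_iff] at hy
        subst hy
        simp
      · intro y hy
        rw [hlast y hy]
        simp
      · intro h1
        apply ha'
        have := mul_mem (mul_mem (MonoidHom.mem_range.2 ⟨h, rfl⟩) h1)
          (inv_mem (MonoidHom.mem_range.2 ⟨h, rfl⟩))
        simpa [mul_assoc] using this
      · have h1 := hz (PushoutI.of (!x.1) a)
        rw [hprod] at h1
        rw [map_mul, map_mul, map_inv, of_apply_eq_base]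
        rw [mul_assoc, mul_assoc, ← h1]
        simp [mul_assoc]
    · push Not at hlast
      obtain ⟨y, hy, hyx⟩ := hlast
      have hl : l ≠ [] := by
        rintro rfl
        simp only [List.getLast?_singleton, Option.mem_some_iff] at hy
        exact hyx (by rw [hy])
      have hc' := List.isChain_cons.1 hc
      have hcr : φ x.1 h * x.2 ∉ (φ x.1).range := by
        intro h1
        apply hr x (by simp)
        have := mul_mem (inv_mem (MonoidHom.mem_range.2 ⟨h, rfl⟩)) h1
        simpa [mul_assoc] using this
      refine key_ne hφ (l := l) hl hc'.2 (fun y hy => hr y (by simp [hy])) (k := x.1) ?_ ?_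
        (c := φ x.1 h * x.2) (d := φ x.1 h * x.2) hcr hcr ?_
      · intro y hy
        exact (hc'.1 y hy).symm
      · intro y' hy'
        rw [List.getLast?_cons] at hy
        rw [Option.mem_def] at hy'
        rw [hy'] at hy
        simp only [Option.getD_some, Option.mem_some_iff] at hy
        rw [hy]
        exact hyx
      · have h1 := hz (PushoutI.of x.1 (φ x.1 h * x.2))
        have h2 : z = PushoutI.of x.1 (φ x.1 h * x.2) * lprod φ l := by
          rw [hprod, lprod_cons, map_mul, of_apply_eq_base, mul_assoc]
        rw [h2] at h1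
        have h3 := h1.symm
        rw [mul_assoc] at h3
        exact mul_left_cancel h3

end Amalgam

section Coprod

/-- The two-member family attached to a pair of groups. -/
abbrev pairFam (A B : Type) : Bool → Type := fun b => if b then A else B

instance pairFamGroup (A B : Type) [Group A] [Group B] : ∀ b, Group (pairFam A B b)
  | true => inferInstanceAs (Group A)
  | false => inferInstanceAs (Group B)

/-- The centre of a nontrivial free product is trivial. -/
theorem coprod_center {A B : Type} [Group A] [Group B] (hA : ¬ Subsingleton A)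
    (hB : ¬ Subsingleton B) {z : Coprod A B} (hz : ∀ g, z * g = g * z) : z = 1 := by
  let φ : ∀ b, Unit →* pairFam A B b := fun b => 1
  let f : Coprod A B →* PushoutI φ :=
    Coprod.lift (PushoutI.of (φ := φ) true : A →* PushoutI φ)
      (PushoutI.of (φ := φ) false : B →* PushoutI φ)
  let g : PushoutI φ →* Coprod A B := PushoutI.lift
    (fun b => match b with
      | true => (Coprod.inl : A →* Coprod A B)
      | false => (Coprod.inr : B →* Coprod A B)) 1 (by
      intro b
      ext x
      simp [φ])
  have hgf : ∀ x, g (f x) = x := by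
    intro x
    have : g.comp f = MonoidHom.id _ := by
      apply Coprod.hom_ext
      · ext a
        simp only [MonoidHom.comp_apply, f, Coprod.lift_apply_inl, MonoidHom.id_apply]
        exact PushoutI.lift_of _ _ _ _
      · ext a
        simp only [MonoidHom.comp_apply, f, Coprod.lift_apply_inr, MonoidHom.id_apply]
        exact PushoutI.lift_of _ _ _ _
    exact DFunLike.congr_fun this x
  have hfg : ∀ x, f (g x) = x := by
    intro x
    have : f.comp g = MonoidHom.id _ := by
      apply PushoutI.hom_ext_nonempty
      rintro (_ | _)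
      · ext a
        simp only [MonoidHom.comp_apply, MonoidHom.id_apply, g]
        erw [PushoutI.lift_of]
        rfl
      · ext a
        simp only [MonoidHom.comp_apply, MonoidHom.id_apply, g]
        erw [PushoutI.lift_of]
        rfl
    exact DFunLike.congr_fun this x
  have h1 : f z ∈ (PushoutI.base φ).range := by
    apply center_le_base
    · intro b x y _
      rfl
    · rintro (_ | _) hs
      · apply hB
        constructor
        intro x y
        obtain ⟨a, ha⟩ := hs x
        obtain ⟨b, hb⟩ := hs y
        rw [← ha, ← hb]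
      · apply hA
        constructor
        intro x y
        obtain ⟨a, ha⟩ := hs x
        obtain ⟨b, hb⟩ := hs y
        rw [← ha, ← hb]
    · intro x
      rw [← hfg x, ← map_mul, hz, map_mul]
  obtain ⟨u, hu⟩ := h1
  rw [← hgf z, ← hu]
  have : u = 1 := rfl
  rw [this, map_one, map_one]

end Coprod

section HNN

open HNNExtension HNNExtension.NormalWord

variable {A : Type*} [Group A] {C D : Subgroup A} {φ : C ≃* D}

/-- A central element of an HNN extension lies in the associated subgroup `D`, unless the
HNN extension is ascending. -/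
theorem hnn_center {z : HNNExtension A C D φ} (hz : ∀ g, z * g = g * z) :
    (∃ d ∈ D, z = of d) ∨ C = ⊤ ∨ D = ⊤ := by
  obtain ⟨d⟩ := TransversalPair.nonempty A C D
  let w : NormalWord d := NormalWord.equiv φ d z
  have hw : w.prod φ = z := (NormalWord.equiv φ d).symm_apply_apply z
  rcases List.eq_nil_or_concat' w.toList with hl | ⟨l₀, x, hl⟩
  · left
    have hz0 : z = of w.head := by
      rw [← hw, ReducedWord.prod, hl]
      simp
    refine ⟨w.head, ?_, hz0⟩
    let w₁ : ReducedWord A C D := ⟨1, [(1, w.head)], by simp⟩
    let w₂ : ReducedWord A C D := ⟨w.head, [(1, 1)], by simp⟩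
    have h := ReducedWord.map_fst_eq_and_of_prod_eq φ (w₁ := w₁) (w₂ := w₂) (by
      simp only [w₁, w₂, ReducedWord.prod, List.map_cons, List.map_nil, List.prod_cons,
        List.prod_nil, map_one, mul_one, one_mul, Units.val_one, zpow_one]
      rw [← hz0]
      exact (hz t).symm)
    have h2 := h.2 1 (by simp [w₁])
    simpa [w₁, w₂] using h2
  · right
    have htop : ∃ u : ℤˣ, ∀ a : A, a ∈ toSubgroup C D u := by
      obtain ⟨u, hu⟩ : ∃ u, u ∈ w.toList.head?.map Prod.fst := by
        rw [hl]
        cases l₀ with
        | nil => exact ⟨x.1, by simp⟩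
        | cons y l₀ => exact ⟨y.1, by simp⟩
      refine ⟨-u, fun a => ?_⟩
      -- the word for `z * a`
      let w₁ : ReducedWord A C D := ⟨w.head, l₀ ++ [(x.1, x.2 * (w.head * a * w.head⁻¹))], by
        have hc := w.chain
        rw [hl, List.isChain_append] at hc
        rw [List.isChain_append]
        refine ⟨hc.1, by simp, ?_⟩
        intro y hy y' hy'
        simp only [List.head?_cons, Option.mem_some_iff] at hy'
        subst hy'
        exact hc.2.2 y hy x (by simp)⟩
      let w₂ : ReducedWord A C D := ⟨(w.head * a * w.head⁻¹) * w.head, w.toList, w.chain⟩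
      have hprod : w₁.prod φ = w₂.prod φ := by
        have e1 : w₁.prod φ = z * of (w.head * a * w.head⁻¹) := by
          rw [← hw]
          simp only [w₁, ReducedWord.prod, hl]
          simp [mul_assoc]
        have e2 : w₂.prod φ = of (w.head * a * w.head⁻¹) * z := by
          rw [← hw]
          simp only [w₂, ReducedWord.prod]
          simp [mul_assoc]
        rw [e1, e2, ← hz]
      have h := ReducedWord.map_fst_eq_and_of_prod_eq φ hprod
      have h2 := h.2 u (by
        have : w₁.toList.map Prod.fst = w.toList.map Prod.fst := by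
          simp [w₁, hl]
        rw [← List.head?_map, this, List.head?_map]
        exact hu)
      simpa [w₁, w₂, mul_assoc] using h2
    obtain ⟨u, hu⟩ := htop
    rcases Int.units_eq_one_or u with rfl | rfl
    · left; exact eq_top_iff.2 fun a _ => hu a
    · right; exact eq_top_iff.2 fun a _ => hu a

end HNN

end Pool.Agent.Helper55
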