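import Mathlib

/-!
# Free indecomposability and splittings over the infinite cyclic group
-/

set_option autoImplicit false

namespace Pool.Agent.Helper55

/-- A group `G` is freely indecomposable if it is not isomorphic to a free product `A * B` of two
nontrivial groups. -/
def FreelyIndecomposable (G : Type) [Group G] : Prop :=
  ∀ (A B : Type) [Group A] [Group B], Nonempty (G ≃* Monoid.Coprod A B) →
    Subsingleton A ∨ Subsingleton B

/-- `G` splits over `ℤ` as an amalgamated product `A₀ *_C A₁` with `C` infinite cyclic and
`C ≠ A₀`, `C ≠ A₁` (`Monoid.PushoutI` is the amalgamated product of the family `A`). -/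
def SplitsAsAmalgam (G : Type) [Group G] : Prop :=
  ∃ (C : Type) (_ : Group C) (A : Bool → Type) (_ : ∀ i, Group (A i)) (φ : ∀ i, C →* A i),
    Nonempty (C ≃* Multiplicative ℤ) ∧ (∀ i, Function.Injective (φ i)) ∧
    (∀ i, ¬ Function.Surjective (φ i)) ∧ Nonempty (G ≃* Monoid.PushoutI φ)

/-- `G` splits over `ℤ` as an HNN extension `A *_C` with `C` infinite cyclic. -/
def SplitsAsHNN (G : Type) [Group G] : Prop :=
  ∃ (A : Type) (_ : Group A) (C D : Subgroup A) (φ : C ≃* D),
    Nonempty (C ≃* Multiplicative ℤ) ∧ Nonempty (G ≃* HNNExtension A C D φ)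

/-- A group `G` splits over `ℤ` if it is an amalgamated product over an infinite cyclic group,
with neither inclusion surjective, or an HNN extension over an infinite cyclic group. -/
def SplitsOverZ (G : Type) [Group G] : Prop := SplitsAsAmalgam G ∨ SplitsAsHNN G

end Pool.Agent.Helper55
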