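import Mathlib
import Pool.Agent.Helper55.CenterSplit
import Pool.Agent.Helper55.SplitDefs

/-!
# A group with large centre does not split
-/

set_option autoImplicit false
set_option linter.unusedSectionVars false

namespace Pool.Agent.Helper55

open Monoid

/-- The free abelian group of rank two, written multiplicatively. -/
abbrev Z2 : Type := Multiplicative ℤ × Multiplicative ℤ

/-- `ℤ²` does not embed in a cyclic group. -/
theorem z2_not_le {G : Type*} [Group G] (ζ : Z2 →* G) (hζ : Function.Injective ζ)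
    (f : Multiplicative ℤ →* G) (h : ∀ z, ζ z ∈ f.range) : False := by
  obtain ⟨m, hm⟩ := h (Multiplicative.ofAdd 1, 1)
  obtain ⟨n, hn⟩ := h (1, Multiplicative.ofAdd 1)
  have h1 : ζ ((Multiplicative.ofAdd 1, 1) ^ n.toAdd) = ζ ((1, Multiplicative.ofAdd 1) ^ m.toAdd) := by
    rw [map_zpow, map_zpow, ← hm, ← hn, ← map_zpow, ← map_zpow]
    congr 1
    apply Multiplicative.toAdd.injective
    rw [toAdd_zpow, toAdd_zpow, smul_eq_mul, smul_eq_mul, mul_comm]
  have h2 := hζ h1
  have h3 := congrArg (fun x : Z2 => x.2.toAdd) h2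
  simp only [Prod.pow_mk, one_zpow, toAdd_one, toAdd_zpow, toAdd_ofAdd, smul_eq_mul,
    mul_one] at h3
  have h4 : m = 1 := Multiplicative.toAdd.injective h3.symm
  rw [h4, map_one] at hm
  have h5 := hζ (hm.symm.trans (map_one ζ).symm)
  have h6 := congrArg (fun x : Z2 => x.1.toAdd) h5
  simp at h6

/-- A copy of `ℤ²` in the centre. -/
def HasCentralZ2 (G : Type*) [Group G] : Prop :=
  ∃ ζ : Z2 →* G, Function.Injective ζ ∧ ∀ z g, ζ z * g = g * ζ z

theorem HasCentralZ2.of_equiv {G G' : Type*} [Group G] [Group G'] (e : G ≃* G')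
    (h : HasCentralZ2 G) : HasCentralZ2 G' := by
  obtain ⟨ζ, h1, h2⟩ := h
  refine ⟨e.toMonoidHom.comp ζ, e.injective.comp h1, fun z g => ?_⟩
  obtain ⟨g, rfl⟩ := e.surjective g
  show e (ζ z) * e g = e g * e (ζ z)
  rw [← map_mul, ← map_mul, h2]

theorem HasCentralZ2.freelyIndecomposable {G : Type} [Group G] (h : HasCentralZ2 G) :
    FreelyIndecomposable G := by
  intro A B _ _ ⟨e⟩
  by_contra hAB
  push Not at hAB
  obtain ⟨ζ, h1, h2⟩ := h.of_equiv e
  have hz : ζ (Multiplicative.ofAdd 1, 1) = 1 :=
    coprod_center (by rw [not_subsingleton_iff_nontrivial]; exact hAB.1)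
      (by rw [not_subsingleton_iff_nontrivial]; exact hAB.2) (h2 _)
  have h5 := h1 (hz.trans (map_one ζ).symm)
  have h6 := congrArg (fun x : Z2 => x.1.toAdd) h5
  simp at h6

/-- The elementary abelian group of order `8`. -/
abbrev V8 : Type := Multiplicative (Fin 3 → ZMod 2)

theorem closure_pair_ne_top (a b : V8) : Subgroup.closure {a, b} ≠ ⊤ := by
  intro h
  have hsq : ∀ x : V8, x * x = 1 := by
    intro x
    apply Multiplicative.toAdd.injective
    funext i
    exact CharTwo.add_self_eq_zero _
  have hinv : ∀ x : V8, x⁻¹ = x := fun x => inv_eq_of_mul_eq_one_left (hsq x)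
  let K : Subgroup V8 :=
    { carrier := {1, a, b, a * b}
      one_mem' := by simp
      mul_mem' := by
        have h1 : a * (a * b) = b := by rw [← mul_assoc, hsq, one_mul]
        have h2 : b * (a * b) = a := by rw [mul_comm a b, ← mul_assoc, hsq, one_mul]
        have h3 : a * b * a = b := by rw [mul_comm, h1]
        have h4 : a * b * b = a := by rw [mul_assoc, hsq, mul_one]
        have h5 : b * a = a * b := mul_comm _ _
        have h6 : a * b * (a * b) = 1 := hsq _
        rintro x y (rfl | rfl | rfl | rfl) (rfl | rfl | rfl | rfl) <;>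
          simp [hsq, h1, h2, h3, h4, h5]
      inv_mem' := by
        rintro x hx
        rw [hinv]
        exact hx }
  have hK : K = ⊤ := by
    rw [eq_top_iff, ← h, Subgroup.closure_le]
    rintro x (rfl | rfl)
    · show x ∈ ({1, x, b, x * b} : Set V8)
      simp
    · show x ∈ ({1, a, x, a * x} : Set V8)
      simp
  have hcard : (Finset.univ : Finset V8) ⊆ {1, a, b, a * b} := by
    intro x _
    have hx : x ∈ K := hK ▸ Subgroup.mem_top x
    have hx' : x ∈ ({1, a, b, a * b} : Set V8) := hx
    simpa using hx'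
  have h1 := Finset.card_le_card hcard
  have h2 : (Finset.univ : Finset V8).card = 8 := by
    rw [Finset.card_univ]
    have : Fintype.card V8 = Fintype.card (Fin 3 → ZMod 2) := rfl
    rw [this, Fintype.card_fun, ZMod.card, Fintype.card_fin]
    norm_num
  have h3 : ({1, a, b, a * b} : Finset V8).card ≤ 4 := Finset.card_le_four
  omega

theorem HasCentralZ2.not_splitsOverZ {G : Type} [Group G] (h : HasCentralZ2 G)
    (ψ : G →* V8) (hψ : Function.Surjective ψ) : ¬ SplitsOverZ G := by
  rintro (⟨C, iC, A, iA, φ, ⟨eC⟩, hi, hs, ⟨e⟩⟩ | ⟨A, iA, C, D, φ, ⟨eC⟩, ⟨e⟩⟩)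
  · obtain ⟨ζ, h1, h2⟩ := h.of_equiv e
    refine z2_not_le ζ h1 ((PushoutI.base φ).comp eC.symm.toMonoidHom) fun z => ?_
    obtain ⟨c, hc⟩ := center_le_base hi hs (h2 z)
    exact ⟨eC c, by simp [hc]⟩
  · obtain ⟨ζ, h1, h2⟩ := h.of_equiv e
    by_cases htop : C = ⊤ ∨ D = ⊤
    · -- `G` is generated by two elements
      let eA : ∃ eA : A ≃* Multiplicative ℤ, True := by
        rcases htop with hC | hD
        · subst hC
          exact ⟨Subgroup.topEquiv.symm.trans eC, trivial⟩
        · subst hD
          exact ⟨Subgroup.topEquiv.symm.trans (φ.symm.trans eC), trivial⟩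
      obtain ⟨eA, -⟩ := eA
      let a : A := eA.symm (Multiplicative.ofAdd 1)
      have ha : ∀ x : A, ∃ n : ℤ, x = a ^ n := by
        intro x
        refine ⟨(eA x).toAdd, ?_⟩
        apply eA.injective
        rw [map_zpow, MulEquiv.apply_symm_apply]
        apply Multiplicative.toAdd.injective
        simp
      apply closure_pair_ne_top (ψ (e.symm (HNNExtension.of a))) (ψ (e.symm HNNExtension.t))
      rw [eq_top_iff]
      rintro v -
      obtain ⟨g, rfl⟩ := hψ v
      obtain ⟨g, rfl⟩ := e.symm.surjective g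
      induction g using HNNExtension.induction_on with
      | of x =>
        obtain ⟨n, rfl⟩ := ha x
        rw [map_zpow, map_zpow, map_zpow]
        exact Subgroup.zpow_mem _ (Subgroup.subset_closure (by simp)) _
      | t => exact Subgroup.subset_closure (by simp)
      | mul x y hx hy => rw [map_mul, map_mul]; exact Subgroup.mul_mem _ hx hy
      | inv x hx => rw [map_inv, map_inv]; exact Subgroup.inv_mem _ hx
    · refine z2_not_le ζ h1 ((HNNExtension.of.comp D.subtype).comp
        (φ.toMonoidHom.comp eC.symm.toMonoidHom)) fun z => ?_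
      rcases hnn_center (h2 z) with ⟨d, hd, hz⟩ | h3
      · exact ⟨eC (φ.symm ⟨d, hd⟩), by simp [hz]⟩
      · exact absurd h3 htop

end Pool.Agent.Helper55
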