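import Mathlib
import Pool.Agent.Helper55.SplitNeg

/-!
# Free products with an infinite cyclic group
-/

set_option autoImplicit false
set_option linter.unusedSectionVars false

namespace Pool.Agent.Helper55

open Monoid SemidirectProduct

/-- The left translation action of `P` on the free group on `P`. -/
def ltr (P : Type*) [Group P] : P →* MulAut (FreeGroup P) where
  toFun p := FreeGroup.freeGroupCongr (Equiv.mulLeft p)
  map_one' := by
    apply MulEquiv.toMonoidHom_injective
    ext x
    simp
  map_mul' a b := by
    apply MulEquiv.toMonoidHom_injective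
    ext x
    simp [mul_assoc]

/-- A model of the free product `P * ℤ`. -/
abbrev FZ (P : Type*) [Group P] : Type _ := FreeGroup P ⋊[ltr P] P

variable {P L : Type*} [Group P] [Group L]

theorem ltr_of (p a : P) : ltr P p (FreeGroup.of a) = FreeGroup.of (p * a) := by
  simp [ltr]

/-- The stable letter. -/
def stb (P : Type*) [Group P] : FZ P := inl (FreeGroup.of 1)

theorem inr_mul_stb (p : P) : (inr p : FZ P) * stb P * (inr p)⁻¹ = inl (FreeGroup.of p) := by
  unfold stb
  rw [← map_inv, ← SemidirectProduct.inl_aut, ltr_of, mul_one]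

/-- Functoriality of `FZ`. -/
def fzMap (f : L →* P) : FZ L →* FZ P :=
  SemidirectProduct.map (FreeGroup.map f) f (by
    intro g
    ext x
    simp [ltr])

theorem fzMap_injective {f : L →* P} (hf : Function.Injective f) :
    Function.Injective (fzMap f) := by
  intro a b h
  have h1 := congrArg SemidirectProduct.left h
  have h2 := congrArg SemidirectProduct.right h
  simp only [fzMap, SemidirectProduct.map_left, SemidirectProduct.map_right] at h1 h2
  ext
  · exact FreeGroup.map_injective hf h1
  · exact hf h2

@[simp]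
theorem fzMap_inr (f : L →* P) (x : L) : fzMap f (inr x) = inr (f x) := by
  simp [fzMap]

@[simp]
theorem fzMap_stb (f : L →* P) : fzMap f (stb L) = stb P := by
  simp [fzMap, stb]

/-- The comparison map from the free product. -/
def kap (P : Type*) [Group P] : Coprod P (Multiplicative ℤ) →* FZ P :=
  Coprod.lift inr (zpowersHom _ (stb P))

@[simp]
theorem kap_inl (p : P) : kap P (Coprod.inl p) = inr p := by
  simp [kap]

@[simp]
theorem kap_inr (n : Multiplicative ℤ) : kap P (Coprod.inr n) = stb P ^ n.toAdd := by
  simp [kap]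

/-- The inverse of the comparison map. -/
def lam (P : Type*) [Group P] : FZ P →* Coprod P (Multiplicative ℤ) :=
  SemidirectProduct.lift
    (FreeGroup.lift fun b => Coprod.inl b * Coprod.inr (Multiplicative.ofAdd 1) * (Coprod.inl b)⁻¹)
    Coprod.inl (by
      intro g
      ext x
      simp [ltr, mul_assoc])

theorem lam_kap (x : Coprod P (Multiplicative ℤ)) : lam P (kap P x) = x := by
  have : (lam P).comp (kap P) = MonoidHom.id _ := by
    apply Coprod.hom_ext
    · ext a
      simp [lam]
    · ext
      simp [lam, stb]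
  exact DFunLike.congr_fun this x

theorem kap_injective : Function.Injective (kap P) :=
  Function.LeftInverse.injective lam_kap

/-- A free product with an infinite cyclic group is an HNN extension over `ℤ`, as soon as the
other factor contains an element of infinite order. -/
theorem splits_coprod {L : Type} [Group L] {l : L} (hl : ∀ n : ℤ, l ^ n = 1 → n = 0) :
    SplitsAsHNN (Coprod L (Multiplicative ℤ)) := by
  let f : Multiplicative ℤ →* (Coprod L (Multiplicative ℤ)) := Coprod.inr
  let g : Multiplicative ℤ →* (Coprod L (Multiplicative ℤ)) := Coprod.inl.comp (zpowersHom _ l)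
  have hf : Function.Injective f := Coprod.inr_injective
  have hg : Function.Injective g := by
    refine Coprod.inl_injective.comp ?_
    rw [injective_iff_map_eq_one]
    intro n hn
    exact Multiplicative.toAdd.injective (hl _ hn)
  let φ : f.range ≃* g.range := (MonoidHom.ofInjective hf).symm.trans (MonoidHom.ofInjective hg)
  have hφ : ∀ x, φ ⟨f x, x, rfl⟩ = ⟨g x, x, rfl⟩ := by
    intro x
    have : (MonoidHom.ofInjective hf).symm ⟨f x, x, rfl⟩ = x := by
      rw [MulEquiv.symm_apply_eq]; rfl
    show (MonoidHom.ofInjective hg) ((MonoidHom.ofInjective hf).symm ⟨f x, x, rfl⟩) = _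
    rw [this]; rfl
  refine ⟨(Coprod L (Multiplicative ℤ)), inferInstance, f.range, g.range, φ, ⟨(MonoidHom.ofInjective hf).symm⟩, ?_⟩
  let t : (Coprod L (Multiplicative ℤ)) := Coprod.inr (Multiplicative.ofAdd 1)
  let F : (Coprod L (Multiplicative ℤ)) →* HNNExtension (Coprod L (Multiplicative ℤ)) f.range g.range φ :=
    Coprod.lift (HNNExtension.of.comp Coprod.inl) (zpowersHom _ HNNExtension.t)
  let B₀ : (Coprod L (Multiplicative ℤ)) →* (Coprod L (Multiplicative ℤ)) := Coprod.lift Coprod.inl (zpowersHom _ (t⁻¹ * Coprod.inl l * t))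
  have hB₀ : ∀ x, t * B₀ (f x) = B₀ (g x) * t := by
    intro x
    simp only [B₀, f, g, Coprod.lift_apply_inr, zpowersHom_apply, MonoidHom.comp_apply,
      Coprod.lift_apply_inl]
    rw [show t⁻¹ * Coprod.inl l * t = t⁻¹ * Coprod.inl l * (t⁻¹)⁻¹ by rw [inv_inv], conj_zpow,
      map_zpow]
    group
  let B : HNNExtension (Coprod L (Multiplicative ℤ)) f.range g.range φ →* (Coprod L (Multiplicative ℤ)) :=
    HNNExtension.lift B₀ t (by
      rintro ⟨_, x, rfl⟩
      rw [hφ]
      exact hB₀ x)
  have hBF : ∀ x, B (F x) = x := by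
    intro x
    have : B.comp F = MonoidHom.id _ := by
      apply Coprod.hom_ext
      · ext a
        simp [B, F, B₀]
      · ext
        simp [B, F, t]
    exact DFunLike.congr_fun this x
  have hFB : ∀ x, F (B x) = x := by
    intro x
    have : F.comp B = MonoidHom.id _ := by
      apply HNNExtension.hom_ext
      · apply Coprod.hom_ext
        · ext a
          simp [B, F, B₀]
        · ext
          simp only [MonoidHom.comp_apply, B, HNNExtension.lift_of, B₀, Coprod.lift_apply_inr,
            zpowersHom_apply, toAdd_ofAdd, zpow_one, map_mul, map_inv, F, t, Coprod.lift_apply_inl,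
            MonoidHom.id_apply]
          have h := HNNExtension.equiv_symm_eq_conj (φ := φ) ⟨g (Multiplicative.ofAdd 1), _, rfl⟩
          rw [← hφ, MulEquiv.symm_apply_apply] at h
          rw [hφ] at h
          simp only [g, f, MonoidHom.comp_apply, zpowersHom_apply, toAdd_ofAdd, zpow_one] at h
          rw [← h]
      · simp [B, F, t]
    exact DFunLike.congr_fun this x
  exact ⟨MulEquiv.ofBijective F ⟨Function.LeftInverse.injective hBF,
    Function.RightInverse.surjective hFB⟩⟩

theorem not_freelyIndecomposable_coprod {L : Type} [Group L] (hL : ¬ Subsingleton L) :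
    ¬ FreelyIndecomposable (Coprod L (Multiplicative ℤ)) := by
  intro h
  rcases h L (Multiplicative ℤ) ⟨MulEquiv.refl _⟩ with h1 | h1
  · exact hL h1
  · have := h1.elim (Multiplicative.ofAdd (1 : ℤ)) 1
    simp at this

theorem FreelyIndecomposable.of_equiv {G G' : Type} [Group G] [Group G'] (e : G ≃* G')
    (h : FreelyIndecomposable G) : FreelyIndecomposable G' := by
  intro A B _ _ ⟨f⟩
  exact h A B ⟨e.trans f⟩

theorem SplitsOverZ.of_equiv {G G' : Type} [Group G] [Group G'] (e : G ≃* G')
    (h : SplitsOverZ G) : SplitsOverZ G' := by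
  rcases h with ⟨C, iC, A, iA, φ, h1, h2, h3, ⟨f⟩⟩ | ⟨A, iA, C, D, φ, h1, ⟨f⟩⟩
  · exact Or.inl ⟨C, iC, A, iA, φ, h1, h2, h3, ⟨e.symm.trans f⟩⟩
  · exact Or.inr ⟨A, iA, C, D, φ, h1, ⟨e.symm.trans f⟩⟩

end Pool.Agent.Helper55
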