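import Mathlib
import Pool.Agent.Helper55.FZ

/-!
# The auxiliary group with prescribed central commutators
-/

set_option autoImplicit false
set_option linter.unusedSectionVars false

namespace Pool.Agent.Helper55

open SemidirectProduct
open scoped commutatorElement

theorem exists_height {E₀ : Type*} [Group E₀] {g : E₀} (hg : ∀ n : ℤ, g ^ n = 1 → n = 0) :
    ∃ h : E₀ → ℤ, ∀ x, h (g * x) = h x + 1 := by
  let s := QuotientGroup.rightRel (Subgroup.zpowers g)
  have hrep : ∀ x : E₀, ∃ n : ℤ, g ^ n * (Quotient.mk s x).out = x := by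
    intro x
    have h1 : s ((Quotient.mk s x).out) x := Quotient.mk_out x
    rw [QuotientGroup.rightRel_apply] at h1
    obtain ⟨n, hn⟩ := Subgroup.mem_zpowers_iff.1 h1
    exact ⟨n, by rw [hn]; group⟩
  choose n hn using hrep
  refine ⟨n, fun x => ?_⟩
  have h2 : Quotient.mk s (g * x) = Quotient.mk s x := by
    apply Quotient.sound
    show s (g * x) x
    rw [QuotientGroup.rightRel_apply]
    refine Subgroup.mem_zpowers_iff.2 ⟨-1, ?_⟩
    group
  have h3 := hn (g * x)
  rw [h2] at h3
  have h4 : g ^ n (g * x) * (Quotient.mk s x).out = g ^ (n x + 1) * (Quotient.mk s x).out := by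
    rw [h3, add_comm (n x) 1, zpow_add, zpow_one, mul_assoc, hn x]
  have h5 := mul_right_cancel h4
  have h6 : g ^ (n (g * x) - (n x + 1)) = 1 := by
    rw [zpow_sub, h5, mul_inv_cancel]
  have := hg _ h6
  omega

/-- The inclusion of the free group on `X`. -/
def incl (X : Type) : FreeGroup X →* FreeGroup (X ⊕ Fin 3) := FreeGroup.map Sum.inl

/-- The three new generators. -/
def sg (X : Type) (i : Fin 3) : FreeGroup (X ⊕ Fin 3) := FreeGroup.of (Sum.inr i)

/-- The iterated commutators. -/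
def ww {X : Type} (w : FreeGroup X) (i : Fin 3) : FreeGroup (X ⊕ Fin 3) :=
  ⁅⁅incl X w, sg X 0⁆, sg X i⁆

/-- The basis elements of `ℤ²`. -/
def zz : Fin 3 → Z2 := ![1, (Multiplicative.ofAdd 1, 1), (1, Multiplicative.ofAdd 1)]

theorem exists_E {X : Type} (R : Set (FreeGroup X)) (w : FreeGroup X)
    (hw : w ∉ Subgroup.normalClosure R) :
    ∃ (E : Type) (_ : Group E) (μ : FreeGroup (X ⊕ Fin 3) →* E) (ζ : Z2 →* E),
      Function.Injective ζ ∧ (∀ z e, ζ z * e = e * ζ z) ∧ (∀ r ∈ R, μ (incl X r) = 1) ∧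
      ∀ i : Fin 3, i ≠ 0 → μ (ww w i) = ζ (zz i) := by
  classical
  let Q₀ := PresentedGroup R
  let q : FreeGroup X →* Q₀ := PresentedGroup.mk R
  have hq : q w ≠ 1 := by
    intro h
    exact hw (PresentedGroup.mk_eq_one_iff.1 h)
  let g : FZ Q₀ := ⁅(inr (q w) : FZ Q₀), stb Q₀⁆
  have hg1 : g = inl (FreeGroup.of (q w) * (FreeGroup.of 1)⁻¹) := by
    simp only [g, commutatorElement_def]
    rw [inr_mul_stb, stb, map_mul, map_inv]
  have hg : ∀ n : ℤ, g ^ n = 1 → n = 0 := by
    intro n hn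
    rw [hg1, ← map_zpow] at hn
    have h1 : (FreeGroup.of (q w) * (FreeGroup.of 1)⁻¹) ^ n = 1 := inl_injective (hn.trans (map_one _).symm)
    let ρ : FreeGroup Q₀ →* Multiplicative ℤ := FreeGroup.lift fun x : Q₀ =>
      if x = q w then Multiplicative.ofAdd (1 : ℤ) else 1
    have h2 : ρ ((FreeGroup.of (q w) * (FreeGroup.of 1)⁻¹) ^ n) = 1 := by rw [h1, map_one]
    have e1 : ρ (FreeGroup.of (q w)) = Multiplicative.ofAdd 1 := by simp [ρ]
    have e2 : ρ (FreeGroup.of 1) = 1 := by simp [ρ, Ne.symm hq]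
    rw [map_zpow, map_mul, map_inv, e1, e2, inv_one, mul_one] at h2
    have h3 := congrArg Multiplicative.toAdd h2
    rw [toAdd_zpow, toAdd_ofAdd, toAdd_one, smul_eq_mul, mul_one] at h3
    exact h3
  obtain ⟨h, hh⟩ := exists_height hg
  let f : Fin 3 → (FZ Q₀ → Z2) := ![1, fun x => (Multiplicative.ofAdd (- h x), 1),
    fun x => (1, Multiplicative.ofAdd (- h x))]
  let E := (FZ Q₀ → Z2) ⋊[mulAutArrow] FZ Q₀
  let ζ : Z2 →* E := inl.comp (Pi.constMonoidHom (FZ Q₀) Z2)
  let μ : FreeGroup (X ⊕ Fin 3) →* E := FreeGroup.lift fun x => match x with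
    | Sum.inl x => inr (inr (q (FreeGroup.of x)))
    | Sum.inr i => if i = 0 then inr (stb Q₀) else inl (f i)
  have hμ : ∀ v : FreeGroup X, μ (incl X v) = inr (inr (q v)) := by
    intro v
    have : μ.comp (incl X) = (inr.comp inr).comp q := by
      ext x : 1
      simp [μ, incl]
    exact DFunLike.congr_fun this v
  refine ⟨E, inferInstance, μ, ζ, ?_, ?_, ?_, ?_⟩
  · intro a b hab
    have h1 := inl_injective hab
    exact congrFun h1 1
  · intro z e
    have h1 : ∀ x : FZ Q₀, (mulAutArrow x : MulAut (FZ Q₀ → Z2)) (fun _ => z) = fun _ => z := by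
      intro x
      rfl
    refine SemidirectProduct.ext ?_ ?_
    · show (inl (fun _ => z) * e : E).left = (e * inl (fun _ => z) : E).left
      rw [mul_left, mul_left, right_inl, left_inl, map_one, MulAut.one_apply, h1, mul_comm]
    · show (inl (fun _ => z) * e : E).right = (e * inl (fun _ => z) : E).right
      rw [mul_right, mul_right, right_inl, mul_one, one_mul]
  · intro r hr
    rw [hμ]
    have : q r = 1 := PresentedGroup.one_of_mem hr
    rw [this, map_one, map_one]
  · intro i hi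
    have h1 : μ ⁅incl X w, sg X 0⁆ = inr g := by
      rw [map_commutatorElement, hμ]
      simp only [g, map_commutatorElement]
      simp [μ, sg]
    have h2 : μ (sg X i) = inl (f i) := by
      simp [μ, hi, sg]
    rw [ww, map_commutatorElement, h1, h2, commutatorElement_def, ← map_inv inr,
      ← SemidirectProduct.inl_aut, ← map_inv, ← map_mul]
    show inl _ = inl _
    congr 1
    funext x
    have h3 : ((mulAutArrow g : MulAut (FZ Q₀ → Z2)) (f i)) x = f i (g⁻¹ * x) := rfl
    have h4 : h x = h (g⁻¹ * x) + 1 := by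
      rw [← hh]
      simp
    rw [Pi.mul_apply, Pi.inv_apply, h3]
    have h5 : - h (g⁻¹ * x) + h x = 1 := by omega
    fin_cases i
    · exact absurd rfl hi
    · show ((Multiplicative.ofAdd (- h (g⁻¹ * x)), 1) * (Multiplicative.ofAdd (- h x), 1)⁻¹ : Z2) =
        (Multiplicative.ofAdd 1, 1)
      refine Prod.ext ?_ ?_
      · show Multiplicative.ofAdd (- h (g⁻¹ * x)) * (Multiplicative.ofAdd (- h x))⁻¹ = _
        rw [← ofAdd_neg, neg_neg, ← ofAdd_add, h5]
      · simp
    · show ((1, Multiplicative.ofAdd (- h (g⁻¹ * x))) * (1, Multiplicative.ofAdd (- h x))⁻¹ : Z2) =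
        (1, Multiplicative.ofAdd 1)
      refine Prod.ext ?_ ?_
      · simp
      · show Multiplicative.ofAdd (- h (g⁻¹ * x)) * (Multiplicative.ofAdd (- h x))⁻¹ = _
        rw [← ofAdd_neg, neg_neg, ← ofAdd_add, h5]

end Pool.Agent.Helper55
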