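import Mathlib
import Pool.Agent.Helper55.GroupE

/-!
# The Mihailova-type subgroups and their dichotomy
-/

set_option autoImplicit false
set_option linter.unusedSectionVars false

namespace Pool.Agent.Helper55

open SemidirectProduct Monoid
open scoped commutatorElement

/-- The free group on `X` and three extra generators. -/
abbrev FF (X : Type) : Type := FreeGroup (X ⊕ Fin 3)

/-- The ambient group `((F × F) * ℤ) × ℤ²`. -/
abbrev Gam (F : Type) [Group F] : Type := FZ (F × F) × Z2

variable {X : Type}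

/-- Diagonal generators. -/
def gd (y : X ⊕ Fin 3) : Gam (FF X) := (inr (FreeGroup.of y, FreeGroup.of y), 1)

/-- Relator generators. -/
def gr (r : FreeGroup X) : Gam (FF X) := (inr (incl X r, 1), 1)

/-- The two generators depending on the word. -/
def ge (w : FreeGroup X) (i : Fin 3) : Gam (FF X) := (inr (ww w i, 1), zz i)

/-- The free letter. -/
def gt (X : Type) : Gam (FF X) := (stb _, 1)

/-- The generating set. -/
inductive HGen (R : Set (FreeGroup X)) (w : FreeGroup X) : Gam (FF X) → Prop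
  | d (y : X ⊕ Fin 3) : HGen R w (gd y)
  | r (r : FreeGroup X) (hr : r ∈ R) : HGen R w (gr r)
  | e (i : Fin 3) (hi : i ≠ 0) : HGen R w (ge w i)
  | t : HGen R w (gt X)

/-- The subgroup attached to `R` and `w`. -/
def HH (R : Set (FreeGroup X)) (w : FreeGroup X) : Subgroup (Gam (FF X)) :=
  Subgroup.closure {x | HGen R w x}

variable {R : Set (FreeGroup X)} {w : FreeGroup X}

theorem HGen.mem {x : Gam (FF X)} (h : HGen R w x) : x ∈ HH R w := Subgroup.subset_closure h

theorem diag_mem (v : FF X) : ((inr (v, v), 1) : Gam (FF X)) ∈ HH R w := by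
  let f : FF X →* Gam (FF X) :=
    (inr.comp ((MonoidHom.id (FF X)).prod (MonoidHom.id (FF X)))).prod 1
  have : f.range ≤ HH R w := by
    rw [MonoidHom.range_eq_map, ← FreeGroup.closure_range_of, MonoidHom.map_closure,
      Subgroup.closure_le]
    rintro _ ⟨_, ⟨y, rfl⟩, rfl⟩
    exact (HGen.d y).mem
  exact this ⟨v, rfl⟩

/-- The left slice of the subgroup. -/
def NN (R : Set (FreeGroup X)) (w : FreeGroup X) : Subgroup (FF X) :=
  (HH R w).comap ((inr.comp (MonoidHom.inl (FF X) (FF X))).prod 1)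

theorem mem_NN {u : FF X} : u ∈ NN R w ↔ ((inr (u, 1), 1) : Gam (FF X)) ∈ HH R w := Iff.rfl

instance NN_normal : (NN R w).Normal := by
  constructor
  intro u hu v
  rw [mem_NN] at hu ⊢
  have := Subgroup.mul_mem _ (Subgroup.mul_mem _ (diag_mem v) hu) (Subgroup.inv_mem _ (diag_mem v))
  convert this using 1
  simp [← map_mul, ← map_inv]

theorem comm_mem_NN {a b : FF X} (ha : a ∈ NN R w) : ⁅a, b⁆ ∈ NN R w := by
  rw [commutatorElement_def, mul_assoc, mul_assoc]
  refine Subgroup.mul_mem _ ha ?_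
  rw [← mul_assoc]
  exact NN_normal.conj_mem _ (Subgroup.inv_mem _ ha) b

theorem central_mem (hw : w ∈ Subgroup.normalClosure R) (z : Z2) :
    ((1, z) : Gam (FF X)) ∈ HH R w := by
  have h1 : incl X w ∈ NN R w := by
    have h2 : Subgroup.normalClosure R ≤ (NN R w).comap (incl X) := by
      apply Subgroup.normalClosure_le_normal
      intro r hr
      exact (HGen.r r hr).mem
    exact h2 hw
  have h3 : ∀ i : Fin 3, i ≠ 0 → ((1, zz i) : Gam (FF X)) ∈ HH R w := by
    intro i hi
    have h4 : ww w i ∈ NN R w := comm_mem_NN (comm_mem_NN h1)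
    have h5 := Subgroup.mul_mem _ (Subgroup.inv_mem _ (mem_NN.1 h4)) (HGen.e (R := R) (w := w) i hi).mem
    convert h5 using 1
    simp [ge]
  have h6 : ((1, z) : Gam (FF X)) = (1, zz 1) ^ z.1.toAdd * (1, zz 2) ^ z.2.toAdd := by
    obtain ⟨a, b⟩ := z
    refine Prod.ext (by simp) (Prod.ext ?_ ?_)
    · apply Multiplicative.toAdd.injective
      simp [zz]
    · apply Multiplicative.toAdd.injective
      simp [zz]
  rw [h6]
  exact Subgroup.mul_mem _ (Subgroup.zpow_mem _ (h3 1 (by decide)) _)
    (Subgroup.zpow_mem _ (h3 2 (by decide)) _)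

/-- The exponent sum of the stable letter. -/
def texp (P : Type*) [Group P] : FZ P →* Multiplicative ℤ :=
  SemidirectProduct.lift (FreeGroup.lift fun _ => Multiplicative.ofAdd 1) 1 (by
    intro g
    ext x
    simp [ltr])

@[simp]
theorem texp_stb (P : Type*) [Group P] : texp P (stb P) = Multiplicative.ofAdd 1 := by
  simp [texp, stb]

/-- The projection to `(ℤ/2)³`. -/
def toV (F : Type) [Group F] : Gam F →* V8 where
  toFun x := Multiplicative.ofAdd ![((texp _ x.1).toAdd : ZMod 2), (x.2.1.toAdd : ZMod 2),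
    (x.2.2.toAdd : ZMod 2)]
  map_one' := by
    apply Multiplicative.toAdd.injective
    funext i
    fin_cases i <;> simp
  map_mul' x y := by
    apply Multiplicative.toAdd.injective
    funext i
    fin_cases i <;> simp

theorem hasCentral_of_mem (hw : w ∈ Subgroup.normalClosure R) : HasCentralZ2 (HH R w) := by
  refine ⟨((MonoidHom.inr (FZ (FF X × FF X)) Z2)).codRestrict (HH R w) (central_mem hw), ?_, ?_⟩
  · intro a b hab
    have := congrArg (fun x : HH R w => x.1.2) hab
    exact this
  · rintro z ⟨⟨g₁, g₂⟩, hg⟩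
    apply Subtype.ext
    show ((1, z) : Gam (FF X)) * (g₁, g₂) = (g₁, g₂) * (1, z)
    refine Prod.ext ?_ ?_
    · simp
    · exact mul_comm z g₂

theorem toV_surjective (hw : w ∈ Subgroup.normalClosure R) :
    Function.Surjective ((toV (FF X)).comp (HH R w).subtype) := by
  intro v
  refine ⟨⟨gt X, HGen.t.mem⟩ ^ (v.toAdd 0).val *
    ⟨(1, (Multiplicative.ofAdd ((v.toAdd 1).val : ℤ), Multiplicative.ofAdd ((v.toAdd 2).val : ℤ))),
      central_mem hw _⟩, ?_⟩
  apply Multiplicative.toAdd.injective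
  funext i
  fin_cases i <;> simp [toV, gt]

theorem fi_of_mem (hw : w ∈ Subgroup.normalClosure R) : FreelyIndecomposable (HH R w) :=
  (hasCentral_of_mem hw).freelyIndecomposable

theorem not_splits_of_mem (hw : w ∈ Subgroup.normalClosure R) : ¬ SplitsOverZ (HH R w) :=
  (hasCentral_of_mem hw).not_splitsOverZ _ (toV_surjective hw)

/-- The generators of the left factor. -/
inductive LGen (R : Set (FreeGroup X)) (w : FreeGroup X) : FF X × FF X → Prop
  | d (y : X ⊕ Fin 3) : LGen R w (FreeGroup.of y, FreeGroup.of y)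
  | r (r : FreeGroup X) (hr : r ∈ R) : LGen R w (incl X r, 1)
  | e (i : Fin 3) (hi : i ≠ 0) : LGen R w (ww w i, 1)

/-- The left factor. -/
def LL (R : Set (FreeGroup X)) (w : FreeGroup X) : Subgroup (FF X × FF X) :=
  Subgroup.closure {x | LGen R w x}

theorem exists_equiv_of_notMem (hw : w ∉ Subgroup.normalClosure R) :
    Nonempty (HH R w ≃* Coprod (LL R w) (Multiplicative ℤ)) := by
  obtain ⟨E, iE, μ, ζ, hζ, hc, hμr, hμw⟩ := exists_E R w hw
  -- the central character
  let 𝓛 : Subgroup (FF X × FF X) :=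
    { carrier := {p | ∃ z, μ p.1 = ζ z * μ p.2}
      one_mem' := ⟨1, by simp⟩
      mul_mem' := by
        rintro ⟨a, b⟩ ⟨a', b'⟩ ⟨z, hz⟩ ⟨z', hz'⟩
        refine ⟨z * z', ?_⟩
        simp only at hz hz'
        simp only [Prod.mk_mul_mk, map_mul, hz, hz']
        rw [mul_assoc, ← mul_assoc (μ b), ← hc z', mul_assoc, mul_assoc]
      inv_mem' := by
        rintro ⟨a, b⟩ ⟨z, hz⟩
        refine ⟨z⁻¹, ?_⟩
        simp only at hz
        simp only [Prod.inv_mk, map_inv, hz, mul_inv_rev]
        rw [← map_inv ζ, ← hc] }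
  have huniq : ∀ {z z' : Z2} {b : E}, ζ z * b = ζ z' * b → z = z' :=
    fun h => hζ (mul_right_cancel h)
  have hch : ∀ p : 𝓛, ∃ z, μ p.1.1 = ζ z * μ p.1.2 := fun p => p.2
  choose θ₀ hθ₀ using hch
  let θ : 𝓛 →* Z2 :=
    { toFun := θ₀
      map_one' := by
        refine huniq (b := μ (1 : 𝓛).1.2) ?_
        rw [← hθ₀]
        simp
      map_mul' := by
        intro p q
        refine huniq (b := μ (p * q).1.2) ?_
        rw [← hθ₀]
        simp only [Subgroup.coe_mul, Prod.fst_mul, Prod.snd_mul, map_mul]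
        rw [hθ₀ p, hθ₀ q, mul_assoc, ← mul_assoc (μ p.1.2), ← hc (θ₀ q), mul_assoc, mul_assoc] }
  have hle : LL R w ≤ 𝓛 := by
    refine (Subgroup.closure_le _).2 ?_
    rintro x (y | ⟨r, hr⟩ | ⟨i, hi⟩)
    · exact ⟨1, by simp⟩
    · exact ⟨1, by simp [hμr r hr]⟩
    · exact ⟨zz i, by simp [hμw i hi]⟩
  let θL : LL R w →* Z2 := θ.comp (Subgroup.inclusion hle)
  have hθL : ∀ (p : LL R w) (z : Z2), μ p.1.1 = ζ z * μ p.1.2 → θL p = z := by
    intro p z hz
    refine huniq (b := μ p.1.2) ?_
    rw [← hz]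
    exact (hθ₀ (Subgroup.inclusion hle p)).symm
  let Θ : Coprod (LL R w) (Multiplicative ℤ) →* Gam (FF X) :=
    ((fzMap (LL R w).subtype).comp (kap (LL R w))).prod (Coprod.lift θL 1)
  have hΘ : Function.Injective Θ := by
    have h1 : Function.Injective ((fzMap (LL R w).subtype).comp (kap (LL R w))) :=
      (fzMap_injective (Subgroup.subtype_injective _)).comp kap_injective
    intro a b hab
    exact h1 (congrArg Prod.fst hab)
  have hΘl : ∀ p : LL R w, Θ (Coprod.inl p) = (inr p.1, θL p) := by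
    intro p
    refine Prod.ext ?_ ?_
    · simp [Θ]
    · simp [Θ]
  have hΘr : Θ (Coprod.inr (Multiplicative.ofAdd 1)) = gt X := by
    refine Prod.ext ?_ ?_
    · simp [Θ, gt]
    · simp [Θ, gt]
  have hrange : Θ.range = HH R w := by
    apply le_antisymm
    · have h1 : Θ = Coprod.lift (Θ.comp Coprod.inl) (Θ.comp Coprod.inr) := by
        apply Coprod.hom_ext <;> ext <;> simp
      rw [h1, Coprod.range_lift]
      refine sup_le ?_ ?_
      · rintro _ ⟨p, rfl⟩
        rw [MonoidHom.comp_apply, hΘl]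
        obtain ⟨p, hp⟩ := p
        have h2 : ∀ (p : FF X × FF X) (hp : p ∈ LL R w),
            ((inr p, θL ⟨p, hp⟩) : Gam (FF X)) ∈ HH R w := by
          intro p hp
          induction hp using Subgroup.closure_induction with
          | mem x hx =>
            have h3 := Subgroup.subset_closure hx
            rcases hx with y | ⟨r, hr⟩ | ⟨i, hi⟩
            · rw [hθL ⟨_, h3⟩ 1 (by simp)]
              exact (HGen.d y).mem
            · rw [hθL ⟨_, h3⟩ 1 (by simp [hμr r hr])]
              exact (HGen.r r hr).mem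
            · rw [hθL ⟨_, h3⟩ (zz i) (by simp [hμw i hi])]
              exact (HGen.e i hi).mem
          | one =>
            convert Subgroup.one_mem (HH R w) using 1
            refine Prod.ext (by simp) ?_
            exact map_one θL
          | mul x y hx hy ihx ihy =>
            convert Subgroup.mul_mem _ ihx ihy using 1
            refine Prod.ext (by simp) ?_
            exact map_mul θL ⟨x, hx⟩ ⟨y, hy⟩
          | inv x hx ihx =>
            convert Subgroup.inv_mem _ ihx using 1
            refine Prod.ext (by simp) ?_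
            exact map_inv θL ⟨x, hx⟩
        exact h2 p hp
      · rintro _ ⟨n, rfl⟩
        have h2 : n = (Multiplicative.ofAdd 1) ^ n.toAdd := by
          apply Multiplicative.toAdd.injective
          simp
        rw [MonoidHom.comp_apply, h2, map_zpow, map_zpow, hΘr]
        exact Subgroup.zpow_mem _ HGen.t.mem _
    · refine (Subgroup.closure_le _).2 ?_
      rintro x (y | ⟨r, hr⟩ | ⟨i, hi⟩ | _)
      · refine ⟨Coprod.inl ⟨_, Subgroup.subset_closure (LGen.d y)⟩, ?_⟩
        rw [hΘl, hθL _ 1 (by simp)]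
        rfl
      · refine ⟨Coprod.inl ⟨_, Subgroup.subset_closure (LGen.r r hr)⟩, ?_⟩
        rw [hΘl, hθL _ 1 (by simp [hμr r hr])]
        rfl
      · refine ⟨Coprod.inl ⟨_, Subgroup.subset_closure (LGen.e i hi)⟩, ?_⟩
        rw [hΘl, hθL _ (zz i) (by simp [hμw i hi])]
        rfl
      · exact ⟨_, hΘr⟩
  exact ⟨((MonoidHom.ofInjective hΘ).trans (MulEquiv.subgroupCongr hrange)).symm⟩

theorem LL_infinite (R : Set (FreeGroup X)) (w : FreeGroup X) :
    ∃ l : LL R w, ∀ n : ℤ, l ^ n = 1 → n = 0 := by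
  refine ⟨⟨_, Subgroup.subset_closure (LGen.d (Sum.inr 0))⟩, fun n hn => ?_⟩
  let ρ : LL R w →* Multiplicative ℤ :=
    (FreeGroup.lift fun _ : X ⊕ Fin 3 => Multiplicative.ofAdd (1 : ℤ)).comp
      ((MonoidHom.fst _ _).comp (LL R w).subtype)
  have h1 := congrArg ρ hn
  rw [map_zpow, map_one] at h1
  have h2 : ρ ⟨_, Subgroup.subset_closure (LGen.d (Sum.inr 0))⟩ = Multiplicative.ofAdd 1 := by
    simp [ρ]
  rw [h2] at h1
  have h3 := congrArg Multiplicative.toAdd h1
  simpa using h3

theorem splits_of_notMem (hw : w ∉ Subgroup.normalClosure R) : SplitsOverZ (HH R w) := by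
  obtain ⟨e⟩ := exists_equiv_of_notMem hw
  obtain ⟨l, hl⟩ := LL_infinite R w
  exact SplitsOverZ.of_equiv e.symm (Or.inr (splits_coprod hl))

theorem not_fi_of_notMem (hw : w ∉ Subgroup.normalClosure R) :
    ¬ FreelyIndecomposable (HH R w) := by
  obtain ⟨e⟩ := exists_equiv_of_notMem hw
  obtain ⟨l, hl⟩ := LL_infinite R w
  intro h
  refine not_freelyIndecomposable_coprod ?_ (h.of_equiv e)
  intro hs
  have := hl 1 (hs.elim _ _)
  exact one_ne_zero this

end Pool.Agent.Helper55
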