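import Mathlib
import Pool.Agent.Helper55.HSub

/-!
# Homomorphisms out of the ambient group
-/

set_option autoImplicit false
set_option linter.unusedSectionVars false

namespace Pool.Agent.Helper55

open SemidirectProduct Monoid

section FZLift

variable {P K : Type*} [Group P] [Group K]

/-- The universal property of `FZ P = P * ℤ`. -/
def fzLift (f : P →* K) (k : K) : FZ P →* K :=
  SemidirectProduct.lift (FreeGroup.lift fun p => f p * k * (f p)⁻¹) f (by
    intro g
    ext x
    simp [ltr, mul_assoc])

@[simp]
theorem fzLift_inr (f : P →* K) (k : K) (p : P) : fzLift f k (inr p) = f p := by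
  simp [fzLift]

@[simp]
theorem fzLift_stb (f : P →* K) (k : K) : fzLift f k (stb P) = k := by
  simp [fzLift, stb]

theorem fzLift_inl_of (f : P →* K) (k : K) (p : P) :
    fzLift f k (inl (FreeGroup.of p)) = f p * k * (f p)⁻¹ := by
  simp [fzLift]

theorem fzLift_mem {f : P →* K} {k : K} (H : Subgroup K) (hf : ∀ p, f p ∈ H) (hk : k ∈ H)
    (x : FZ P) : fzLift f k x ∈ H := by
  have h1 : ∀ v : FreeGroup P, fzLift f k (inl v) ∈ H := by
    intro v
    induction v using FreeGroup.induction_on with
    | C1 => rw [map_one, map_one]; exact H.one_mem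
    | of p =>
      rw [fzLift_inl_of]
      exact H.mul_mem (H.mul_mem (hf p) hk) (H.inv_mem (hf p))
    | inv_of p ih => rw [map_inv, map_inv]; exact H.inv_mem ih
    | mul x y hx hy => rw [map_mul, map_mul]; exact H.mul_mem hx hy
  rw [← inl_left_mul_inr_right x, map_mul, fzLift_inr]
  exact H.mul_mem (h1 _) (hf _)

theorem fz_hom_ext {f g : FZ P →* K} (h₁ : ∀ p, f (inr p) = g (inr p)) (h₂ : f (stb P) = g (stb P)) :
    f = g := by
  apply SemidirectProduct.hom_ext
  · ext p
    simp only [MonoidHom.comp_apply]
    rw [← inr_mul_stb]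
    simp [h₁, h₂]
  · exact MonoidHom.ext h₁

/-- The homomorphism from the free group of rank two. -/
def f2Lift (a b : K) : FreeGroup (Fin 2) →* K := FreeGroup.lift ![a, b]

@[simp]
theorem f2Lift_zero (a b : K) : f2Lift a b (FreeGroup.of 0) = a := by simp [f2Lift]

@[simp]
theorem f2Lift_one (a b : K) : f2Lift a b (FreeGroup.of 1) = b := by simp [f2Lift]

theorem f2Lift_mem {a b : K} (H : Subgroup K) (ha : a ∈ H) (hb : b ∈ H)
    (x : FreeGroup (Fin 2)) : f2Lift a b x ∈ H := by
  induction x using FreeGroup.induction_on with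
  | C1 => rw [map_one]; exact H.one_mem
  | of i =>
    fin_cases i
    · simpa using ha
    · simpa using hb
  | inv_of p ih => rw [map_inv]; exact H.inv_mem ih
  | mul x y hx hy => rw [map_mul]; exact H.mul_mem hx hy

theorem f2_hom_ext {f g : FreeGroup (Fin 2) →* K} (h₀ : f (FreeGroup.of 0) = g (FreeGroup.of 0))
    (h₁ : f (FreeGroup.of 1) = g (FreeGroup.of 1)) : f = g := by
  ext i
  fin_cases i
  · exact h₀
  · exact h₁

theorem f2Lift_commute {a b c : K} (ha : Commute a c) (hb : Commute b c)
    (x : FreeGroup (Fin 2)) : Commute (f2Lift a b x) c := by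
  have := f2Lift_mem (a := a) (b := b) (Subgroup.centralizer {c})
    (Subgroup.mem_centralizer_singleton_iff.2 ha) (Subgroup.mem_centralizer_singleton_iff.2 hb) x
  exact Subgroup.mem_centralizer_singleton_iff.1 this

theorem f2Lift_commute2 {a b c d : K} (hac : Commute a c) (hbc : Commute b c)
    (had : Commute a d) (hbd : Commute b d) (x y : FreeGroup (Fin 2)) :
    Commute (f2Lift a b x) (f2Lift c d y) :=
  (f2Lift_commute (f2Lift_commute hac hbc x).symm (f2Lift_commute had hbd x).symm y).symm

theorem fzLift_commute {f : P →* K} {k c : K} (hf : ∀ p, Commute (f p) c) (hk : Commute k c)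
    (x : FZ P) : Commute (fzLift f k x) c := by
  have := fzLift_mem (f := f) (k := k) (Subgroup.centralizer {c})
    (fun p => Subgroup.mem_centralizer_singleton_iff.2 (hf p))
    (Subgroup.mem_centralizer_singleton_iff.2 hk) x
  exact Subgroup.mem_centralizer_singleton_iff.1 this

end FZLift

section PairLift

variable {K : Type*} [Group K]

/-- The data defining a homomorphism from `((F₂ × F₂) * ℤ) × ℤ²`. -/
structure GamData (K : Type*) [Group K] where
  /-- first generator of the first free group -/
  a₁ : K
  /-- second generator of the first free group -/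
  b₁ : K
  /-- first generator of the second free group -/
  a₂ : K
  /-- second generator of the second free group -/
  b₂ : K
  /-- the free letter -/
  t : K
  /-- the first central element -/
  z₁ : K
  /-- the second central element -/
  z₂ : K
  aa : Commute a₁ a₂
  ab : Commute a₁ b₂
  ba : Commute b₁ a₂
  bb : Commute b₁ b₂
  za₁ : Commute a₁ z₁
  zb₁ : Commute b₁ z₁
  za₂ : Commute a₂ z₁
  zb₂ : Commute b₂ z₁
  zt : Commute t z₁
  wa₁ : Commute a₁ z₂
  wb₁ : Commute b₁ z₂
  wa₂ : Commute a₂ z₂
  wb₂ : Commute b₂ z₂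
  wt : Commute t z₂
  zz : Commute z₁ z₂

/-- The free group of rank two. -/
abbrev F2 : Type := FreeGroup (Fin 2)

namespace GamData

variable (D : GamData K)

/-- The homomorphism on the product of free groups. -/
def pHom : F2 × F2 →* K :=
  MonoidHom.noncommCoprod (f2Lift D.a₁ D.b₁) (f2Lift D.a₂ D.b₂)
    (f2Lift_commute2 D.aa D.ba D.ab D.bb)

theorem pHom_apply (x : F2 × F2) : D.pHom x = f2Lift D.a₁ D.b₁ x.1 * f2Lift D.a₂ D.b₂ x.2 := rfl

theorem pHom_commute {c : K} (h₁ : Commute D.a₁ c) (h₂ : Commute D.b₁ c) (h₃ : Commute D.a₂ c)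
    (h₄ : Commute D.b₂ c) (x : F2 × F2) : Commute (D.pHom x) c := by
  rw [pHom_apply]
  exact (f2Lift_commute h₁ h₂ x.1).mul_left (f2Lift_commute h₃ h₄ x.2)

/-- The homomorphism on the free product. -/
def xHom : FZ (F2 × F2) →* K := fzLift D.pHom D.t

/-- The homomorphism on the central part. -/
def zHom : Z2 →* K :=
  MonoidHom.noncommCoprod (zpowersHom K D.z₁) (zpowersHom K D.z₂) (by
    intro m n
    simp only [zpowersHom_apply]
    exact (D.zz.zpow_left _).zpow_right _)

theorem zHom_apply (x : Z2) : D.zHom x = D.z₁ ^ x.1.toAdd * D.z₂ ^ x.2.toAdd := rfl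

/-- The homomorphism attached to the data. -/
def hom : Gam F2 →* K :=
  MonoidHom.noncommCoprod D.xHom D.zHom (by
    intro x z
    rw [zHom_apply]
    refine Commute.mul_right ?_ ?_
    · refine Commute.zpow_right ?_ _
      exact fzLift_commute (D.pHom_commute D.za₁ D.zb₁ D.za₂ D.zb₂) D.zt x
    · refine Commute.zpow_right ?_ _
      exact fzLift_commute (D.pHom_commute D.wa₁ D.wb₁ D.wa₂ D.wb₂) D.wt x)

theorem hom_apply (x : Gam F2) : D.hom x = D.xHom x.1 * D.zHom x.2 := rfl

end GamData

end PairLift

section FZCenter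

/-- The free product `M * ℤ` has trivial centre. -/
theorem fz_center {M : Type} [Group M] (hM : ¬ Subsingleton M) {y : FZ M}
    (h₁ : ∀ m, y * inr m = inr m * y) (h₂ : y * stb M = stb M * y) : y = 1 := by
  have hkl : ∀ x, kap M (lam M x) = x := by
    intro x
    have : (kap M).comp (lam M) = MonoidHom.id _ := by
      apply fz_hom_ext
      · intro p
        simp [lam]
      · simp [lam, stb]
    exact DFunLike.congr_fun this x
  have hc : ∀ g, y * g = g * y := by
    intro g
    have h3 := fzLift_mem (f := (inr : M →* FZ M)) (k := stb M) (Subgroup.centralizer {y})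
      (fun p => Subgroup.mem_centralizer_singleton_iff.2 (h₁ p).symm)
      (Subgroup.mem_centralizer_singleton_iff.2 h₂.symm) g
    have h4 : fzLift (inr : M →* FZ M) (stb M) = MonoidHom.id _ := by
      apply fz_hom_ext <;> simp
    rw [h4] at h3
    exact (Subgroup.mem_centralizer_singleton_iff.1 h3).symm
  have h5 : lam M y = 1 := by
    refine coprod_center hM ?_ ?_
    · rw [not_subsingleton_iff_nontrivial]
      infer_instance
    · intro g
      rw [← lam_kap g, ← map_mul, hc, map_mul]
  rw [← hkl y, h5, map_one]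

end FZCenter

end Pool.Agent.Helper55
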