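import Mathlib
import Pool.Agent.Helper55.GamLift

/-!
# A free action on a vector of `ℤ²`
-/

set_option autoImplicit false
set_option linter.unusedSectionVars false

namespace Pool.Agent.Helper55

/-- The shear `(x,y) ↦ (x + y, y)`. -/
def shA : MulAut Z2 where
  toFun p := (p.1 * p.2, p.2)
  invFun p := (p.1 * p.2⁻¹, p.2)
  left_inv p := by simp
  right_inv p := by simp
  map_mul' p q := by
    refine Prod.ext ?_ rfl
    simp only [Prod.fst_mul, Prod.snd_mul]
    exact mul_mul_mul_comm _ _ _ _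

/-- The shear `(x,y) ↦ (x, y - x)`. -/
def shB : MulAut Z2 where
  toFun p := (p.1, p.2 * p.1⁻¹)
  invFun p := (p.1, p.2 * p.1)
  left_inv p := by simp
  right_inv p := by simp
  map_mul' p q := by
    refine Prod.ext rfl ?_
    simp only [Prod.fst_mul, Prod.snd_mul, mul_inv]
    exact mul_mul_mul_comm _ _ _ _

theorem shA_apply (p : Z2) : shA p = (p.1 * p.2, p.2) := rfl
theorem shB_apply (p : Z2) : shB p = (p.1, p.2 * p.1⁻¹) := rfl
theorem shA_inv_apply (p : Z2) : shA⁻¹ p = (p.1 * p.2⁻¹, p.2) := rfl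
theorem shB_inv_apply (p : Z2) : shB⁻¹ p = (p.1, p.2 * p.1) := rfl

/-- The base vector `(1,-1)`. -/
def v0 : Z2 := (Multiplicative.ofAdd 1, Multiplicative.ofAdd (-1))

/-- The action of the free group of rank two on `ℤ²`. -/
def act2 : F2 →* MulAut Z2 := f2Lift (shA ^ 3) (shB ^ 3)

/-- The letters acting. -/
def letAct (s : Fin 2 × Bool) : MulAut Z2 :=
  if s.1 = 0 then (if s.2 then shA ^ 3 else (shA ^ 3)⁻¹) else (if s.2 then shB ^ 3 else (shB ^ 3)⁻¹)

/-- The sign of a letter. -/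
def sgn (b : Bool) : ℤ := if b then 1 else -1

/-- The ping-pong regions. -/
def Reg (s : Fin 2 × Bool) (v : Z2) : Prop :=
  if s.1 = 0 then v.2.toAdd ^ 2 < v.1.toAdd ^ 2 ∧ 0 < sgn s.2 * (v.1.toAdd * v.2.toAdd)
  else v.1.toAdd ^ 2 < v.2.toAdd ^ 2 ∧ 0 < - (sgn s.2 * (v.1.toAdd * v.2.toAdd))

theorem shA_cube (v : Z2) : (shA ^ 3) v = (v.1 * v.2 ^ 3, v.2) := by
  have : (shA ^ 3) v = shA (shA (shA v)) := rfl
  rw [this]
  simp only [shA_apply]
  refine Prod.ext ?_ rfl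
  simp only [pow_succ, pow_zero, one_mul, mul_assoc]

theorem shA_cube_inv (v : Z2) : (shA ^ 3)⁻¹ v = (v.1 * (v.2 ^ 3)⁻¹, v.2) := by
  have : (shA ^ 3)⁻¹ v = shA⁻¹ (shA⁻¹ (shA⁻¹ v)) := rfl
  rw [this]
  simp only [shA_inv_apply]
  refine Prod.ext ?_ rfl
  simp only [pow_succ, pow_zero, one_mul, mul_assoc, mul_inv_rev]

theorem shB_cube (v : Z2) : (shB ^ 3) v = (v.1, v.2 * (v.1 ^ 3)⁻¹) := by
  have : (shB ^ 3) v = shB (shB (shB v)) := rfl
  rw [this]
  simp only [shB_apply]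
  refine Prod.ext rfl ?_
  simp only [pow_succ, pow_zero, one_mul, mul_assoc, mul_inv_rev]

theorem shB_cube_inv (v : Z2) : (shB ^ 3)⁻¹ v = (v.1, v.2 * v.1 ^ 3) := by
  have : (shB ^ 3)⁻¹ v = shB⁻¹ (shB⁻¹ (shB⁻¹ v)) := rfl
  rw [this]
  simp only [shB_inv_apply]
  refine Prod.ext rfl ?_
  simp only [pow_succ, pow_zero, one_mul, mul_assoc]

theorem letAct_zero (b : Bool) (v : Z2) :
    (letAct (0, b) v).1.toAdd = v.1.toAdd + 3 * sgn b * v.2.toAdd ∧
    (letAct (0, b) v).2.toAdd = v.2.toAdd := by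
  cases b
  · have : letAct (0, false) v = (shA ^ 3)⁻¹ v := rfl
    rw [this, shA_cube_inv]
    refine ⟨?_, rfl⟩
    simp only [toAdd_mul, toAdd_inv, toAdd_pow, sgn]
    simp
  · have : letAct (0, true) v = (shA ^ 3) v := rfl
    rw [this, shA_cube]
    refine ⟨?_, rfl⟩
    simp only [toAdd_mul, toAdd_pow, sgn]
    simp

theorem letAct_one (b : Bool) (v : Z2) :
    (letAct (1, b) v).2.toAdd = v.2.toAdd - 3 * sgn b * v.1.toAdd ∧
    (letAct (1, b) v).1.toAdd = v.1.toAdd := by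
  cases b
  · have : letAct (1, false) v = (shB ^ 3)⁻¹ v := rfl
    rw [this, shB_cube_inv]
    refine ⟨?_, rfl⟩
    simp only [toAdd_mul, toAdd_pow, sgn]
    simp
  · have : letAct (1, true) v = (shB ^ 3) v := rfl
    rw [this, shB_cube]
    refine ⟨?_, rfl⟩
    simp only [toAdd_mul, toAdd_inv, toAdd_pow, sgn]
    simp
    ring

theorem sgn_sq (b : Bool) : sgn b * sgn b = 1 := by cases b <;> rfl

theorem reg_step_aux {x y e : ℤ} (he : e * e = 1)
    (h : (x ^ 2 ≤ y ^ 2 ∧ y ≠ 0) ∨ 0 < e * (x * y)) :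
    y ^ 2 < (x + 3 * e * y) ^ 2 ∧ 0 < e * ((x + 3 * e * y) * y) := by
  have e1 : (x + 3 * e * y) ^ 2 = x ^ 2 + 6 * (e * (x * y)) + 9 * (e * e) * y ^ 2 := by ring
  have e2 : e * ((x + 3 * e * y) * y) = e * (x * y) + 3 * (e * e) * y ^ 2 := by ring
  rw [e1, e2, he]
  rcases h with ⟨h1, h2⟩ | h
  · have hy : 0 < y ^ 2 := by positivity
    have h3 : 0 ≤ (x + e * y) ^ 2 := sq_nonneg _
    have h4 : (x + e * y) ^ 2 = x ^ 2 + 2 * (e * (x * y)) + (e * e) * y ^ 2 := by ring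
    rw [h4, he] at h3
    constructor
    · nlinarith
    · nlinarith
  · have hx : 0 ≤ x ^ 2 := sq_nonneg _
    have hy : 0 ≤ y ^ 2 := sq_nonneg _
    constructor
    · nlinarith
    · nlinarith

theorem reg_zero {b : Bool} {v : Z2}
    (h : (v.1.toAdd ^ 2 ≤ v.2.toAdd ^ 2 ∧ v.2.toAdd ≠ 0) ∨ 0 < sgn b * (v.1.toAdd * v.2.toAdd)) :
    Reg (0, b) (letAct (0, b) v) := by
  have h2 := letAct_zero b v
  have h3 : Reg (0, b) (letAct (0, b) v) ↔ ((letAct (0, b) v).2.toAdd ^ 2 <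
      (letAct (0, b) v).1.toAdd ^ 2 ∧
      0 < sgn b * ((letAct (0, b) v).1.toAdd * (letAct (0, b) v).2.toAdd)) := Iff.rfl
  rw [h3, h2.1, h2.2]
  exact reg_step_aux (sgn_sq b) h

theorem reg_one {b : Bool} {v : Z2}
    (h : (v.2.toAdd ^ 2 ≤ v.1.toAdd ^ 2 ∧ v.1.toAdd ≠ 0) ∨
      0 < - (sgn b * (v.1.toAdd * v.2.toAdd))) :
    Reg (1, b) (letAct (1, b) v) := by
  have h2 := letAct_one b v
  have h3 : Reg (1, b) (letAct (1, b) v) ↔ ((letAct (1, b) v).1.toAdd ^ 2 <
      (letAct (1, b) v).2.toAdd ^ 2 ∧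
      0 < - (sgn b * ((letAct (1, b) v).1.toAdd * (letAct (1, b) v).2.toAdd))) := Iff.rfl
  rw [h3, h2.1, h2.2]
  have h4 := reg_step_aux (x := (v.2).toAdd) (y := (v.1).toAdd) (e := - sgn b)
      (by rw [neg_mul_neg, sgn_sq]) (h.imp id fun h => by linarith)
  constructor
  · have h1 := h4.1
    convert h1 using 2
    ring
  · have h1 := h4.2
    convert h1 using 1
    ring

/-- Points on which every letter plays ping-pong: the base vector. -/
theorem reg_base (s : Fin 2 × Bool) : Reg s (letAct s v0) := by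
  obtain ⟨i, b⟩ := s
  have hi : i = 0 ∨ i = 1 := by omega
  rcases hi with rfl | rfl
  · exact reg_zero (Or.inl ⟨by simp [v0], by simp [v0]⟩)
  · exact reg_one (Or.inl ⟨by simp [v0], by simp [v0]⟩)

theorem reg_step {s s' : Fin 2 × Bool} (h : s.1 = s'.1 → s.2 = s'.2) {v : Z2} (hv : Reg s' v) :
    Reg s (letAct s v) := by
  obtain ⟨i, b⟩ := s
  obtain ⟨i', b'⟩ := s'
  simp only at h
  have hi : i = 0 ∨ i = 1 := by omega
  have hi' : i' = 0 ∨ i' = 1 := by omega
  rcases hi with rfl | rfl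
  · apply reg_zero
    rcases hi' with rfl | rfl
    · right
      rw [h rfl]
      exact hv.2
    · left
      have hv' : v.1.toAdd ^ 2 < v.2.toAdd ^ 2 ∧ 0 < - (sgn b' * (v.1.toAdd * v.2.toAdd)) := hv
      refine ⟨hv'.1.le, ?_⟩
      intro h0
      rw [h0] at hv'
      simp at hv'
  · apply reg_one
    rcases hi' with rfl | rfl
    · left
      have hv' : v.2.toAdd ^ 2 < v.1.toAdd ^ 2 ∧ 0 < sgn b' * (v.1.toAdd * v.2.toAdd) := hv
      refine ⟨hv'.1.le, ?_⟩
      intro h0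
      rw [h0] at hv'
      simp at hv'
    · right
      have hv' : v.1.toAdd ^ 2 < v.2.toAdd ^ 2 ∧ 0 < - (sgn b' * (v.1.toAdd * v.2.toAdd)) := hv
      rw [h rfl]
      exact hv'.2

theorem act2_mk_cons (s : Fin 2 × Bool) (L : List (Fin 2 × Bool)) (v : Z2) :
    act2 (FreeGroup.mk (s :: L)) v = letAct s (act2 (FreeGroup.mk L) v) := by
  have h1 : FreeGroup.mk (s :: L) = FreeGroup.mk [s] * FreeGroup.mk L := by
    rw [FreeGroup.mul_mk]; rfl
  have h2 : act2 (FreeGroup.mk [s]) = letAct s := by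
    obtain ⟨i, b⟩ := s
    fin_cases i <;> cases b <;> simp [act2, f2Lift, letAct]
  rw [h1, map_mul, h2]
  rfl

theorem reg_word : ∀ L : List (Fin 2 × Bool),
    L.IsChain (fun a b => a.1 = b.1 → a.2 = b.2) → ∀ s ∈ L.head?, Reg s (act2 (FreeGroup.mk L) v0)
  | [], _, s, hs => by simp at hs
  | [s], _, s', hs' => by
    simp only [List.head?_cons, Option.mem_some_iff] at hs'
    subst hs'
    rw [act2_mk_cons]
    have : act2 (FreeGroup.mk []) v0 = v0 := by
      have : (FreeGroup.mk [] : F2) = 1 := rfl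
      rw [this, map_one]; rfl
    rw [this]
    exact reg_base s
  | s :: s₁ :: L, h, s', hs' => by
    simp only [List.head?_cons, Option.mem_some_iff] at hs'
    subst hs'
    rw [act2_mk_cons]
    rw [List.isChain_cons_cons] at h
    exact reg_step h.1 (reg_word (s₁ :: L) h.2 s₁ (by simp))

theorem act2_stab {w : F2} (h : act2 w v0 = v0) : w = 1 := by
  by_contra hw
  have h1 : w.toWord ≠ [] := by
    intro h2
    exact hw (FreeGroup.toWord_eq_nil_iff.1 h2)
  obtain ⟨s, L, hL⟩ := List.exists_cons_of_ne_nil h1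
  have h2 := reg_word w.toWord ?_ s (by simp [hL])
  · rw [FreeGroup.mk_toWord, h] at h2
    obtain ⟨i, b⟩ := s
    have hi : i = 0 ∨ i = 1 := by omega
    rcases hi with rfl | rfl
    · have := h2.1
      simp [v0] at this
    · have := h2.1
      simp [v0] at this
  · exact FreeGroup.isReduced_toWord

theorem act2_injective : Function.Injective fun w => act2 w v0 := by
  intro w w' h
  simp only at h
  have h1 : act2 (w'⁻¹ * w) v0 = v0 := by
    rw [map_mul, MulAut.mul_apply, h, ← MulAut.mul_apply, ← map_mul]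
    simp
  have h2 := act2_stab h1
  exact (inv_mul_eq_one.1 h2).symm

end Pool.Agent.Helper55
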