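import Mathlib

/-!
# Automorphisms of the free group of rank eight fixing the boundary word
-/

set_option autoImplicit false
set_option linter.unusedSectionVars false

namespace Pool.Agent.Helper55

open scoped commutatorElement

/-- The free group on `a i = (i, false)`, `b i = (i, true)`, `i < 4`. -/
abbrev F8 : Type := FreeGroup (Fin 4 × Bool)

/-- The generator `a i`. -/
def ga (i : Fin 4) : F8 := FreeGroup.of (i, false)

/-- The generator `b i`. -/
def gb (i : Fin 4) : F8 := FreeGroup.of (i, true)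

/-- The boundary word of the handle `i`. -/
def gc (i : Fin 4) : F8 := ⁅ga i, gb i⁆

/-- The boundary word. -/
def bd : F8 := gc 0 * gc 1 * gc 2 * gc 3

theorem F8.hom_ext {G : Type*} [Group G] {f g : F8 →* G} (h₁ : ∀ i, f (ga i) = g (ga i))
    (h₂ : ∀ i, f (gb i) = g (gb i)) : f = g := by
  ext ⟨i, b⟩
  cases b
  · exact h₁ i
  · exact h₂ i

/-- The homomorphism with prescribed values on the generators. -/
def hlift {G : Type*} [Group G] (A B : Fin 4 → G) : F8 →* G :=
  FreeGroup.lift fun p => if p.2 then B p.1 else A p.1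

@[simp]
theorem hlift_ga {G : Type*} [Group G] (A B : Fin 4 → G) (i : Fin 4) : hlift A B (ga i) = A i := by
  simp [hlift, ga]

@[simp]
theorem hlift_gb {G : Type*} [Group G] (A B : Fin 4 → G) (i : Fin 4) : hlift A B (gb i) = B i := by
  simp [hlift, gb]

theorem hlift_gc {G : Type*} [Group G] (A B : Fin 4 → G) (i : Fin 4) :
    hlift A B (gc i) = ⁅A i, B i⁆ := by
  simp [gc, map_commutatorElement]

/-- Automorphisms from a pair of mutually inverse endomorphisms. -/
def mkAut (f g : F8 →* F8) (h₁ : ∀ i, g (f (ga i)) = ga i) (h₂ : ∀ i, g (f (gb i)) = gb i)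
    (h₃ : ∀ i, f (g (ga i)) = ga i) (h₄ : ∀ i, f (g (gb i)) = gb i) : MulAut F8 :=
  MonoidHom.toMulEquiv f g (F8.hom_ext h₁ h₂) (F8.hom_ext h₃ h₄)

/-- The twist `b i ↦ b i * a i`. -/
def tA (i : Fin 4) : MulAut F8 :=
  mkAut (hlift ga fun j => if j = i then gb j * ga j else gb j)
    (hlift ga fun j => if j = i then gb j * (ga j)⁻¹ else gb j)
    (fun j => by simp)
    (fun j => by by_cases h : j = i <;> simp [h])
    (fun j => by simp)
    (fun j => by by_cases h : j = i <;> simp [h])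

/-- The twist `a i ↦ a i * (b i)⁻¹`. -/
def tB (i : Fin 4) : MulAut F8 :=
  mkAut (hlift (fun j => if j = i then ga j * (gb j)⁻¹ else ga j) gb)
    (hlift (fun j => if j = i then ga j * gb j else ga j) gb)
    (fun j => by by_cases h : j = i <;> simp [h])
    (fun j => by simp)
    (fun j => by by_cases h : j = i <;> simp [h])
    (fun j => by simp)

theorem mkAut_apply (f g : F8 →* F8) (h₁ h₂ h₃ h₄) (x : F8) : mkAut f g h₁ h₂ h₃ h₄ x = f x := rfl

@[simp]
theorem tA_ga (i j : Fin 4) : tA i (ga j) = ga j := by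
  simp [tA, mkAut_apply]

theorem tA_gb (i j : Fin 4) : tA i (gb j) = if j = i then gb j * ga j else gb j := by
  simp [tA, mkAut_apply]

@[simp]
theorem tB_gb (i j : Fin 4) : tB i (gb j) = gb j := by
  simp [tB, mkAut_apply]

theorem tB_ga (i j : Fin 4) : tB i (ga j) = if j = i then ga j * (gb j)⁻¹ else ga j := by
  simp [tB, mkAut_apply]

@[simp]
theorem tA_gc (i j : Fin 4) : tA i (gc j) = gc j := by
  rw [gc, map_commutatorElement, tA_ga, tA_gb]
  split_ifs with h
  · simp [commutatorElement_def, mul_assoc]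
  · rfl

@[simp]
theorem tB_gc (i j : Fin 4) : tB i (gc j) = gc j := by
  rw [gc, map_commutatorElement, tB_gb, tB_ga]
  split_ifs with h
  · simp [commutatorElement_def, mul_assoc]
  · rfl

/-- The product of the boundary words between handle `0` and handle `i`. -/
def uu (i : Fin 4) : F8 := ![1, 1, gc 1, gc 1 * gc 2] i

/-- The boundary word of the handle `0`, moved next to the handle `i`. -/
def xx' (i : Fin 4) : F8 := (uu i)⁻¹ * gc 0 * uu i

/-- The pushing loop. -/
def dd (i : Fin 4) : F8 := gc 0 * uu i * ga i * (uu i)⁻¹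

/-- The push of the handle `0` around the handle `i`. -/
def eh (i : Fin 4) : F8 →* F8 :=
  hlift (fun j => if j = 0 then dd i * ga j * (dd i)⁻¹ else
      if j = i then xx' i * ga j * (xx' i)⁻¹ else ga j)
    (fun j => if j = 0 then dd i * gb j * (dd i)⁻¹ else
      if j = i then gb j * (xx' i)⁻¹ else gb j)

/-- The inverse push. -/
def dh (i : Fin 4) : F8 →* F8 :=
  hlift (fun j => if j = 0 then (dd i)⁻¹ * ga j * dd i else
      if j = i then ((ga i)⁻¹ * (xx' i)⁻¹ * ga i) * xx' i * ga i else ga j)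
    (fun j => if j = 0 then (dd i)⁻¹ * gb j * dd i else
      if j = i then gb i * ((ga i)⁻¹ * xx' i * ga i) else gb j)

theorem eh_gc_other {i j : Fin 4} (h0 : j ≠ 0) (hi : j ≠ i) : eh i (gc j) = gc j := by
  simp [eh, hlift_gc, h0, hi]
  rfl

theorem dh_gc_other {i j : Fin 4} (h0 : j ≠ 0) (hi : j ≠ i) : dh i (gc j) = gc j := by
  simp [dh, hlift_gc, h0, hi]
  rfl

theorem eh_uu {i : Fin 4} : eh i (uu i) = uu i := by
  fin_cases i
  · simp [uu]
  · simp [uu]
  · simp [uu, eh_gc_other]
  · simp [uu, eh_gc_other]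

theorem dh_uu {i : Fin 4} : dh i (uu i) = uu i := by
  fin_cases i
  · simp [uu]
  · simp [uu]
  · simp [uu, dh_gc_other]
  · simp [uu, dh_gc_other]

theorem eh_gc_zero (i : Fin 4) : eh i (gc 0) = dd i * gc 0 * (dd i)⁻¹ := by
  simp [eh, gc, commutatorElement_def, mul_assoc]

theorem dh_gc_zero (i : Fin 4) : dh i (gc 0) = (dd i)⁻¹ * gc 0 * dd i := by
  simp [dh, gc, commutatorElement_def, mul_assoc]

theorem dd_eq (i : Fin 4) : dd i = uu i * (xx' i * ga i) * (uu i)⁻¹ := by
  simp [dd, xx', mul_assoc]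

theorem gc_zero_eq (i : Fin 4) : gc 0 = uu i * xx' i * (uu i)⁻¹ := by
  simp [xx', mul_assoc]

theorem eh_xx (i : Fin 4) : eh i (xx' i) = (xx' i * ga i) * xx' i * (xx' i * ga i)⁻¹ := by
  rw [xx', map_mul, map_mul, map_inv, eh_uu, eh_gc_zero, dd_eq, gc_zero_eq i]
  simp [xx', mul_assoc]

theorem dh_xx (i : Fin 4) : dh i (xx' i) = (ga i)⁻¹ * xx' i * ga i := by
  rw [xx', map_mul, map_mul, map_inv, dh_uu, dh_gc_zero, dd_eq, gc_zero_eq i]
  simp [xx', mul_assoc]

theorem eh_ga {i : Fin 4} (h : i ≠ 0) : eh i (ga i) = xx' i * ga i * (xx' i)⁻¹ := by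
  simp [eh, h]

theorem eh_gb {i : Fin 4} (h : i ≠ 0) : eh i (gb i) = gb i * (xx' i)⁻¹ := by
  simp [eh, h]

theorem dh_ga {i : Fin 4} (h : i ≠ 0) :
    dh i (ga i) = ((ga i)⁻¹ * (xx' i)⁻¹ * ga i) * xx' i * ga i := by
  simp [dh, h]

theorem dh_gb {i : Fin 4} (h : i ≠ 0) : dh i (gb i) = gb i * ((ga i)⁻¹ * xx' i * ga i) := by
  simp [dh, h]

theorem eh_dd {i : Fin 4} (h : i ≠ 0) : eh i (dd i) = dd i := by
  rw [dd_eq, map_mul, map_mul, map_mul, map_inv, eh_uu, eh_xx, eh_ga h]
  simp [mul_assoc]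

theorem dh_dd {i : Fin 4} (h : i ≠ 0) : dh i (dd i) = dd i := by
  rw [dd_eq, map_mul, map_mul, map_mul, map_inv, dh_uu, dh_xx, dh_ga h]
  simp [mul_assoc]

theorem eh_apply_ga (i j : Fin 4) : eh i (ga j) = if j = 0 then dd i * ga j * (dd i)⁻¹ else
      if j = i then xx' i * ga j * (xx' i)⁻¹ else ga j := by
  simp [eh]

theorem eh_apply_gb (i j : Fin 4) : eh i (gb j) = if j = 0 then dd i * gb j * (dd i)⁻¹ else
      if j = i then gb j * (xx' i)⁻¹ else gb j := by
  simp [eh]

theorem dh_apply_ga (i j : Fin 4) : dh i (ga j) = if j = 0 then (dd i)⁻¹ * ga j * dd i else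
      if j = i then ((ga i)⁻¹ * (xx' i)⁻¹ * ga i) * xx' i * ga i else ga j := by
  simp [dh]

theorem dh_apply_gb (i j : Fin 4) : dh i (gb j) = if j = 0 then (dd i)⁻¹ * gb j * dd i else
      if j = i then gb i * ((ga i)⁻¹ * xx' i * ga i) else gb j := by
  simp [dh]

/-- The push of the handle `0` around the handle `i`, as an automorphism. -/
def pE (i : Fin 4) (h : i ≠ 0) : MulAut F8 :=
  mkAut (eh i) (dh i)
    (fun j => by
      rw [eh_apply_ga]
      split_ifs with h0 hi
      · subst h0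
        rw [map_mul, map_mul, map_inv, dh_dd h, dh_apply_ga, if_pos rfl]
        simp [mul_assoc]
      · subst hi
        rw [map_mul, map_mul, map_inv, dh_xx, dh_ga h]
        simp [mul_assoc]
      · rw [dh_apply_ga, if_neg h0, if_neg hi])
    (fun j => by
      rw [eh_apply_gb]
      split_ifs with h0 hi
      · subst h0
        rw [map_mul, map_mul, map_inv, dh_dd h, dh_apply_gb, if_pos rfl]
        simp [mul_assoc]
      · subst hi
        rw [map_mul, map_inv, dh_xx, dh_gb h]
        simp [mul_assoc]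
      · rw [dh_apply_gb, if_neg h0, if_neg hi])
    (fun j => by
      rw [dh_apply_ga]
      split_ifs with h0 hi
      · subst h0
        rw [map_mul, map_mul, map_inv, eh_dd h, eh_apply_ga, if_pos rfl]
        simp [mul_assoc]
      · subst hi
        simp only [map_mul, map_inv, eh_xx, eh_ga h]
        simp [mul_assoc]
      · rw [eh_apply_ga, if_neg h0, if_neg hi])
    (fun j => by
      rw [dh_apply_gb]
      split_ifs with h0 hi
      · subst h0
        rw [map_mul, map_mul, map_inv, eh_dd h, eh_apply_gb, if_pos rfl]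
        simp [mul_assoc]
      · subst hi
        simp only [map_mul, map_inv, eh_xx, eh_ga h, eh_gb h]
        simp [mul_assoc]
      · rw [eh_apply_gb, if_neg h0, if_neg hi])

theorem pE_apply (i : Fin 4) (h : i ≠ 0) (x : F8) : pE i h x = eh i x := rfl

theorem eh_gc_self {i : Fin 4} (h : i ≠ 0) :
    eh i (gc 0 * uu i * gc i) = gc 0 * uu i * gc i := by
  rw [map_mul, map_mul, eh_uu, eh_gc_zero, dd_eq, gc_zero_eq i]
  have : eh i (gc i) = ⁅xx' i * ga i * (xx' i)⁻¹, gb i * (xx' i)⁻¹⁆ := by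
    rw [gc, map_commutatorElement, eh_ga h, eh_gb h]
  rw [this, gc]
  simp [commutatorElement_def, mul_assoc]

theorem eh_bd {i : Fin 4} (h : i ≠ 0) : eh i bd = bd := by
  have h1 := eh_gc_self h
  fin_cases i
  · exact absurd rfl h
  · have e1 : uu 1 = 1 := rfl
    have h1' : eh 1 (gc 0 * uu 1 * gc 1) = gc 0 * uu 1 * gc 1 := h1
    rw [e1, mul_one] at h1'
    show eh 1 bd = bd
    rw [bd, map_mul, map_mul, h1', eh_gc_other (by decide) (by decide),
      eh_gc_other (by decide) (by decide)]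
  · have e1 : uu 2 = gc 1 := rfl
    have h1' : eh 2 (gc 0 * uu 2 * gc 2) = gc 0 * uu 2 * gc 2 := h1
    rw [e1] at h1'
    show eh 2 bd = bd
    rw [bd, map_mul, h1', eh_gc_other (by decide) (by decide)]
  · have e1 : uu 3 = gc 1 * gc 2 := rfl
    have h1' : eh 3 (gc 0 * uu 3 * gc 3) = gc 0 * uu 3 * gc 3 := h1
    rw [e1, ← mul_assoc] at h1'
    show eh 3 bd = bd
    rw [bd, h1']

end Pool.Agent.Helper55
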