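import Mathlib
import Pool.Agent.Helper55.F8
import Pool.Agent.Helper55.GamLift

/-!
# The action of `((F₂ × F₂) * ℤ) × ℤ²` on the free group of rank eight
-/

set_option autoImplicit false
set_option linter.unusedSectionVars false

namespace Pool.Agent.Helper55

open scoped commutatorElement

theorem comm_of_gen {φ ψ : MulAut F8} (h₁ : ∀ j, φ (ψ (ga j)) = ψ (φ (ga j)))
    (h₂ : ∀ j, φ (ψ (gb j)) = ψ (φ (gb j))) : Commute φ ψ := by
  apply MulEquiv.toMonoidHom_injective
  exact F8.hom_ext h₁ h₂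

theorem comm_tA_tA (i j : Fin 4) : Commute (tA i) (tA j) := by
  apply comm_of_gen
  · intro k
    simp
  · intro k
    by_cases hj : k = j
    · subst hj
      by_cases hi : k = i
      · subst hi
        simp [tA_gb]
      · simp [tA_gb, hi]
    · by_cases hi : k = i
      · subst hi
        simp [tA_gb, hj]
      · simp [tA_gb, hi, hj]

theorem comm_tA_tB {i j : Fin 4} (h : i ≠ j) : Commute (tA i) (tB j) := by
  apply comm_of_gen
  · intro k
    simp only [tB_ga, tA_ga]
    split_ifs with h1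
    · subst h1
      simp [tA_gb, h.symm]
    · simp
  · intro k
    simp only [tB_gb, tA_gb]
    split_ifs with h1
    · subst h1
      simp [tB_ga, h]
    · simp

theorem comm_tB_tB (i j : Fin 4) : Commute (tB i) (tB j) := by
  apply comm_of_gen
  · intro k
    by_cases hj : k = j
    · subst hj
      by_cases hi : k = i
      · subst hi
        simp [tB_ga]
      · simp [tB_ga, hi]
    · by_cases hi : k = i
      · subst hi
        simp [tB_ga, hj]
      · simp [tB_ga, hi, hj]
  · intro k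
    simp

theorem tA_uu (k i : Fin 4) : tA k (uu i) = uu i := by
  fin_cases i <;> simp [uu]

theorem tA_xx (k i : Fin 4) : tA k (xx' i) = xx' i := by
  simp [xx', tA_uu]

theorem tA_dd (k i : Fin 4) : tA k (dd i) = dd i := by
  simp [dd, tA_uu]

theorem comm_tA_pE (k : Fin 4) {i : Fin 4} (h : i ≠ 0) : Commute (tA k) (pE i h) := by
  apply comm_of_gen
  · intro j
    simp only [pE_apply, eh_apply_ga, tA_ga]
    split_ifs <;> simp [tA_dd, tA_xx]
  · intro j
    simp only [pE_apply, eh_apply_gb, tA_gb]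
    by_cases hk : j = k
    · subst hk
      simp only [if_true, map_mul, eh_apply_gb, eh_apply_ga]
      split_ifs with h0 hi
      · simp [tA_dd, tA_gb, mul_assoc]
      · simp [tA_xx, tA_gb, mul_assoc]
      · simp [tA_gb]
    · simp only [if_neg hk, eh_apply_gb]
      split_ifs with h0 hi
      · simp [tA_dd, tA_gb, hk]
      · simp [tA_xx, tA_gb, hk]
      · simp [tA_gb, hk]

/-- The intersection form on the free group. -/
def om8 (χ ψ : F8 →* Multiplicative ℤ) : ℤ :=
  ∑ i : Fin 4, ((χ (ga i)).toAdd * (ψ (gb i)).toAdd - (χ (gb i)).toAdd * (ψ (ga i)).toAdd)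

/-- Automorphisms fixing the boundary word and the intersection form. -/
def S8 : Subgroup (MulAut F8) where
  carrier := {φ | φ bd = bd ∧ ∀ χ ψ : F8 →* Multiplicative ℤ,
    om8 (χ.comp φ.toMonoidHom) (ψ.comp φ.toMonoidHom) = om8 χ ψ}
  one_mem' := ⟨rfl, fun _ _ => rfl⟩
  mul_mem' := fun {a b} ha hb => by
    refine ⟨?_, fun χ ψ => ?_⟩
    · show a (b bd) = bd
      rw [hb.1, ha.1]
    · have h := hb.2 (χ.comp a.toMonoidHom) (ψ.comp a.toMonoidHom)
      rw [ha.2] at h
      exact h
  inv_mem' := fun {a} ha => by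
    refine ⟨?_, fun χ ψ => ?_⟩
    · show a.symm bd = bd
      rw [MulEquiv.symm_apply_eq, ha.1]
    · have h := ha.2 (χ.comp (a⁻¹).toMonoidHom) (ψ.comp (a⁻¹).toMonoidHom)
      rw [← h]
      congr 1
      · exact MonoidHom.ext fun x => congrArg χ (a.symm_apply_apply x)
      · exact MonoidHom.ext fun x => congrArg ψ (a.symm_apply_apply x)

theorem tA_mem (i : Fin 4) : tA i ∈ S8 := by
  refine ⟨by simp [bd], fun χ ψ => ?_⟩
  unfold om8
  refine Finset.sum_congr rfl fun j _ => ?_
  simp only [MonoidHom.comp_apply, MulEquiv.toMonoidHom_eq_coe, MonoidHom.coe_coe, tA_ga, tA_gb]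
  split_ifs
  · simp only [map_mul, toAdd_mul]
    ring
  · rfl

theorem tB_mem (i : Fin 4) : tB i ∈ S8 := by
  refine ⟨by simp [bd], fun χ ψ => ?_⟩
  unfold om8
  refine Finset.sum_congr rfl fun j _ => ?_
  simp only [MonoidHom.comp_apply, MulEquiv.toMonoidHom_eq_coe, MonoidHom.coe_coe, tB_ga, tB_gb]
  split_ifs
  · simp only [map_mul, toAdd_mul, map_inv, toAdd_inv]
    ring
  · rfl

theorem map_gc_comm {G : Type*} [CommGroup G] (χ : F8 →* G) (i : Fin 4) : χ (gc i) = 1 := by
  rw [gc, map_commutatorElement]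
  exact commutatorElement_eq_one_iff_mul_comm.2 (mul_comm _ _)

theorem map_xx_comm {G : Type*} [CommGroup G] (χ : F8 →* G) (i : Fin 4) : χ (xx' i) = 1 := by
  simp [xx', map_gc_comm]

theorem chi_eh {G : Type*} [CommGroup G] (χ : F8 →* G) (i : Fin 4) : χ.comp (eh i) = χ := by
  apply F8.hom_ext
  · intro j
    rw [MonoidHom.comp_apply, eh_apply_ga]
    split_ifs <;> simp [map_xx_comm]
  · intro j
    rw [MonoidHom.comp_apply, eh_apply_gb]
    split_ifs <;> simp [map_xx_comm]

theorem chi_pE {G : Type*} [CommGroup G] (χ : F8 →* G) {i : Fin 4} (h : i ≠ 0) :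
    χ.comp (pE i h).toMonoidHom = χ := chi_eh χ i

theorem pE_mem {i : Fin 4} (h : i ≠ 0) : pE i h ∈ S8 := by
  refine ⟨eh_bd h, fun χ ψ => ?_⟩
  rw [chi_pE, chi_pE]

/-- Twists in the subgroup. -/
def sA (i : Fin 4) : S8 := ⟨tA i, tA_mem i⟩

/-- Twists in the subgroup. -/
def sB (i : Fin 4) : S8 := ⟨tB i, tB_mem i⟩

/-- Pushes in the subgroup. -/
def sE (i : Fin 4) (h : i ≠ 0) : S8 := ⟨pE i h, pE_mem h⟩

theorem comm_sub {x y : S8} (h : Commute (x : MulAut F8) y) : Commute x y :=
  Subtype.ext h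

/-- The push of the handle `0` along a loop of slope `(1,-1)` around the handle `i`. -/
def sD (i : Fin 4) (h : i ≠ 0) : S8 := sB i * (sE i h)⁻¹ * (sB i)⁻¹

/-- The push along the loop dual to the base vector. -/
def sM : S8 := sD 1 (by decide) * sD 2 (by decide)

/-- The image of the free letter. -/
def sT : S8 := sM * (sE 3 (by decide))⁻¹ * sM⁻¹

theorem comm_sD {k i : Fin 4} (h : i ≠ 0) (hk : k ≠ i) : Commute (sD i h) (sA k) := by
  have h1 : Commute (sB i) (sA k) := comm_sub (comm_tA_tB hk).symm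
  have h2 : Commute (sE i h) (sA k) := comm_sub (comm_tA_pE k h).symm
  exact (h1.mul_left h2.inv_left).mul_left h1.inv_left

theorem comm_sT {k : Fin 4} (h1 : k ≠ 1) (h2 : k ≠ 2) : Commute sT (sA k) := by
  have h3 : Commute sM (sA k) := (comm_sD _ h1).mul_left (comm_sD _ h2)
  have h4 : Commute (sE 3 (by decide)) (sA k) := comm_sub (comm_tA_pE k (by decide)).symm
  exact (h3.mul_left h4.inv_left).mul_left h3.inv_left

/-- The data defining the action. -/
def dat8 : GamData S8 where
  a₁ := sA 1 ^ 3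
  b₁ := sB 1 ^ 3
  a₂ := sA 2 ^ 3
  b₂ := sB 2 ^ 3
  t := sT
  z₁ := sA 0
  z₂ := sA 3
  aa := (comm_sub (comm_tA_tA 1 2)).pow_pow 3 3
  ab := (comm_sub (comm_tA_tB (i := 1) (j := 2) (by decide))).pow_pow 3 3
  ba := (comm_sub (comm_tA_tB (i := 2) (j := 1) (by decide)).symm).pow_pow 3 3
  bb := (comm_sub (comm_tB_tB 1 2)).pow_pow 3 3
  za₁ := (comm_sub (comm_tA_tA 1 0)).pow_left 3
  zb₁ := (comm_sub (comm_tA_tB (i := 0) (j := 1) (by decide)).symm).pow_left 3
  za₂ := (comm_sub (comm_tA_tA 2 0)).pow_left 3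
  zb₂ := (comm_sub (comm_tA_tB (i := 0) (j := 2) (by decide)).symm).pow_left 3
  zt := comm_sT (by decide) (by decide)
  wa₁ := (comm_sub (comm_tA_tA 1 3)).pow_left 3
  wb₁ := (comm_sub (comm_tA_tB (i := 3) (j := 1) (by decide)).symm).pow_left 3
  wa₂ := (comm_sub (comm_tA_tA 2 3)).pow_left 3
  wb₂ := (comm_sub (comm_tA_tB (i := 3) (j := 2) (by decide)).symm).pow_left 3
  wt := comm_sT (by decide) (by decide)
  zz := comm_sub (comm_tA_tA 0 3)

end Pool.Agent.Helper55
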