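import Mathlib
import Pool.Agent.Helper55.PingPong
import Pool.Agent.Helper55.S8

/-!
# Detecting elements of the ambient group
-/

set_option autoImplicit false
set_option linter.unusedSectionVars false

namespace Pool.Agent.Helper55

open SemidirectProduct
open scoped commutatorElement

/-- The abelian group `ℤ² × ℤ²`. -/
abbrev M4 : Type := Z2 × Z2

/-- The detecting group `ℤ⁴ * ℤ`. -/
abbrev WW : Type := FZ M4

theorem fzMap_comp {P Q R : Type*} [Group P] [Group Q] [Group R] (f : Q →* R) (g : P →* Q)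
    (x : FZ P) : fzMap f (fzMap g x) = fzMap (f.comp g) x := by
  have : (fzMap f).comp (fzMap g) = fzMap (f.comp g) := by
    apply fz_hom_ext
    · intro p; simp
    · simp
  exact DFunLike.congr_fun this x

theorem fzMap_id {P : Type*} [Group P] (x : FZ P) : fzMap (MonoidHom.id P) x = x := by
  have : fzMap (MonoidHom.id P) = MonoidHom.id _ := by
    apply fz_hom_ext
    · intro p; simp
    · simp
  exact DFunLike.congr_fun this x

/-- Functoriality of `FZ` on automorphisms. -/
def fzAut (P : Type*) [Group P] : MulAut P →* MulAut (FZ P) where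
  toFun α := MonoidHom.toMulEquiv (fzMap α.toMonoidHom) (fzMap (α⁻¹).toMonoidHom)
    (MonoidHom.ext fun x => by
      have h : (α⁻¹).toMonoidHom.comp α.toMonoidHom = MonoidHom.id P :=
        MonoidHom.ext fun y => α.symm_apply_apply y
      rw [MonoidHom.comp_apply, fzMap_comp, h, fzMap_id]
      rfl)
    (MonoidHom.ext fun x => by
      have h : α.toMonoidHom.comp (α⁻¹).toMonoidHom = MonoidHom.id P :=
        MonoidHom.ext fun y => α.apply_symm_apply y
      rw [MonoidHom.comp_apply, fzMap_comp, h, fzMap_id]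
      rfl)
  map_one' := MulEquiv.ext fun x => fzMap_id x
  map_mul' α β := MulEquiv.ext fun x => (fzMap_comp α.toMonoidHom β.toMonoidHom x).symm

theorem fzAut_inr {P : Type*} [Group P] (α : MulAut P) (p : P) :
    fzAut P α (inr p) = inr (α p) := fzMap_inr _ p

theorem fzAut_stb {P : Type*} [Group P] (α : MulAut P) : fzAut P α (stb P) = stb P := fzMap_stb _

theorem fzAut_of {P : Type*} [Group P] (α : MulAut P) (p : P) :
    fzAut P α (inl (FreeGroup.of p)) = inl (FreeGroup.of (α p)) := by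
  rw [← inr_mul_stb, map_mul, map_mul, map_inv, fzAut_inr, fzAut_stb, inr_mul_stb]

/-- Product automorphisms. -/
def prodAut : MulAut Z2 × MulAut Z2 →* MulAut M4 where
  toFun p := MulEquiv.prodCongr p.1 p.2
  map_one' := rfl
  map_mul' _ _ := rfl

theorem prodAut_apply (α β : MulAut Z2) (v w : Z2) : prodAut (α, β) (v, w) = (α v, β w) := rfl

/-- The detecting homomorphisms. -/
def rho (e : WW) : F8 →* WW :=
  hlift ![e, inr ((Multiplicative.ofAdd 1, 1), 1), inr (1, (Multiplicative.ofAdd 1, 1)), stb _]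
    ![1, inr ((1, Multiplicative.ofAdd 1), 1), inr (1, (1, Multiplicative.ofAdd 1)), 1]

theorem rho_ga (e : WW) (i : Fin 4) : rho e (ga i) =
    ![e, inr ((Multiplicative.ofAdd 1, 1), 1), inr (1, (Multiplicative.ofAdd 1, 1)), stb _] i := by
  simp [rho]

theorem rho_gb (e : WW) (i : Fin 4) : rho e (gb i) =
    ![1, inr ((1, Multiplicative.ofAdd 1), 1), inr (1, (1, Multiplicative.ofAdd 1)), 1] i := by
  simp [rho]

theorem rho_ga_ne (e e' : WW) {i : Fin 4} (h : i ≠ 0) : rho e (ga i) = rho e' (ga i) := by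
  rw [rho_ga, rho_ga]
  fin_cases i
  · exact absurd rfl h
  · rfl
  · rfl
  · rfl

theorem rho_gb_eq (e e' : WW) (i : Fin 4) : rho e (gb i) = rho e' (gb i) := by
  rw [rho_gb, rho_gb]

theorem inr_comm (a b : M4) : ⁅(inr a : WW), (inr b : WW)⁆ = 1 := by
  rw [← map_commutatorElement]
  have : ⁅a, b⁆ = 1 := commutatorElement_eq_one_iff_mul_comm.2 (mul_comm _ _)
  rw [this, map_one]

theorem rho_gc (e : WW) (i : Fin 4) : rho e (gc i) = 1 := by
  rw [gc, map_commutatorElement, rho_ga, rho_gb]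
  fin_cases i
  · exact commutatorElement_one_right _
  · exact inr_comm _ _
  · exact inr_comm _ _
  · exact commutatorElement_one_right _

theorem rho_bd (e : WW) : rho e bd = 1 := by
  simp [bd, rho_gc]

theorem rho_uu (e : WW) (i : Fin 4) : rho e (uu i) = 1 := by
  fin_cases i <;> simp [uu, rho_gc]

theorem rho_xx (e : WW) (i : Fin 4) : rho e (xx' i) = 1 := by
  simp [xx', rho_gc, rho_uu]

theorem rho_dd (e : WW) (i : Fin 4) : rho e (dd i) = rho e (ga i) := by
  simp [dd, rho_gc, rho_uu]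

/-- The compatible triples. -/
def TT : Subgroup (MulAut F8 × MulAut WW × MulAut WW) where
  carrier := {p | ∀ e f, rho (p.2.1 e) (p.1 f) = p.2.2 (rho e f)}
  one_mem' := fun _ _ => rfl
  mul_mem' := fun {p q} hp hq e f => by
    show rho (p.2.1 (q.2.1 e)) (p.1 (q.1 f)) = p.2.2 (q.2.2 (rho e f))
    rw [hp, hq]
  inv_mem' := fun {p} hp e f => by
    show rho (p.2.1.symm e) (p.1.symm f) = p.2.2.symm (rho e f)
    rw [MulEquiv.eq_symm_apply, ← hp]
    simp

theorem mem_TT {φ : MulAut F8} {B Q : MulAut WW}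
    (h₁ : ∀ e i, rho (B e) (φ (ga i)) = Q (rho e (ga i)))
    (h₂ : ∀ e i, rho (B e) (φ (gb i)) = Q (rho e (gb i))) : (φ, B, Q) ∈ TT := by
  intro e f
  have : (rho (B e)).comp φ.toMonoidHom = Q.toMonoidHom.comp (rho e) :=
    F8.hom_ext (h₁ e) (h₂ e)
  exact DFunLike.congr_fun this f

/-- The action on the first factor. -/
def qL (α : MulAut Z2) : MulAut WW := fzAut M4 (prodAut (α, 1))

/-- The action on the second factor. -/
def qR (α : MulAut Z2) : MulAut WW := fzAut M4 (prodAut (1, α))

theorem qL_pow (α : MulAut Z2) (n : ℕ) : qL (α ^ n) = qL α ^ n := by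
  rw [qL, qL, ← map_pow, ← map_pow, Prod.pow_mk, one_pow]

theorem qR_pow (α : MulAut Z2) (n : ℕ) : qR (α ^ n) = qR α ^ n := by
  rw [qR, qR, ← map_pow, ← map_pow, Prod.pow_mk, one_pow]

theorem tA1_mem : (tA 1, qL shA, qL shA) ∈ TT := by
  apply mem_TT
  · intro e i
    rw [tA_ga, rho_ga, rho_ga]
    fin_cases i
    · rfl
    · show (inr ((Multiplicative.ofAdd 1, 1), 1) : WW) = qL shA (inr ((Multiplicative.ofAdd 1, 1), 1))
      rw [qL, fzAut_inr, prodAut_apply, shA_apply]
      simp
    · show (inr (1, (Multiplicative.ofAdd 1, 1)) : WW) = qL shA (inr (1, (Multiplicative.ofAdd 1, 1)))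
      rw [qL, fzAut_inr, prodAut_apply, map_one shA]
      rfl
    · exact (fzAut_stb _).symm
  · intro e i
    rw [tA_gb]
    fin_cases i
    · show rho _ (gb 0) = qL shA (rho e (gb 0))
      rw [rho_gb, rho_gb]
      exact (map_one (qL shA)).symm
    · show rho _ (gb 1 * ga 1) = qL shA (rho e (gb 1))
      rw [map_mul, rho_gb, rho_gb, rho_ga]
      show (inr ((1, Multiplicative.ofAdd 1), 1) * inr ((Multiplicative.ofAdd 1, 1), 1) : WW) =
        qL shA (inr ((1, Multiplicative.ofAdd 1), 1))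
      rw [qL, fzAut_inr, prodAut_apply, shA_apply, ← map_mul]
      simp
    · show rho _ (gb 2) = qL shA (rho e (gb 2))
      rw [rho_gb, rho_gb]
      show (inr (1, (1, Multiplicative.ofAdd 1)) : WW) = qL shA (inr (1, (1, Multiplicative.ofAdd 1)))
      rw [qL, fzAut_inr, prodAut_apply, map_one shA]
      rfl
    · show rho _ (gb 3) = qL shA (rho e (gb 3))
      rw [rho_gb, rho_gb]
      exact (map_one (qL shA)).symm

theorem tA2_mem : (tA 2, qR shA, qR shA) ∈ TT := by
  apply mem_TT
  · intro e i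
    rw [tA_ga, rho_ga, rho_ga]
    fin_cases i
    · rfl
    · show (inr ((Multiplicative.ofAdd 1, 1), 1) : WW) = qR shA (inr ((Multiplicative.ofAdd 1, 1), 1))
      rw [qR, fzAut_inr, prodAut_apply, map_one shA]
      rfl
    · show (inr (1, (Multiplicative.ofAdd 1, 1)) : WW) = qR shA (inr (1, (Multiplicative.ofAdd 1, 1)))
      rw [qR, fzAut_inr, prodAut_apply, shA_apply]
      simp
    · exact (fzAut_stb _).symm
  · intro e i
    rw [tA_gb]
    fin_cases i
    · show rho _ (gb 0) = qR shA (rho e (gb 0))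
      rw [rho_gb, rho_gb]
      exact (map_one (qR shA)).symm
    · show rho _ (gb 1) = qR shA (rho e (gb 1))
      rw [rho_gb, rho_gb]
      show (inr ((1, Multiplicative.ofAdd 1), 1) : WW) = qR shA (inr ((1, Multiplicative.ofAdd 1), 1))
      rw [qR, fzAut_inr, prodAut_apply, map_one shA]
      rfl
    · show rho _ (gb 2 * ga 2) = qR shA (rho e (gb 2))
      rw [map_mul, rho_gb, rho_gb, rho_ga]
      show (inr (1, (1, Multiplicative.ofAdd 1)) * inr (1, (Multiplicative.ofAdd 1, 1)) : WW) =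
        qR shA (inr (1, (1, Multiplicative.ofAdd 1)))
      rw [qR, fzAut_inr, prodAut_apply, shA_apply, ← map_mul]
      simp
    · show rho _ (gb 3) = qR shA (rho e (gb 3))
      rw [rho_gb, rho_gb]
      exact (map_one (qR shA)).symm

theorem tB1_mem : (tB 1, qL shB, qL shB) ∈ TT := by
  apply mem_TT
  · intro e i
    rw [tB_ga]
    fin_cases i
    · show rho _ (ga 0) = qL shB (rho e (ga 0))
      rw [rho_ga, rho_ga]
      rfl
    · show rho _ (ga 1 * (gb 1)⁻¹) = qL shB (rho e (ga 1))
      rw [map_mul, map_inv, rho_ga, rho_ga, rho_gb]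
      show (inr ((Multiplicative.ofAdd 1, 1), 1) * (inr ((1, Multiplicative.ofAdd 1), 1))⁻¹ : WW) =
        qL shB (inr ((Multiplicative.ofAdd 1, 1), 1))
      rw [qL, fzAut_inr, prodAut_apply, shB_apply, ← map_inv, ← map_mul]
      simp
    · show rho _ (ga 2) = qL shB (rho e (ga 2))
      rw [rho_ga, rho_ga]
      show (inr (1, (Multiplicative.ofAdd 1, 1)) : WW) = qL shB (inr (1, (Multiplicative.ofAdd 1, 1)))
      rw [qL, fzAut_inr, prodAut_apply, map_one shB]
      rfl
    · show rho _ (ga 3) = qL shB (rho e (ga 3))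
      rw [rho_ga, rho_ga]
      exact (fzAut_stb _).symm
  · intro e i
    rw [tB_gb, rho_gb, rho_gb]
    fin_cases i
    · exact (map_one (qL shB)).symm
    · show (inr ((1, Multiplicative.ofAdd 1), 1) : WW) = qL shB (inr ((1, Multiplicative.ofAdd 1), 1))
      rw [qL, fzAut_inr, prodAut_apply, shB_apply]
      simp
    · show (inr (1, (1, Multiplicative.ofAdd 1)) : WW) = qL shB (inr (1, (1, Multiplicative.ofAdd 1)))
      rw [qL, fzAut_inr, prodAut_apply, map_one shB]
      rfl
    · exact (map_one (qL shB)).symm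

theorem tB2_mem : (tB 2, qR shB, qR shB) ∈ TT := by
  apply mem_TT
  · intro e i
    rw [tB_ga]
    fin_cases i
    · show rho _ (ga 0) = qR shB (rho e (ga 0))
      rw [rho_ga, rho_ga]
      rfl
    · show rho _ (ga 1) = qR shB (rho e (ga 1))
      rw [rho_ga, rho_ga]
      show (inr ((Multiplicative.ofAdd 1, 1), 1) : WW) = qR shB (inr ((Multiplicative.ofAdd 1, 1), 1))
      rw [qR, fzAut_inr, prodAut_apply, map_one shB]
      rfl
    · show rho _ (ga 2 * (gb 2)⁻¹) = qR shB (rho e (ga 2))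
      rw [map_mul, map_inv, rho_ga, rho_ga, rho_gb]
      show (inr (1, (Multiplicative.ofAdd 1, 1)) * (inr (1, (1, Multiplicative.ofAdd 1)))⁻¹ : WW) =
        qR shB (inr (1, (Multiplicative.ofAdd 1, 1)))
      rw [qR, fzAut_inr, prodAut_apply, shB_apply, ← map_inv, ← map_mul]
      simp
    · show rho _ (ga 3) = qR shB (rho e (ga 3))
      rw [rho_ga, rho_ga]
      exact (fzAut_stb _).symm
  · intro e i
    rw [tB_gb, rho_gb, rho_gb]
    fin_cases i
    · exact (map_one (qR shB)).symm
    · show (inr ((1, Multiplicative.ofAdd 1), 1) : WW) = qR shB (inr ((1, Multiplicative.ofAdd 1), 1))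
      rw [qR, fzAut_inr, prodAut_apply, map_one shB]
      rfl
    · show (inr (1, (1, Multiplicative.ofAdd 1)) : WW) = qR shB (inr (1, (1, Multiplicative.ofAdd 1)))
      rw [qR, fzAut_inr, prodAut_apply, shB_apply]
      simp
    · exact (map_one (qR shB)).symm

theorem pE_mem_TT {i : Fin 4} (h : i ≠ 0) (y : WW) (hy : rho 1 (ga i) = y) :
    (pE i h, (MulAut.conj y)⁻¹, 1) ∈ TT := by
  have hy' : ∀ e, rho e (ga i) = y := fun e => by rw [rho_ga_ne e 1 h, hy]
  apply mem_TT
  · intro e j
    have hinv : (MulAut.conj y)⁻¹ e = y⁻¹ * e * y := by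
      rw [← map_inv]; simp
    rw [hinv, pE_apply, eh_apply_ga, MulAut.one_apply]
    split_ifs with h0 hi
    · subst h0
      rw [map_mul, map_mul, map_inv, rho_dd, hy', rho_ga, rho_ga]
      show y * (y⁻¹ * e * y) * y⁻¹ = e
      group
    · rw [map_mul, map_mul, map_inv, rho_xx, one_mul, inv_one, mul_one]
      exact rho_ga_ne _ _ h0
    · exact rho_ga_ne _ _ h0
  · intro e j
    rw [pE_apply, eh_apply_gb, MulAut.one_apply]
    split_ifs with h0 hi
    · subst h0
      rw [map_mul, map_mul, map_inv, rho_gb, rho_gb]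
      show rho _ (dd i) * 1 * (rho _ (dd i))⁻¹ = 1
      group
    · rw [map_mul, map_inv, rho_xx, inv_one, mul_one]
      exact rho_gb_eq _ _ _
    · exact rho_gb_eq _ _ _

/-- The base vector of `ℤ⁴`. -/
def m0 : M4 := (v0, v0)

theorem conj_mul_aut {G : Type*} [Group G] (Q : MulAut G) (y : G) :
    Q * MulAut.conj y * Q⁻¹ = MulAut.conj (Q y) := by
  ext x
  simp

theorem sD1_mem : ((sD 1 (by decide) : MulAut F8), MulAut.conj (inr (v0, 1) : WW), 1) ∈ TT := by
  have h1 := pE_mem_TT (i := 1) (by decide) (inr ((Multiplicative.ofAdd 1, 1), 1)) (by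
    rw [rho_ga]; rfl)
  have h2 := TT.mul_mem (TT.mul_mem tB1_mem (TT.inv_mem h1)) (TT.inv_mem tB1_mem)
  convert h2 using 1
  refine Prod.ext rfl (Prod.ext ?_ ?_)
  · show MulAut.conj _ = qL shB * ((MulAut.conj _)⁻¹)⁻¹ * (qL shB)⁻¹
    rw [inv_inv, conj_mul_aut, qL, fzAut_inr, prodAut_apply, shB_apply]
    rfl
  · show 1 = qL shB * 1⁻¹ * (qL shB)⁻¹
    group

theorem sD2_mem : ((sD 2 (by decide) : MulAut F8), MulAut.conj (inr (1, v0) : WW), 1) ∈ TT := by
  have h1 := pE_mem_TT (i := 2) (by decide) (inr (1, (Multiplicative.ofAdd 1, 1))) (by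
    rw [rho_ga]; rfl)
  have h2 := TT.mul_mem (TT.mul_mem tB2_mem (TT.inv_mem h1)) (TT.inv_mem tB2_mem)
  convert h2 using 1
  refine Prod.ext rfl (Prod.ext ?_ ?_)
  · show MulAut.conj _ = qR shB * ((MulAut.conj _)⁻¹)⁻¹ * (qR shB)⁻¹
    rw [inv_inv, conj_mul_aut, qR, fzAut_inr, prodAut_apply, shB_apply]
    rfl
  · show 1 = qR shB * 1⁻¹ * (qR shB)⁻¹
    group

theorem sT_mem : ((sT : MulAut F8), MulAut.conj (inl (FreeGroup.of m0) : WW), 1) ∈ TT := by
  have h1 := pE_mem_TT (i := 3) (by decide) (stb M4) (by rw [rho_ga]; rfl)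
  have h2 := TT.mul_mem sD1_mem sD2_mem
  have h3 := TT.mul_mem (TT.mul_mem h2 (TT.inv_mem h1)) (TT.inv_mem h2)
  convert h3 using 1
  refine Prod.ext rfl (Prod.ext ?_ ?_)
  · show MulAut.conj _ = (MulAut.conj _ * MulAut.conj _) * ((MulAut.conj _)⁻¹)⁻¹ *
      (MulAut.conj _ * MulAut.conj _)⁻¹
    rw [inv_inv, ← map_mul, ← map_mul, ← map_mul, ← map_inv, ← map_mul]
    have : ((v0, 1) * (1, v0) : M4) = m0 := by simp [m0]
    rw [this, inr_mul_stb]
  · show (1 : MulAut WW) = (1 * 1) * 1⁻¹ * (1 * 1)⁻¹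
    group

/-- The action of `F₂ × F₂` on `ℤ⁴`. -/
def pm : F2 × F2 →* MulAut M4 := prodAut.comp (act2.prodMap act2)

theorem pm_apply (p : F2 × F2) : pm p m0 = (act2 p.1 v0, act2 p.2 v0) := rfl

theorem pm_injective : Function.Injective fun p => pm p m0 := by
  intro p q h
  simp only [pm_apply] at h
  have h1 := congrArg Prod.fst h
  have h2 := congrArg Prod.snd h
  exact Prod.ext (act2_injective h1) (act2_injective h2)

/-- The `Q`-part. -/
def qH : FZ (F2 × F2) →* MulAut WW := fzLift ((fzAut M4).comp pm) 1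

/-- The `B`-part. -/
def bH : FZ (F2 × F2) →* MulAut WW :=
  fzLift ((fzAut M4).comp pm) (MulAut.conj (inl (FreeGroup.of m0)))

theorem fzp_mem {H : Subgroup (FZ (F2 × F2))} (h₁ : inr (FreeGroup.of 0, 1) ∈ H)
    (h₂ : inr (FreeGroup.of 1, 1) ∈ H) (h₃ : inr (1, FreeGroup.of 0) ∈ H)
    (h₄ : inr (1, FreeGroup.of 1) ∈ H) (h₅ : stb _ ∈ H) (x : FZ (F2 × F2)) : x ∈ H := by
  have e1 : ∀ p : F2, inr (p, 1) ∈ H := by
    intro p
    have := f2Lift_mem (a := (inr (FreeGroup.of 0, 1) : FZ (F2 × F2)))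
      (b := inr (FreeGroup.of 1, 1)) H h₁ h₂ p
    have h : f2Lift (inr (FreeGroup.of 0, 1) : FZ (F2 × F2)) (inr (FreeGroup.of 1, 1)) =
        inr.comp (MonoidHom.inl F2 F2) := by
      apply f2_hom_ext <;> simp
    rw [h] at this
    exact this
  have e2 : ∀ p : F2, inr (1, p) ∈ H := by
    intro p
    have := f2Lift_mem (a := (inr (1, FreeGroup.of 0) : FZ (F2 × F2)))
      (b := inr (1, FreeGroup.of 1)) H h₃ h₄ p
    have h : f2Lift (inr (1, FreeGroup.of 0) : FZ (F2 × F2)) (inr (1, FreeGroup.of 1)) =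
        inr.comp (MonoidHom.inr F2 F2) := by
      apply f2_hom_ext <;> simp
    rw [h] at this
    exact this
  have := fzLift_mem (f := (inr : F2 × F2 →* FZ (F2 × F2))) (k := stb _) H (fun p => by
    have : (inr p : FZ (F2 × F2)) = inr (p.1, 1) * inr (1, p.2) := by
      rw [← map_mul]; simp
    rw [this]
    exact H.mul_mem (e1 _) (e2 _)) h₅ x
  have h : fzLift (inr : F2 × F2 →* FZ (F2 × F2)) (stb _) = MonoidHom.id _ := by
    apply fz_hom_ext <;> simp
  rw [h] at this
  exact this

theorem all_mem_TT (x : FZ (F2 × F2)) : ((dat8.xHom x : MulAut F8), bH x, qH x) ∈ TT := by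
  let Ξ : FZ (F2 × F2) →* MulAut F8 × MulAut WW × MulAut WW :=
    (S8.subtype.comp dat8.xHom).prod (bH.prod qH)
  have h : ∀ p : F2 × F2, Ξ (inr p) = ((dat8.pHom p : MulAut F8), fzAut M4 (pm p), fzAut M4 (pm p)) := by
    intro p
    refine Prod.ext ?_ (Prod.ext ?_ ?_)
    · show ((dat8.xHom (inr p) : S8) : MulAut F8) = _
      rw [GamData.xHom, fzLift_inr]
    · show bH (inr p) = _
      rw [bH, fzLift_inr]
      rfl
    · show qH (inr p) = _
      rw [qH, fzLift_inr]
      rfl
  have h1 : fzAut M4 (pm (FreeGroup.of 0, 1)) = qL shA ^ 3 := by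
    rw [← qL_pow]
    simp [pm, act2, qL]
  have h2 : fzAut M4 (pm (FreeGroup.of 1, 1)) = qL shB ^ 3 := by
    rw [← qL_pow]
    simp [pm, act2, qL]
  have h3 : fzAut M4 (pm (1, FreeGroup.of 0)) = qR shA ^ 3 := by
    rw [← qR_pow]
    simp [pm, act2, qR]
  have h4 : fzAut M4 (pm (1, FreeGroup.of 1)) = qR shB ^ 3 := by
    rw [← qR_pow]
    simp [pm, act2, qR]
  show x ∈ TT.comap Ξ
  apply fzp_mem
  · show Ξ _ ∈ TT
    rw [h, h1]
    have : ((dat8.pHom (FreeGroup.of 0, 1) : S8) : MulAut F8) = tA 1 ^ 3 := by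
      simp [GamData.pHom_apply, dat8, sA]
    rw [this]
    exact TT.pow_mem tA1_mem 3
  · show Ξ _ ∈ TT
    rw [h, h2]
    have : ((dat8.pHom (FreeGroup.of 1, 1) : S8) : MulAut F8) = tB 1 ^ 3 := by
      simp [GamData.pHom_apply, dat8, sB]
    rw [this]
    exact TT.pow_mem tB1_mem 3
  · show Ξ _ ∈ TT
    rw [h, h3]
    have : ((dat8.pHom (1, FreeGroup.of 0) : S8) : MulAut F8) = tA 2 ^ 3 := by
      simp [GamData.pHom_apply, dat8, sA]
    rw [this]
    exact TT.pow_mem tA2_mem 3
  · show Ξ _ ∈ TT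
    rw [h, h4]
    have : ((dat8.pHom (1, FreeGroup.of 1) : S8) : MulAut F8) = tB 2 ^ 3 := by
      simp [GamData.pHom_apply, dat8, sB]
    rw [this]
    exact TT.pow_mem tB2_mem 3
  · show Ξ _ ∈ TT
    have : Ξ (stb _) = ((sT : MulAut F8), MulAut.conj (inl (FreeGroup.of m0) : WW), 1) := by
      refine Prod.ext ?_ (Prod.ext ?_ ?_)
      · show ((dat8.xHom (stb _) : S8) : MulAut F8) = _
        rw [GamData.xHom, fzLift_stb]
        rfl
      · show bH (stb _) = _
        rw [bH, fzLift_stb]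
      · show qH (stb _) = _
        rw [qH, fzLift_stb]
    rw [this]
    exact sT_mem

theorem bH_inl (v : FreeGroup (F2 × F2)) :
    bH (inl v) = MulAut.conj (inl (FreeGroup.map (fun p => pm p m0) v)) := by
  have : bH.comp inl = (MulAut.conj.comp inl).comp (FreeGroup.map fun p => pm p m0) := by
    ext p : 1
    rw [MonoidHom.comp_apply, bH, fzLift_inl_of, MonoidHom.comp_apply, conj_mul_aut,
      MonoidHom.comp_apply, fzAut_of, MonoidHom.comp_apply, FreeGroup.map.of]
  exact DFunLike.congr_fun this v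

theorem qH_right (x : FZ (F2 × F2)) : qH x = fzAut M4 (pm x.right) := by
  have : qH = ((fzAut M4).comp pm).comp rightHom := by
    apply fz_hom_ext
    · intro p
      simp [qH]
    · rw [qH, fzLift_stb, stb, MonoidHom.comp_apply, rightHom_inl, map_one]
  rw [this]
  rfl

theorem M4_nontrivial : ¬ Subsingleton M4 := by
  rw [not_subsingleton_iff_nontrivial]
  infer_instance

/-- The characters detecting the central part. -/
def chi (i : Fin 4) : F8 →* Multiplicative ℤ :=
  hlift (fun j => if j = i then Multiplicative.ofAdd 1 else 1) 1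

theorem chi_inv_aux {i : Fin 4} (h1 : i ≠ 1) (h2 : i ≠ 2) (x : FZ (F2 × F2)) (f : F8) :
    chi i ((dat8.xHom x : MulAut F8) f) = chi i f := by
  let S' : Subgroup (MulAut F8) :=
    { carrier := {φ | ∀ f, chi i (φ f) = chi i f}
      one_mem' := fun _ => rfl
      mul_mem' := fun {a b} ha hb f => by
        show chi i (a (b f)) = chi i f
        rw [ha, hb]
      inv_mem' := fun {a} ha f => by
        show chi i (a.symm f) = chi i f
        rw [← ha]
        simp }
  have hmk : ∀ φ : MulAut F8, (∀ j, chi i (φ (ga j)) = chi i (ga j)) →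
      (∀ j, chi i (φ (gb j)) = chi i (gb j)) → φ ∈ S' := by
    intro φ h3 h4 f
    have : (chi i).comp φ.toMonoidHom = chi i := F8.hom_ext h3 h4
    exact DFunLike.congr_fun this f
  have hA : ∀ k, k ≠ i → tA k ∈ S' := by
    intro k hk
    apply hmk
    · intro j; simp
    · intro j
      rw [tA_gb]
      split_ifs with hj
      · subst hj
        simp [chi, hk]
      · rfl
  have hB : ∀ k, tB k ∈ S' := by
    intro k
    apply hmk
    · intro j
      rw [tB_ga]
      split_ifs with hj
      · subst hj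
        simp [chi]
      · rfl
    · intro j; simp
  have hE : ∀ k (hk : k ≠ 0), pE k hk ∈ S' := by
    intro k hk f
    exact DFunLike.congr_fun (chi_eh (chi i) k) f
  have hD : ∀ k (hk : k ≠ 0), (sD k hk : MulAut F8) ∈ S' := by
    intro k hk
    exact S'.mul_mem (S'.mul_mem (hB k) (S'.inv_mem (hE k hk))) (S'.inv_mem (hB k))
  have hM : (sM : MulAut F8) ∈ S' := S'.mul_mem (hD 1 (by decide)) (hD 2 (by decide))
  have hT : (sT : MulAut F8) ∈ S' :=
    S'.mul_mem (S'.mul_mem hM (S'.inv_mem (hE 3 (by decide)))) (S'.inv_mem hM)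
  have : x ∈ S'.comap (S8.subtype.comp dat8.xHom) := by
    apply fzp_mem
    · show (dat8.xHom (inr _) : MulAut F8) ∈ S'
      have : ((dat8.xHom (inr (FreeGroup.of 0, 1)) : S8) : MulAut F8) = tA 1 ^ 3 := by
        simp [GamData.xHom, GamData.pHom_apply, dat8, sA]
      rw [this]
      exact S'.pow_mem (hA 1 h1.symm) 3
    · show (dat8.xHom (inr _) : MulAut F8) ∈ S'
      have : ((dat8.xHom (inr (FreeGroup.of 1, 1)) : S8) : MulAut F8) = tB 1 ^ 3 := by
        simp [GamData.xHom, GamData.pHom_apply, dat8, sB]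
      rw [this]
      exact S'.pow_mem (hB 1) 3
    · show (dat8.xHom (inr _) : MulAut F8) ∈ S'
      have : ((dat8.xHom (inr (1, FreeGroup.of 0)) : S8) : MulAut F8) = tA 2 ^ 3 := by
        simp [GamData.xHom, GamData.pHom_apply, dat8, sA]
      rw [this]
      exact S'.pow_mem (hA 2 h2.symm) 3
    · show (dat8.xHom (inr _) : MulAut F8) ∈ S'
      have : ((dat8.xHom (inr (1, FreeGroup.of 1)) : S8) : MulAut F8) = tB 2 ^ 3 := by
        simp [GamData.xHom, GamData.pHom_apply, dat8, sB]
      rw [this]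
      exact S'.pow_mem (hB 2) 3
    · show (dat8.xHom (stb _) : MulAut F8) ∈ S'
      have : ((dat8.xHom (stb _) : S8) : MulAut F8) = sT := by
        simp [GamData.xHom, dat8]
      rw [this]
      exact hT
  exact this f

theorem tA_zpow_gb (i : Fin 4) (n : ℤ) : (tA i ^ n) (gb i) = gb i * ga i ^ n := by
  have hfix : ∀ n : ℤ, (tA i ^ n) (ga i) = ga i := by
    intro n
    have h1 : tA i ∈ MulAction.stabilizer (MulAut F8) (ga i) := tA_ga i i
    exact (MulAction.stabilizer (MulAut F8) (ga i)).zpow_mem h1 n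
  induction n using Int.induction_on with
  | zero => simp
  | succ n ih =>
    rw [zpow_add, zpow_one, MulAut.mul_apply, tA_gb, if_pos rfl, map_mul, ih, hfix, zpow_add,
      zpow_one, mul_assoc]
  | pred n ih =>
    rw [zpow_sub, zpow_one, MulAut.mul_apply]
    have h2 : (tA i)⁻¹ (gb i) = gb i * (ga i)⁻¹ := by
      show (tA i).symm (gb i) = _
      rw [MulEquiv.symm_apply_eq, map_mul, map_inv, tA_ga, tA_gb, if_pos rfl]
      simp
    rw [h2, map_mul, map_inv, ih, hfix, zpow_sub, zpow_one, mul_assoc]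

/-- Detection: an element acting as an inner automorphism after every homomorphism killing the
boundary word is trivial. -/
theorem detect (x : Gam F2)
    (h : ∀ (K : Type) [Group K] (ρ : F8 →* K), ρ bd = 1 →
      ∃ k : K, ∀ f, ρ ((dat8.hom x : MulAut F8) f) = k * ρ f * k⁻¹) : x = 1 := by
  obtain ⟨y, z⟩ := x
  have hx : ∀ f, (dat8.hom (y, z) : MulAut F8) f =
      (dat8.xHom y : MulAut F8) ((tA 0 ^ z.1.toAdd) ((tA 3 ^ z.2.toAdd) f)) := by
    intro f
    rw [GamData.hom_apply, GamData.zHom_apply]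
    rfl
  -- the central part is trivial
  have hfix : ∀ (k : Fin 4) (n : ℤ) (g : F8), tA k g = g → (tA k ^ n) g = g := by
    intro k n g hg
    exact (MulAction.stabilizer (MulAut F8) g).zpow_mem hg n
  have hbd : ∀ i, chi i bd = 1 := by
    intro i
    simp [bd, map_gc_comm]
  have hz1 : z.1.toAdd = 0 := by
    obtain ⟨k, hk⟩ := h _ (chi 0) (hbd 0)
    have h1 := hk (gb 0)
    rw [hx, chi_inv_aux (by decide) (by decide), hfix 3 _ (gb 0) (by simp [tA_gb]),
      tA_zpow_gb] at h1
    have h2 : chi 0 (gb 0) = 1 := by simp [chi]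
    have h3 : chi 0 (ga 0) = Multiplicative.ofAdd 1 := by simp [chi]
    rw [map_mul, map_zpow, h2, h3, one_mul, mul_one, mul_inv_cancel] at h1
    have h4 := congrArg Multiplicative.toAdd h1
    simpa using h4
  have hz2 : z.2.toAdd = 0 := by
    obtain ⟨k, hk⟩ := h _ (chi 3) (hbd 3)
    have h1 := hk (gb 3)
    rw [hx, chi_inv_aux (by decide) (by decide), tA_zpow_gb,
      hfix 0 _ _ (by simp [tA_gb])] at h1
    have h2 : chi 3 (gb 3) = 1 := by simp [chi]
    have h3 : chi 3 (ga 3) = Multiplicative.ofAdd 1 := by simp [chi]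
    rw [map_mul, map_zpow, h2, h3, one_mul, mul_one, mul_inv_cancel] at h1
    have h4 := congrArg Multiplicative.toAdd h1
    simpa using h4
  have hz : z = 1 := Prod.ext (Multiplicative.toAdd.injective hz1) (Multiplicative.toAdd.injective hz2)
  subst hz
  have hx' : ∀ f, (dat8.hom (y, 1) : MulAut F8) f = (dat8.xHom y : MulAut F8) f := by
    intro f
    rw [hx]
    rfl
  have hT := all_mem_TT y
  -- the key relations
  have hkey : ∀ e, ∃ k : WW, ∀ f, qH y (rho e f) = k * rho (bH y e) f * k⁻¹ := by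
    intro e
    obtain ⟨k, hk⟩ := h _ (rho (bH y e)) (rho_bd _)
    refine ⟨k, fun f => ?_⟩
    rw [← hk, hx']
    exact (hT e f).symm
  -- the group element acts trivially on `ℤ⁴`
  have hq : pm y.right = 1 := by
    obtain ⟨k, hk⟩ := hkey 1
    have h1 : ∀ m : M4, (∃ f, rho 1 f = inr m ∧ rho (bH y 1) f = inr m) → pm y.right m = m := by
      rintro m ⟨f, hf1, hf2⟩
      have h2 := hk f
      rw [hf1, hf2, qH_right, fzAut_inr] at h2
      have h3 := congrArg (rightHom (φ := ltr M4)) h2
      rw [map_mul, map_mul, map_inv, rightHom_inr, rightHom_inr, mul_comm (rightHom k),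
        mul_inv_cancel_right] at h3
      exact h3
    have e1 := h1 ((Multiplicative.ofAdd 1, 1), 1) ⟨ga 1, by rw [rho_ga]; rfl, by rw [rho_ga]; rfl⟩
    have e2 := h1 ((1, Multiplicative.ofAdd 1), 1) ⟨gb 1, by rw [rho_gb]; rfl, by rw [rho_gb]; rfl⟩
    have e3 := h1 (1, (Multiplicative.ofAdd 1, 1)) ⟨ga 2, by rw [rho_ga]; rfl, by rw [rho_ga]; rfl⟩
    have e4 := h1 (1, (1, Multiplicative.ofAdd 1)) ⟨gb 2, by rw [rho_gb]; rfl, by rw [rho_gb]; rfl⟩
    ext m : 1
    obtain ⟨⟨a, b⟩, ⟨c, d⟩⟩ := m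
    have hm : (((a, b), (c, d)) : M4) = ((Multiplicative.ofAdd 1, 1), 1) ^ a.toAdd *
        ((1, Multiplicative.ofAdd 1), 1) ^ b.toAdd * (1, (Multiplicative.ofAdd 1, 1)) ^ c.toAdd *
        (1, (1, Multiplicative.ofAdd 1)) ^ d.toAdd := by
      refine Prod.ext (Prod.ext ?_ ?_) (Prod.ext ?_ ?_) <;>
      · apply Multiplicative.toAdd.injective
        simp
    rw [hm, map_mul, map_mul, map_mul, map_zpow, map_zpow, map_zpow, map_zpow, e1, e2, e3, e4]
    rfl
  have hr : y.right = 1 := by
    apply pm_injective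
    simp only [hq, map_one]
  have hQ : qH y = 1 := by
    rw [qH_right, hr, map_one, map_one]
  -- the conjugating elements are central, hence trivial
  have hB : ∀ e, bH y e = e := by
    intro e
    obtain ⟨k, hk⟩ := hkey e
    rw [hQ] at hk
    have hk1 : ∀ i, i ≠ 0 → k * rho e (ga i) = rho e (ga i) * k := by
      intro i hi
      have h1 := hk (ga i)
      rw [MulAut.one_apply, rho_ga_ne (bH y e) e hi] at h1
      conv_rhs => rw [h1]
      simp
    have hk2 : ∀ i, k * rho e (gb i) = rho e (gb i) * k := by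
      intro i
      have h1 := hk (gb i)
      rw [MulAut.one_apply, rho_gb_eq (bH y e) e] at h1
      conv_rhs => rw [h1]
      simp
    have hk3 : k = 1 := by
      apply fz_center M4_nontrivial
      · rintro ⟨⟨a, b⟩, ⟨c, d⟩⟩
        have hm : (((a, b), (c, d)) : M4) = ((Multiplicative.ofAdd 1, 1), 1) ^ a.toAdd *
            ((1, Multiplicative.ofAdd 1), 1) ^ b.toAdd * (1, (Multiplicative.ofAdd 1, 1)) ^ c.toAdd *
            (1, (1, Multiplicative.ofAdd 1)) ^ d.toAdd := by
          refine Prod.ext (Prod.ext ?_ ?_) (Prod.ext ?_ ?_) <;>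
          · apply Multiplicative.toAdd.injective
            simp
        have c1 : Commute k (inr ((Multiplicative.ofAdd 1, 1), 1)) := by
          have := hk1 1 (by decide)
          rw [rho_ga] at this
          exact this
        have c2 : Commute k (inr ((1, Multiplicative.ofAdd 1), 1)) := by
          have := hk2 1
          rw [rho_gb] at this
          exact this
        have c3 : Commute k (inr (1, (Multiplicative.ofAdd 1, 1))) := by
          have := hk1 2 (by decide)
          rw [rho_ga] at this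
          exact this
        have c4 : Commute k (inr (1, (1, Multiplicative.ofAdd 1))) := by
          have := hk2 2
          rw [rho_gb] at this
          exact this
        rw [hm, map_mul, map_mul, map_mul, map_zpow, map_zpow, map_zpow, map_zpow]
        exact (((c1.zpow_right _).mul_right (c2.zpow_right _)).mul_right
          (c3.zpow_right _)).mul_right (c4.zpow_right _)
      · have := hk1 3 (by decide)
        rw [rho_ga] at this
        exact this
    have h1 := hk (ga 0)
    rw [hk3, rho_ga, rho_ga, MulAut.one_apply] at h1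
    simpa using h1.symm
  -- conclusion
  have hy : y = inl y.left := by
    refine SemidirectProduct.ext (by simp) ?_
    rw [hr]
    simp
  rw [hy] at hB
  have h1 : (inl (FreeGroup.map (fun p => pm p m0) y.left) : WW) = 1 := by
    apply fz_center M4_nontrivial
    · intro m
      have h2 := hB (inr m)
      rw [bH_inl, MulAut.conj_apply] at h2
      rw [← mul_inv_eq_iff_eq_mul]
      exact h2
    · have h2 := hB (stb M4)
      rw [bH_inl, MulAut.conj_apply] at h2
      rw [← mul_inv_eq_iff_eq_mul]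
      exact h2
  have h2 : FreeGroup.map (fun p => pm p m0) y.left = 1 := inl_injective (h1.trans (map_one _).symm)
  have h3 : y.left = 1 := FreeGroup.map_injective pm_injective (h2.trans (map_one _).symm)
  rw [hy, h3, map_one]
  rfl

end Pool.Agent.Helper55
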