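import Mathlib

/-!
# Surface groups and mapping class groups

The mapping class group of the closed orientable surface of genus `g` is modelled, by the
Dehn-Nielsen-Baer theorem, as the group of orientation preserving outer automorphisms of the
surface group.
-/

set_option autoImplicit false

namespace Pool.Agent.Helper55

open scoped commutatorElement

/-- The relator `[a₀,b₀][a₁,b₁]...[a_{g-1},b_{g-1}]` of the surface group of genus `g`, in the free
group on the generators `a i = (i, false)` and `b i = (i, true)`. -/
def surfaceRelator (g : ℕ) : FreeGroup (Fin g × Bool) :=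
  (List.ofFn fun i : Fin g => ⁅FreeGroup.of (i, false), FreeGroup.of (i, true)⁆).prod

/-- The fundamental group `π_g` of the closed orientable surface of genus `g`: generators
`a i = (i, false)` and `b i = (i, true)` for `i < g` and the single relator
`[a₀,b₀]...[a_{g-1},b_{g-1}]`. -/
def SurfaceGroup (g : ℕ) : Type := PresentedGroup {surfaceRelator g}

/-- The group structure of the surface group. -/
instance instGroupSurface (g : ℕ) : Group (SurfaceGroup g) :=
  instGroupPresentedGroup {surfaceRelator g}

/-- The generator `a i` of the surface group. -/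
def surfA {g : ℕ} (i : Fin g) : SurfaceGroup g := PresentedGroup.of (i, false)

/-- The generator `b i` of the surface group. -/
def surfB {g : ℕ} (i : Fin g) : SurfaceGroup g := PresentedGroup.of (i, true)

/-- The intersection (cup product) pairing on `H¹(π_g, ℤ) = Hom(π_g, ℤ)`:
`ω(χ,ψ) = ∑ᵢ (χ(aᵢ)ψ(bᵢ) - χ(bᵢ)ψ(aᵢ))`. -/
def intersectionForm (g : ℕ) (χ ψ : SurfaceGroup g →* Multiplicative ℤ) : ℤ :=
  ∑ i : Fin g, ((χ (surfA i)).toAdd * (ψ (surfB i)).toAdd -
    (χ (surfB i)).toAdd * (ψ (surfA i)).toAdd)

/-- The group `Aut⁺(π_g)` of orientation preserving automorphisms of the surface group: those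
preserving (rather than negating) the intersection pairing on `H¹`, i.e. acting trivially on
`H₂(π_g, ℤ) = ℤ`. -/
def autPlus (g : ℕ) : Subgroup (MulAut (SurfaceGroup g)) where
  carrier := {φ | ∀ χ ψ : SurfaceGroup g →* Multiplicative ℤ,
    intersectionForm g (χ.comp φ.toMonoidHom) (ψ.comp φ.toMonoidHom) = intersectionForm g χ ψ}
  one_mem' := fun _ _ => rfl
  mul_mem' := fun {a b} ha hb χ ψ => by
    have h := hb (χ.comp a.toMonoidHom) (ψ.comp a.toMonoidHom)
    rw [ha] at h
    exact h
  inv_mem' := fun {a} ha χ ψ => by
    have h := ha (χ.comp (a⁻¹).toMonoidHom) (ψ.comp (a⁻¹).toMonoidHom)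
    rw [← h]
    congr 1
    · exact MonoidHom.ext fun x => congrArg χ (a.symm_apply_apply x)
    · exact MonoidHom.ext fun x => congrArg ψ (a.symm_apply_apply x)

/-- The subgroup `Inn(π_g)` of inner automorphisms, as a subgroup of `Aut⁺(π_g)`. -/
def innPlus (g : ℕ) : Subgroup (autPlus g) :=
  (MulAut.conj : SurfaceGroup g →* MulAut (SurfaceGroup g)).range.subgroupOf (autPlus g)

/-- The inner automorphisms form a normal subgroup. -/
instance innPlus_normal (g : ℕ) : (innPlus g).Normal where
  conj_mem := by
    rintro ψ ⟨x, hx⟩ φ
    have hx' : MulAut.conj x = (ψ : MulAut (SurfaceGroup g)) := hx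
    refine ⟨(φ : MulAut (SurfaceGroup g)) x, ?_⟩
    ext y
    show _ = (φ : MulAut (SurfaceGroup g)) ((ψ : MulAut (SurfaceGroup g))
      ((φ : MulAut (SurfaceGroup g))⁻¹ y))
    rw [← hx']
    simp

/-- The mapping class group `Mod_g ≅ Out⁺(π_g)` of the closed orientable surface of genus `g`
(Dehn-Nielsen-Baer): orientation preserving automorphisms of `π_g` modulo inner automorphisms. -/
def ModGroup (g : ℕ) : Type := autPlus g ⧸ innPlus g

/-- The group structure of the mapping class group. -/
instance instGroupMod (g : ℕ) : Group (ModGroup g) := QuotientGroup.Quotient.group (innPlus g)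

end Pool.Agent.Helper55
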