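import Mathlib
import Pool.Agent.Helper55.AMachine2
import Pool.Agent.Helper55.AffPres

/-!
# A finitely presented group with undecidable word problem
-/

set_option autoImplicit false
set_option linter.unusedSectionVars false

namespace Pool.Agent.Helper55

open scoped commutatorElement
open StateTransition

theorem Xp_single {κ : Type} [Fintype κ] [DecidableEq κ] {Q : Type*} [Group Q] (x : κ → Q)
    (i : κ) (n : ℤ) : Xp x (Pi.single i n) = x i ^ n := by
  unfold Xp
  have hmem : i ∈ (Finset.univ : Finset κ).toList := by simp
  have hnd := (Finset.univ : Finset κ).nodup_toList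
  generalize (Finset.univ : Finset κ).toList = l at hmem hnd
  have h0 : ∀ l : List κ, i ∉ l →
      (l.map fun j => x j ^ (Pi.single i n : κ → ℤ) j).prod = 1 := by
    intro l hl
    refine List.prod_eq_one ?_
    intro y hy
    obtain ⟨j, hj, rfl⟩ := List.mem_map.1 hy
    have : j ≠ i := fun h => hl (h ▸ hj)
    simp [this]
  induction l with
  | nil => simp at hmem
  | cons a l ih =>
    rw [List.nodup_cons] at hnd
    rw [List.map_cons, List.prod_cons]
    by_cases ha : a = i
    · subst ha
      rw [h0 l hnd.1]
      simp
    · have hmem' : i ∈ l := by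
        rcases List.mem_cons.1 hmem with h | h
        · exact absurd h.symm ha
        · exact h
      rw [ih hmem' hnd.2]
      simp [ha]

section Machine

variable {Q K : Type} [DecidableEq K] [Fintype K] (A : AM Q K) (T : Finset Q)
  (code : Option Q → ℤ)

/-- Encoding of configurations as integer vectors. -/
def encV (a : Option Q × (K → ℤ)) : Option K → ℤ
  | none => code a.1
  | some j => a.2 j

/-- The index set of the rules. -/
abbrev RIdx : Type := (T × Fin A.m) ⊕ K

/-- First multipliers. -/
def rp₁ : RIdx A T → Option K → ℤ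
  | .inl _, none => 0
  | .inl (q, _), some j => if j = A.rd q then A.m else 1
  | .inr _, none => 0
  | .inr _, some _ => 1

/-- First offsets. -/
def ru₁ : RIdx A T → Option K → ℤ
  | .inl (q, _), none => code (some q)
  | .inl (q, d), some j => if j = A.rd q then (d : ℕ) else 0
  | .inr _, none => code none
  | .inr _, some _ => 0

/-- Second multipliers. -/
def rp₂ : RIdx A T → Option K → ℤ
  | .inl _, none => 0
  | .inl (q, d), some j => if j = A.rd q then A.mul q d else 1
  | .inr _, none => 0
  | .inr _, some _ => 1

/-- Second offsets. -/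
def ru₂ : RIdx A T → Option K → ℤ
  | .inl (q, d), none => code (A.nx q d)
  | .inl (q, d), some j => if j = A.rd q then A.add q d else 0
  | .inr _, none => code none
  | .inr i, some j => if j = i then 1 else 0

/-- Valid configurations. -/
def Valid (a : Option Q × (K → ℤ)) : Prop := ∀ q, a.1 = some q → q ∈ T

/-- The set of encodings of halting valid configurations. -/
def haltSet : Set (Option K → ℤ) := {c | ∃ a, Valid T a ∧ encV code a = c ∧ A.Halts a}

variable {A T code}

theorem encV_inj (hcode : ∀ a b : Option Q, (∀ q, a = some q → q ∈ T) →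
    (∀ q, b = some q → q ∈ T) → code a = code b → a = b)
    {a b : Option Q × (K → ℤ)} (ha : Valid T a) (hb : Valid T b)
    (h : encV code a = encV code b) : a = b := by
  refine Prod.ext ?_ ?_
  · exact hcode _ _ ha hb (congrFun h none)
  · funext j
    exact congrFun h (some j)

theorem mem_haltSet_iff (hcode : ∀ a b : Option Q, (∀ q, a = some q → q ∈ T) →
    (∀ q, b = some q → q ∈ T) → code a = code b → a = b)
    {a : Option Q × (K → ℤ)} (ha : Valid T a) :
    encV code a ∈ haltSet A T code ↔ A.Halts a := by
  constructor
  · rintro ⟨b, hb, hab, hh⟩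
    rw [← encV_inj hcode hb ha hab]
    exact hh
  · intro h
    exact ⟨a, ha, rfl, h⟩

/-- The rule applied to a configuration. -/
theorem rule_apply (q : Q) (hq : q ∈ T) (s : K → ℤ) :
    ∃ (i : RIdx A T) (x : Option K → ℤ),
      encV code (some q, s) = ru₁ A T code i + rp₁ A T i * x ∧
      encV code (A.nx q (A.digit q s), A.upd q s) = ru₂ A T code i + rp₂ A T i * x := by
  have hm : (0 : ℤ) < A.m := by exact_mod_cast A.hm
  have hd : A.digit q s < A.m := by
    unfold AM.digit
    have h1 := Int.emod_lt_of_pos (s (A.rd q)) hm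
    have h2 := Int.emod_nonneg (s (A.rd q)) hm.ne'
    omega
  have hd2 : (A.digit q s : ℤ) = s (A.rd q) % A.m := by
    unfold AM.digit
    rw [Int.toNat_of_nonneg (Int.emod_nonneg _ hm.ne')]
  refine ⟨.inl (⟨q, hq⟩, ⟨A.digit q s, hd⟩), fun j => match j with
    | none => 0
    | some j => if j = A.rd q then s j / A.m else s j, ?_, ?_⟩
  · funext j
    cases j with
    | none => simp [encV, ru₁, rp₁]
    | some j =>
      by_cases hj : j = A.rd q
      · subst hj
        simp only [encV, ru₁, rp₁, Pi.add_apply, Pi.mul_apply, if_true, hd2]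
        rw [Int.emod_add_mul_ediv]
      · simp [encV, ru₁, rp₁, hj]
  · funext j
    cases j with
    | none => simp [encV, ru₂, rp₂]
    | some j =>
      by_cases hj : j = A.rd q
      · subst hj
        simp only [encV, ru₂, rp₂, Pi.add_apply, Pi.mul_apply, if_true, AM.upd,
          Function.update_self]
        ring
      · simp [encV, ru₂, rp₂, hj, AM.upd]

theorem haltSet_rule (hT : ∀ q ∈ T, ∀ d q', A.nx q d = some q' → q' ∈ T)
    (hcode : ∀ a b : Option Q, (∀ q, a = some q → q ∈ T) →
    (∀ q, b = some q → q ∈ T) → code a = code b → a = b)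
    (i : RIdx A T) (x : Option K → ℤ) (_hx : ∀ j, rp₁ A T i j = 0 → x j = 0) :
    ru₁ A T code i + rp₁ A T i * x ∈ haltSet A T code ↔
    ru₂ A T code i + rp₂ A T i * x ∈ haltSet A T code := by
  have hm : (0 : ℤ) < A.m := by exact_mod_cast A.hm
  rcases i with ⟨⟨q, hq⟩, d⟩ | i
  · set s : K → ℤ := fun j => (ru₁ A T code (.inl (⟨q, hq⟩, d)) + rp₁ A T (.inl (⟨q, hq⟩, d)) * x) (some j)
      with hs
    have hs1 : s (A.rd q) = (d : ℕ) + A.m * x (some (A.rd q)) := by
      simp [hs, ru₁, rp₁]
    have hs2 : ∀ j, j ≠ A.rd q → s j = x (some j) := by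
      intro j hj
      simp [hs, ru₁, rp₁, hj]
    have hd : A.digit q s = d := by
      unfold AM.digit
      rw [hs1, Int.add_mul_emod_self_left, Int.emod_eq_of_lt (by positivity) (by exact_mod_cast d.2)]
      simp
    have hdiv : s (A.rd q) / A.m = x (some (A.rd q)) := by
      rw [hs1, Int.add_mul_ediv_left _ _ hm.ne', Int.ediv_eq_zero_of_lt (by positivity)
        (by exact_mod_cast d.2), zero_add]
    have e1 : ru₁ A T code (.inl (⟨q, hq⟩, d)) + rp₁ A T (.inl (⟨q, hq⟩, d)) * x =
        encV code (some q, s) := by
      funext j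
      cases j with
      | none => simp [encV, ru₁, rp₁]
      | some j => rfl
    have e2 : ru₂ A T code (.inl (⟨q, hq⟩, d)) + rp₂ A T (.inl (⟨q, hq⟩, d)) * x =
        encV code (A.nx q (A.digit q s), A.upd q s) := by
      funext j
      cases j with
      | none => simp [encV, ru₂, rp₂, hd]
      | some j =>
        by_cases hj : j = A.rd q
        · subst hj
          simp only [encV, ru₂, rp₂, Pi.add_apply, Pi.mul_apply, if_true, AM.upd,
            Function.update_self, hd, hdiv]
          ring
        · simp [encV, ru₂, rp₂, hj, AM.upd, hs2 j hj]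
    rw [e1, e2, mem_haltSet_iff hcode, mem_haltSet_iff hcode, AM.halts_some]
    · intro q' hq'
      exact hT q hq _ _ hq'
    · intro q' hq'
      cases hq'
      exact hq
  · have e1 : ru₁ A T code (.inr i) + rp₁ A T (.inr i) * x =
        encV code (none, fun j => (ru₁ A T code (.inr i) + rp₁ A T (.inr i) * x) (some j)) := by
      funext j
      cases j with
      | none => simp [encV, ru₁, rp₁]
      | some j => rfl
    have e2 : ru₂ A T code (.inr i) + rp₂ A T (.inr i) * x =
        encV code (none, fun j => (ru₂ A T code (.inr i) + rp₂ A T (.inr i) * x) (some j)) := by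
      funext j
      cases j with
      | none => simp [encV, ru₂, rp₂]
      | some j => rfl
    rw [e1, e2, mem_haltSet_iff hcode, mem_haltSet_iff hcode]
    · exact iff_of_true (AM.halts_none A _) (AM.halts_none A _)
    · intro q' hq'; cases hq'
    · intro q' hq'; cases hq'

/-- The relators attached to the machine. -/
abbrev mRels (A : AM Q K) (T : Finset Q) (code : Option Q → ℤ) :
    Set (FreeGroup (Gen (Option K) (RIdx A T))) :=
  affRels (rp₁ A T) (rp₂ A T) (ru₁ A T code) (ru₂ A T code) (encV code (none, 0))

theorem commWord_none (s : K → ℤ) :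
    commWord (encV code (none, s)) ∈ Subgroup.normalClosure (mRels A T code) := by
  let V : AddSubgroup (K → ℤ) :=
    { carrier := {v | ∀ s, commWord (encV code (none, s)) ∈ Subgroup.normalClosure (mRels A T code) ↔
        commWord (encV code (none, s + v)) ∈ Subgroup.normalClosure (mRels A T code)}
      zero_mem' := fun s => by rw [add_zero]
      add_mem' := fun {a b} ha hb s => by
        rw [ha s, hb (s + a), add_assoc]
      neg_mem' := fun {a} ha s => by
        have := ha (s + -a)
        rw [neg_add_cancel_right] at this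
        exact this.symm }
  have hV : ∀ j : K, Pi.single j 1 ∈ V := by
    intro i s
    have h := commWord_rule (p₁ := rp₁ A T) (p₂ := rp₂ A T) (u₁ := ru₁ A T code)
      (u₂ := ru₂ A T code) (h₀ := encV code (none, 0)) (.inr i)
      (fun j => match j with
        | none => 0
        | some j => s j)
    have e1 : (ru₁ A T code (.inr i) + rp₁ A T (.inr i) * (fun j => match j with
        | none => 0
        | some j => s j) : Option K → ℤ) = encV code (none, s) := by
      funext j
      cases j with
      | none => simp [encV, ru₁, rp₁]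
      | some j => simp [encV, ru₁, rp₁]
    have e2 : (ru₂ A T code (.inr i) + rp₂ A T (.inr i) * (fun j => match j with
        | none => 0
        | some j => s j) : Option K → ℤ) = encV code (none, s + Pi.single i 1) := by
      funext j
      cases j with
      | none => simp [encV, ru₂, rp₂]
      | some j =>
        simp only [encV, ru₂, rp₂, Pi.add_apply, Pi.mul_apply, one_mul, Pi.single_apply]
        ring
    rw [e1, e2] at h
    exact h
  have hs : s ∈ V := by
    rw [← Finset.univ_sum_single s]
    refine V.sum_mem fun j _ => ?_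
    have : Pi.single j (s j) = s j • (Pi.single j 1 : K → ℤ) := by
      rw [← Pi.single_smul]; simp
    rw [this]
    exact V.zsmul_mem (hV j) _
  have h := (hs 0).1 commWord_h₀
  rwa [zero_add] at h

theorem commWord_of_halts (hT : ∀ q ∈ T, ∀ d q', A.nx q d = some q' → q' ∈ T)
    {a : Option Q × (K → ℤ)} (ha : Valid T a) (h : A.Halts a) :
    commWord (encV code a) ∈ Subgroup.normalClosure (mRels A T code) := by
  obtain ⟨b, hb⟩ := Part.dom_iff_mem.1 h
  rw [mem_eval] at hb
  obtain ⟨h1, h2⟩ := hb
  revert ha
  refine Relation.ReflTransGen.head_induction_on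
    (motive := fun a _ => Valid T a → commWord (encV code a) ∈ Subgroup.normalClosure (mRels A T code))
    h1 ?_ ?_
  · intro _
    obtain ⟨o, s⟩ := b
    cases o with
    | none => exact commWord_none s
    | some q => simp at h2
  · intro a c hac _ ih ha
    obtain ⟨o, s⟩ := a
    cases o with
    | none => simp at hac
    | some q =>
      have hc : c = (A.nx q (A.digit q s), A.upd q s) := by
        simp only [AM.step_some, Option.mem_def, Option.some.injEq] at hac
        exact hac.symm
      subst hc
      have hq : q ∈ T := ha q rfl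
      obtain ⟨i, x, e1, e2⟩ := rule_apply (A := A) (code := code) q hq s
      have hv : Valid T (A.nx q (A.digit q s), A.upd q s) := fun q' hq' => hT q hq _ _ hq'
      have h3 := ih hv
      rw [e2] at h3
      rw [e1]
      exact (commWord_rule i x).2 h3

theorem commWord_iff_halts (hT : ∀ q ∈ T, ∀ d q', A.nx q d = some q' → q' ∈ T)
    (hcode : ∀ a b : Option Q, (∀ q, a = some q → q ∈ T) →
    (∀ q, b = some q → q ∈ T) → code a = code b → a = b)
    (hmul : ∀ q d, A.mul q d ≠ 0)
    {a : Option Q × (K → ℤ)} (ha : Valid T a) :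
    commWord (encV code a) ∈ Subgroup.normalClosure (mRels A T code) ↔ A.Halts a := by
  constructor
  · intro h
    rw [← mem_haltSet_iff hcode ha]
    refine mem_of_commWord ?_ (haltSet A T code) ?_ (haltSet_rule hT hcode) h
    · have hm : (A.m : ℤ) ≠ 0 := by exact_mod_cast A.hm.ne'
      rintro (⟨q, d⟩ | i) (_ | j)
      · simp [rp₁, rp₂]
      · by_cases hj : j = A.rd q
        · simp [rp₁, rp₂, hj, hmul, A.hm.ne']
        · simp [rp₁, rp₂, hj]
      · simp [rp₁, rp₂]
      · simp [rp₁, rp₂]
    · rw [mem_haltSet_iff hcode]
      · exact AM.halts_none A _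
      · intro q hq; cases hq
  · exact commWord_of_halts hT ha

end Machine

open Turing in
instance : Fintype PartrecToTM2.K' :=
  ⟨{PartrecToTM2.K'.main, PartrecToTM2.K'.rev, PartrecToTM2.K'.aux, PartrecToTM2.K'.stack},
    fun x => by cases x <;> simp⟩

/-- Words in a fixed shape with undecidable triviality problem in a finitely presented group. -/
theorem exists_fp_undecidable : ∃ (X : Type) (_ : Fintype X) (_ : DecidableEq X)
    (R : Set (FreeGroup X)) (a y τ : FreeGroup X) (e : ℕ → ℕ), R.Finite ∧ Primrec e ∧
    ¬ ComputablePred (fun n : ℕ => ⁅a, y ^ e n * τ * (y ^ e n)⁻¹⁆ ∈ Subgroup.normalClosure R) := by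
  classical
  obtain ⟨T, q₀, hq₀, hT, hund⟩ := exists_machine
  obtain ⟨f, hf⟩ : ∃ f : Option SimTM2.QS → ℕ, Set.InjOn f (Finset.insertNone T : Set _) :=
    Set.countable_iff_exists_injOn.1 (Finset.countable_toSet _)
  let code : Option SimTM2.QS → ℤ := fun a => f a
  have hcode : ∀ a b : Option SimTM2.QS, (∀ q, a = some q → q ∈ T) →
      (∀ q, b = some q → q ∈ T) → code a = code b → a = b := by
    intro a b ha hb hab
    have hab' : ((f a : ℕ) : ℤ) = (f b : ℕ) := hab
    refine hf ?_ ?_ (by exact_mod_cast hab')
    · rw [Finset.mem_coe, Finset.mem_insertNone]; exact ha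
    · rw [Finset.mem_coe, Finset.mem_insertNone]; exact hb
  let c₀ : Option Turing.PartrecToTM2.K' → ℤ := encV code (some q₀, 0)
  refine ⟨Gen (Option Turing.PartrecToTM2.K') (RIdx SimTM2.mach T), inferInstance, inferInstance,
    mRels SimTM2.mach T code, fk, fx (some Turing.PartrecToTM2.K'.main),
    Tp fx ft c₀, SimTM2.inp, affRels_finite _ _ _ _ _, SimTM2.primrec_inp, ?_⟩
  intro hcomp
  apply hund
  refine hcomp.of_eq fun n => ?_
  have hv : Valid T ((some q₀, Function.update (fun _ => 0) Turing.PartrecToTM2.K'.main
      (SimTM2.inp n : ℤ)) : Option SimTM2.QS × (Turing.PartrecToTM2.K' → ℤ)) := by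
    intro q hq
    cases hq
    exact hq₀
  rw [← commWord_iff_halts hT hcode (fun q d => (SimTM2.mach.hmul q d).ne') hv]
  rw [commWord_mem_iff, ← PresentedGroup.mk_eq_one_iff, map_commutatorElement,
    commutatorElement_eq_one_iff_commute, map_mul, map_mul, map_inv, map_pow, map_Tp]
  set R := mRels SimTM2.mach T code with hR
  have hx : ∀ i j, Commute (PresentedGroup.of (rels := R) (Gen.x i))
      (PresentedGroup.of (rels := R) (Gen.x j)) := by
    intro a b
    rw [← commutatorElement_eq_one_iff_commute]
    have h : PresentedGroup.mk R ⁅(fx a : FreeGroup (Gen _ _)), (fx b : FreeGroup (Gen _ _))⁆ = 1 :=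
      PresentedGroup.one_of_mem (mem_affRels.2 (AffRel.xx a b))
    rw [map_commutatorElement] at h
    exact h
  have e1 : encV code ((some q₀, Function.update (fun _ => 0) Turing.PartrecToTM2.K'.main
      (SimTM2.inp n : ℤ)) : Option SimTM2.QS × (Turing.PartrecToTM2.K' → ℤ)) =
      c₀ + Pi.single (some Turing.PartrecToTM2.K'.main) (SimTM2.inp n : ℤ) := by
    funext j
    cases j with
    | none => simp [encV, c₀]
    | some j =>
      by_cases hj : j = Turing.PartrecToTM2.K'.main
      · subst hj
        simp [encV, c₀]
      · simp [encV, c₀, hj]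
  rw [e1, Tp_add hx]
  have e2 : Xp (fun j => PresentedGroup.of (rels := R) (Gen.x j))
      (Pi.single (some Turing.PartrecToTM2.K'.main) (SimTM2.inp n : ℤ)) =
      (PresentedGroup.mk R (fx (some Turing.PartrecToTM2.K'.main))) ^ SimTM2.inp n := by
    rw [Xp_single, zpow_natCast]
    rfl
  rw [e2]
  rfl

end Pool.Agent.Helper55
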