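import Mathlib

/-!
# Words and the subgroups generated by them
-/

set_option autoImplicit false

namespace Pool.Agent.Helper55

/-- The element of `M` represented by a word in the letters `S i` and their inverses
(`(i, true)` stands for `S i` and `(i, false)` for its inverse). -/
def evalWord {k : ℕ} {M : Type} [Group M] (S : Fin k → M) (w : List (Fin k × Bool)) : M :=
  FreeGroup.lift S (FreeGroup.mk w)

/-- The subgroup generated by the elements represented by a finite list of words. -/
def subgroupOf {k : ℕ} {M : Type} [Group M] (S : Fin k → M) (ws : List (List (Fin k × Bool))) :
    Subgroup M :=
  Subgroup.closure {x | ∃ w ∈ ws, evalWord S w = x}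

end Pool.Agent.Helper55
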