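import Mathlib
import Pool.Agent.Helper55.FPUndec
import Pool.Agent.Helper55.HSub
import Pool.Agent.Helper55.WordDefs

/-!
# Undecidability of splitting problems for finitely generated subgroups
-/

set_option autoImplicit false
set_option linter.unusedSectionVars false

namespace Pool.Agent.Helper55

open SemidirectProduct Monoid
open scoped commutatorElement

section Words

variable {k : ℕ} {M : Type} [Group M] {S : Fin k → M}

/-- A sequence of group elements represented by a computable sequence of words. -/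
def CW (S : Fin k → M) (φ : ℕ → M) : Prop :=
  ∃ f : ℕ → List (Fin k × Bool), Computable f ∧ ∀ n, evalWord S (f n) = φ n

theorem exists_word {c : M} (hc : c ∈ Subgroup.closure (Set.range S)) :
    ∃ w, evalWord S w = c := by
  rw [← FreeGroup.range_lift_eq_closure] at hc
  obtain ⟨x, rfl⟩ := hc
  exact ⟨x.toWord, by rw [evalWord, FreeGroup.mk_toWord]⟩

theorem CW.const {c : M} (hc : c ∈ Subgroup.closure (Set.range S)) : CW S fun _ => c := by
  obtain ⟨w, hw⟩ := exists_word hc
  exact ⟨fun _ => w, Computable.const w, fun _ => hw⟩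

theorem CW.mul {φ ψ : ℕ → M} (h₁ : CW S φ) (h₂ : CW S ψ) : CW S fun n => φ n * ψ n := by
  obtain ⟨f, hf, hf'⟩ := h₁
  obtain ⟨g, hg, hg'⟩ := h₂
  refine ⟨fun n => f n ++ g n, Primrec.list_append.to_comp.comp hf hg, fun n => ?_⟩
  show _ = φ n * ψ n
  rw [evalWord, ← FreeGroup.mul_mk, map_mul, ← hf', ← hg']
  rfl

theorem CW.inv {φ : ℕ → M} (h₁ : CW S φ) : CW S fun n => (φ n)⁻¹ := by
  obtain ⟨f, hf, hf'⟩ := h₁
  refine ⟨fun n => FreeGroup.invRev (f n), ?_, fun n => ?_⟩
  · have : Primrec (FreeGroup.invRev : List (Fin k × Bool) → List (Fin k × Bool)) := by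
      unfold FreeGroup.invRev
      refine Primrec.list_reverse.comp ?_
      refine Primrec.list_map Primrec.id ?_
      exact (Primrec.pair (Primrec.fst.comp Primrec.snd)
        (Primrec.not.comp (Primrec.snd.comp Primrec.snd)))
    exact this.to_comp.comp hf
  · show _ = (φ n)⁻¹
    rw [evalWord, ← FreeGroup.inv_mk, map_inv, ← hf']
    rfl

theorem CW.comm {φ ψ : ℕ → M} (h₁ : CW S φ) (h₂ : CW S ψ) : CW S fun n => ⁅φ n, ψ n⁆ := by
  simp only [commutatorElement_def]
  exact ((h₁.mul h₂).mul h₁.inv).mul h₂.inv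

theorem CW.pow {c : M} (hc : c ∈ Subgroup.closure (Set.range S)) {e : ℕ → ℕ} (he : Primrec e) :
    CW S fun n => c ^ e n := by
  obtain ⟨w, hw⟩ := exists_word hc
  refine ⟨fun n => Nat.rec (motive := fun _ => List (Fin k × Bool)) [] (fun _ l => w ++ l) (e n),
    ?_, fun n => ?_⟩
  · refine Primrec.to_comp ?_
    refine Primrec.nat_rec' (h := fun (_ : ℕ) (p : ℕ × List (Fin k × Bool)) => w ++ p.2) he
      (Primrec.const []) ?_
    exact Primrec.list_append.comp (Primrec.const w) (Primrec.snd.comp Primrec.snd)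
  · show evalWord S (Nat.rec (motive := fun _ => List (Fin k × Bool)) [] (fun _ l => w ++ l) (e n)) =
      c ^ e n
    generalize e n = m
    induction m with
    | zero => rw [pow_zero]; exact map_one (FreeGroup.lift S)
    | succ m ih =>
      show evalWord S (w ++ Nat.rec (motive := fun _ => List (Fin k × Bool)) []
        (fun _ l => w ++ l) m) = _
      rw [evalWord, ← FreeGroup.mul_mk, map_mul, pow_succ', ← ih, ← hw]
      rfl

end Words

section Embed

/-- The embedding of the free group of countable rank in the free group of rank two. -/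
def embZ : FreeGroup ℤ →* FreeGroup (Fin 2) :=
  FreeGroup.lift fun i => (FreeGroup.of 0) ^ i * FreeGroup.of 1 * ((FreeGroup.of 0) ^ i)⁻¹

theorem embZ_injective : Function.Injective embZ := by
  let f : FreeGroup (Fin 2) →* FZ (Multiplicative ℤ) :=
    FreeGroup.lift ![inr (Multiplicative.ofAdd 1), stb _]
  have h : f.comp embZ = inl.comp (FreeGroup.map Multiplicative.ofAdd) := by
    ext i : 1
    simp only [MonoidHom.comp_apply, embZ, FreeGroup.lift_apply_of, map_mul, map_zpow, map_inv, f,
      Matrix.cons_val_zero, Matrix.cons_val_one]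
    rw [← map_zpow, inr_mul_stb, FreeGroup.map.of]
    congr 2
    apply Multiplicative.toAdd.injective
    simp
  have h2 : Function.Injective (f.comp embZ) := by
    rw [h]
    exact inl_injective.comp (FreeGroup.map_injective Multiplicative.ofAdd.injective)
  exact Function.Injective.of_comp (f := f) h2

theorem exists_embed (Y : Type) [Countable Y] :
    ∃ j : FreeGroup Y →* FreeGroup (Fin 2), Function.Injective j := by
  obtain ⟨f, hf⟩ := exists_injective_nat Y
  refine ⟨embZ.comp (FreeGroup.map fun y => (f y : ℤ)), embZ_injective.comp ?_⟩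
  exact FreeGroup.map_injective fun a b h => hf (by exact_mod_cast h)

theorem exists_gam_embed {F F' : Type} [Group F] [Group F'] (j : F →* F')
    (hj : Function.Injective j) : ∃ J : Gam F →* Gam F', Function.Injective J := by
  refine ⟨(fzMap (j.prodMap j)).prodMap (MonoidHom.id _), ?_⟩
  rintro ⟨a, b⟩ ⟨c, d⟩ h
  have h1 := congrArg Prod.fst h
  have h2 := congrArg Prod.snd h
  refine Prod.ext ?_ h2
  refine fzMap_injective ?_ h1
  rintro ⟨x, y⟩ ⟨x', y'⟩ h3
  have h4 := congrArg Prod.fst h3
  have h5 := congrArg Prod.snd h3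
  exact Prod.ext (hj h4) (hj h5)

end Embed

/-- The reduction. -/
theorem undecidable_of_embedding {M : Type} [Group M] (Φ₀ : Gam (FreeGroup (Fin 2)) →* M)
    (hΦ₀ : Function.Injective Φ₀) :
    ∃ E : Finset M, ∀ (k : ℕ) (S : Fin k → M), (∀ x ∈ E, x ∈ Subgroup.closure (Set.range S)) →
      (¬ ComputablePred fun ws : List (List (Fin k × Bool)) =>
        FreelyIndecomposable (subgroupOf S ws)) ∧
      (¬ ComputablePred fun ws : List (List (Fin k × Bool)) => SplitsOverZ (subgroupOf S ws)) := by
  classical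
  obtain ⟨X, hX, hX', R, a, y, τ, e, hR, he, hund⟩ := exists_fp_undecidable
  obtain ⟨j, hj⟩ := exists_embed (X ⊕ Fin 3)
  obtain ⟨J, hJ⟩ := exists_gam_embed j hj
  let Φ : Gam (FF X) →* M := Φ₀.comp J
  have hΦ : Function.Injective Φ := hΦ₀.comp hJ
  -- embeddings of the pieces
  let ιF : FF X →* Gam (FF X) := (inr.comp (MonoidHom.inl (FF X) (FF X))).prod 1
  let cz : Fin 3 → Gam (FF X) := fun i => (1, zz i)
  have hge : ∀ (w : FreeGroup X) (i : Fin 3),
      ge w i = ⁅⁅ιF (incl X w), ιF (sg X 0)⁆, ιF (sg X i)⁆ * cz i := by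
    intro w i
    rw [← map_commutatorElement, ← map_commutatorElement]
    refine Prod.ext ?_ ?_
    · show (inr (ww w i, 1) : FZ (FF X × FF X)) = inr (ww w i, 1) * 1
      rw [mul_one]
    · show zz i = 1 * zz i
      rw [one_mul]
  let consts : Finset (Gam (FF X)) :=
    (Finset.univ.image gd) ∪ (hR.toFinset.image gr) ∪ {gt X}
  let extra : Finset (Gam (FF X)) :=
    {ιF (incl X a), ιF (incl X y), ιF (incl X τ)} ∪ (Finset.univ.image fun i => ιF (sg X i)) ∪
      (Finset.univ.image cz)
  refine ⟨(consts ∪ extra).image Φ, ?_⟩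
  intro k S hS
  have hmem : ∀ x ∈ consts ∪ extra, Φ x ∈ Subgroup.closure (Set.range S) := by
    intro x hx
    exact hS _ (Finset.mem_image_of_mem _ hx)
  have hwd : ∀ x : Gam (FF X), ∃ w : List (Fin k × Bool), x ∈ consts → evalWord S w = Φ x := by
    intro x
    by_cases hx : x ∈ consts
    · obtain ⟨w, hw⟩ := exists_word (hmem x (Finset.mem_union_left _ hx))
      exact ⟨w, fun _ => hw⟩
    · exact ⟨[], fun h => absurd h hx⟩
  choose wd hwd using hwd
  let L₀ : List (List (Fin k × Bool)) := consts.toList.map wd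
  let W : ℕ → FreeGroup X := fun n => ⁅a, y ^ e n * τ * (y ^ e n)⁻¹⁆
  have hcw : ∀ i : Fin 3, CW S fun n => Φ (ge (W n) i) := by
    intro i
    have ha : Φ (ιF (incl X a)) ∈ Subgroup.closure (Set.range S) :=
      hmem _ (by simp [extra])
    have hy : Φ (ιF (incl X y)) ∈ Subgroup.closure (Set.range S) :=
      hmem _ (by simp [extra])
    have hτ : Φ (ιF (incl X τ)) ∈ Subgroup.closure (Set.range S) :=
      hmem _ (by simp [extra])
    have hs : ∀ i, Φ (ιF (sg X i)) ∈ Subgroup.closure (Set.range S) :=
      fun i => hmem _ (Finset.mem_union_right _ (Finset.mem_union_left _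
        (Finset.mem_union_right _ (Finset.mem_image_of_mem _ (Finset.mem_univ i)))))
    have hz : ∀ i, Φ (cz i) ∈ Subgroup.closure (Set.range S) :=
      fun i => hmem _ (Finset.mem_union_right _ (Finset.mem_union_right _
        (Finset.mem_image_of_mem _ (Finset.mem_univ i))))
    have h1 : CW S fun n => ⁅Φ (ιF (incl X a)), Φ (ιF (incl X y)) ^ e n * Φ (ιF (incl X τ)) *
        (Φ (ιF (incl X y)) ^ e n)⁻¹⁆ :=
      (CW.const ha).comm (((CW.pow hy he).mul (CW.const hτ)).mul (CW.pow hy he).inv)
    have h2 := ((h1.comm (CW.const (hs 0))).comm (CW.const (hs i))).mul (CW.const (hz i))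
    convert h2 using 2 with n
    rw [hge]
    simp only [W, map_mul, map_commutatorElement, map_pow, map_inv]
  obtain ⟨f₁, hf₁, hf₁'⟩ := hcw 1
  obtain ⟨f₂, hf₂, hf₂'⟩ := hcw 2
  let ws : ℕ → List (List (Fin k × Bool)) := fun n => f₁ n :: f₂ n :: L₀
  have hws : Computable ws :=
    Primrec.list_cons.to_comp.comp hf₁ (Primrec.list_cons.to_comp.comp hf₂ (Computable.const L₀))
  have hsub : ∀ n, subgroupOf S (ws n) = (HH R (W n)).map Φ := by
    intro n
    rw [subgroupOf, HH, MonoidHom.map_closure]
    congr 1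
    ext x
    constructor
    · rintro ⟨w, hw, rfl⟩
      simp only [ws, List.mem_cons] at hw
      rcases hw with rfl | rfl | hw
      · exact ⟨ge (W n) 1, HGen.e 1 (by decide), (hf₁' n).symm⟩
      · exact ⟨ge (W n) 2, HGen.e 2 (by decide), (hf₂' n).symm⟩
      · simp only [L₀, List.mem_map, Finset.mem_toList] at hw
        obtain ⟨c, hc, rfl⟩ := hw
        refine ⟨c, ?_, (hwd c hc).symm⟩
        simp only [consts, Finset.mem_union, Finset.mem_image, Finset.mem_univ, true_and,
          Set.Finite.mem_toFinset, Finset.mem_singleton] at hc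
        rcases hc with (⟨y, rfl⟩ | ⟨r, hr, rfl⟩) | rfl
        · exact HGen.d y
        · exact HGen.r r hr
        · exact HGen.t
    · rintro ⟨g, hg, rfl⟩
      have hcon : ∀ c ∈ consts, Φ c ∈ {x | ∃ w ∈ ws n, evalWord S w = x} := by
        intro c hc
        refine ⟨wd c, ?_, hwd c hc⟩
        simp only [ws, List.mem_cons]
        exact Or.inr (Or.inr (List.mem_map.2 ⟨c, Finset.mem_toList.2 hc, rfl⟩))
      rcases hg with y | ⟨r, hr⟩ | ⟨i, hi⟩ | _
      · exact hcon _ (by simp [consts])
      · refine hcon _ ?_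
        simp only [consts, Finset.mem_union, Finset.mem_image, Set.Finite.mem_toFinset]
        exact Or.inl (Or.inr ⟨r, hr, rfl⟩)
      · have : i = 1 ∨ i = 2 := by
          fin_cases i
          · exact absurd rfl hi
          · exact Or.inl rfl
          · exact Or.inr rfl
        rcases this with rfl | rfl
        · exact ⟨f₁ n, by simp [ws], hf₁' n⟩
        · exact ⟨f₂ n, by simp [ws], hf₂' n⟩
      · exact hcon _ (by simp [consts])
  have heq : ∀ n, Nonempty (HH R (W n) ≃* subgroupOf S (ws n)) := fun n =>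
    ⟨((HH R (W n)).equivMapOfInjective Φ hΦ).trans (MulEquiv.subgroupCongr (hsub n).symm)⟩
  constructor
  · intro hP
    apply hund
    obtain ⟨hdec, hcomp⟩ := hP
    have h1 : ComputablePred fun n => FreelyIndecomposable (subgroupOf S (ws n)) :=
      ⟨fun n => hdec (ws n), hcomp.comp hws⟩
    refine h1.of_eq fun n => ?_
    obtain ⟨e⟩ := heq n
    constructor
    · intro h
      by_contra hn
      exact not_fi_of_notMem hn (h.of_equiv e.symm)
    · intro h
      exact (fi_of_mem h).of_equiv e
  · intro hP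
    apply hund
    obtain ⟨hdec, hcomp⟩ := hP
    have h1 : ComputablePred fun n => SplitsOverZ (subgroupOf S (ws n)) :=
      ⟨fun n => hdec (ws n), hcomp.comp hws⟩
    refine h1.not.of_eq fun n => ?_
    obtain ⟨e⟩ := heq n
    constructor
    · intro h
      by_contra hn
      exact h ((splits_of_notMem hn).of_equiv e)
    · intro h h2
      exact not_splits_of_mem h (h2.of_equiv e.symm)

end Pool.Agent.Helper55
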