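import Mathlib
import Pool.Agent.Helper55.SurfaceDefs
import Pool.Agent.Helper55.Detect
import Pool.Agent.Helper55.UndecSub

/-!
# Extending automorphisms to surface groups
-/

set_option autoImplicit false
set_option linter.unusedSectionVars false

namespace Pool.Agent.Helper55

open scoped commutatorElement

section Ext

variable (n : ℕ) {K : Type*} [Group K]

/-- The values on generators. -/
def slFun (f : F8 →* K) (A B : Fin n → K) (p : Fin (4 + n) × Bool) : K :=
  Fin.addCases (fun i => f (FreeGroup.of (i, p.2))) (fun j => if p.2 then B j else A j) p.1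

theorem slFun_left (f : F8 →* K) (A B : Fin n → K) (i : Fin 4) (b : Bool) :
    slFun n f A B (Fin.castAdd n i, b) = f (FreeGroup.of (i, b)) := by
  simp [slFun]

theorem slFun_right (f : F8 →* K) (A B : Fin n → K) (j : Fin n) (b : Bool) :
    slFun n f A B (Fin.natAdd 4 j, b) = if b then B j else A j := by
  simp [slFun]

theorem slFun_relator (f : F8 →* K) (A B : Fin n → K) :
    FreeGroup.lift (slFun n f A B) (surfaceRelator (4 + n)) =
      f bd * (List.ofFn fun j => ⁅A j, B j⁆).prod := by
  rw [surfaceRelator, List.ofFn_add, List.prod_append, map_mul, map_list_prod, map_list_prod,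
    List.map_ofFn, List.map_ofFn]
  congr 1
  · simp only [Function.comp_def, map_commutatorElement, FreeGroup.lift_apply_of]
    simp [List.ofFn_succ, bd, gc, ga, gb, map_commutatorElement, mul_assoc]
    rfl
  · simp only [Function.comp_def, map_commutatorElement, FreeGroup.lift_apply_of, slFun_right]
    simp

/-- Homomorphisms out of the surface group. -/
def sLift (f : F8 →* K) (A B : Fin n → K) (h : f bd * (List.ofFn fun j => ⁅A j, B j⁆).prod = 1) :
    SurfaceGroup (4 + n) →* K :=
  PresentedGroup.toGroup (f := slFun n f A B) (by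
    rintro r rfl
    rw [slFun_relator, h])

/-- The inclusion of the subsurface. -/
def JJ : F8 →* SurfaceGroup (4 + n) :=
  FreeGroup.lift fun p => PresentedGroup.of (Fin.castAdd n p.1, p.2)

/-- The remaining generators. -/
def rA (j : Fin n) : SurfaceGroup (4 + n) := PresentedGroup.of (Fin.natAdd 4 j, false)

/-- The remaining generators. -/
def rB (j : Fin n) : SurfaceGroup (4 + n) := PresentedGroup.of (Fin.natAdd 4 j, true)

variable {n}

theorem sLift_of (f : F8 →* K) (A B : Fin n → K) (h) (p : Fin (4 + n) × Bool) :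
    sLift n f A B h (PresentedGroup.of p : PresentedGroup {surfaceRelator (4 + n)}) =
      slFun n f A B p :=
  PresentedGroup.toGroup.of (f := slFun n f A B) (rels := {surfaceRelator (4 + n)}) (by
    rintro r rfl
    rw [slFun_relator, h])

theorem JJ_of (i : Fin 4) (b : Bool) : JJ n (FreeGroup.of (i, b)) =
    (PresentedGroup.of (Fin.castAdd n i, b) : PresentedGroup {surfaceRelator (4 + n)}) := by
  rw [JJ, FreeGroup.lift_apply_of]

theorem sLift_JJ (f : F8 →* K) (A B : Fin n → K) (h) (x : F8) :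
    sLift n f A B h (JJ n x) = f x := by
  have : (sLift n f A B h).comp (JJ n) = f := by
    ext ⟨i, b⟩ : 1
    rw [MonoidHom.comp_apply, JJ_of, sLift_of, slFun_left]
  exact DFunLike.congr_fun this x

theorem sLift_rA (f : F8 →* K) (A B : Fin n → K) (h) (j : Fin n) :
    sLift n f A B h (rA n j) = A j := by
  rw [rA, sLift_of, slFun_right]
  simp

theorem sLift_rB (f : F8 →* K) (A B : Fin n → K) (h) (j : Fin n) :
    sLift n f A B h (rB n j) = B j := by
  rw [rB, sLift_of, slFun_right]
  simp

theorem s_hom_ext {f g : SurfaceGroup (4 + n) →* K} (h₁ : ∀ x, f (JJ n x) = g (JJ n x))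
    (h₂ : ∀ j, f (rA n j) = g (rA n j)) (h₃ : ∀ j, f (rB n j) = g (rB n j)) : f = g := by
  apply PresentedGroup.ext
  rintro ⟨i, b⟩
  refine Fin.addCases (fun i => ?_) (fun j => ?_) i
  · have := h₁ (FreeGroup.of (i, b))
    rw [JJ_of] at this
    exact this
  · cases b
    · exact h₂ j
    · exact h₃ j

theorem JJ_relation : JJ n bd * (List.ofFn fun j => ⁅rA n j, rB n j⁆).prod = 1 := by
  rw [← slFun_relator]
  have : (FreeGroup.lift (slFun n (JJ n) (rA n) (rB n))) =
      PresentedGroup.mk {surfaceRelator (4 + n)} := by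
    ext ⟨i, b⟩ : 1
    rw [FreeGroup.lift_apply_of]
    refine Fin.addCases (fun i => ?_) (fun j => ?_) i
    · rw [slFun_left, JJ_of]
      rfl
    · rw [slFun_right]
      cases b <;> rfl
  rw [this]
  exact PresentedGroup.one_of_mem rfl

variable (n)

/-- The extension of an endomorphism fixing the boundary word. -/
def extEnd (φ : F8 →* F8) (hφ : φ bd = bd) : SurfaceGroup (4 + n) →* SurfaceGroup (4 + n) :=
  sLift n ((JJ n).comp φ) (rA n) (rB n) (by
    rw [MonoidHom.comp_apply, hφ, JJ_relation])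

variable {n}

theorem extEnd_JJ (φ : F8 →* F8) (hφ : φ bd = bd) (x : F8) :
    extEnd n φ hφ (JJ n x) = JJ n (φ x) := sLift_JJ _ _ _ _ _

theorem extEnd_rA (φ : F8 →* F8) (hφ : φ bd = bd) (j : Fin n) :
    extEnd n φ hφ (rA n j) = rA n j := sLift_rA _ _ _ _ _

theorem extEnd_rB (φ : F8 →* F8) (hφ : φ bd = bd) (j : Fin n) :
    extEnd n φ hφ (rB n j) = rB n j := sLift_rB _ _ _ _ _

theorem extEnd_comp (φ ψ χ : F8 →* F8) (hφ : φ bd = bd) (hψ : ψ bd = bd) (hχ : χ bd = bd)
    (h : φ.comp ψ = χ) : (extEnd n φ hφ).comp (extEnd n ψ hψ) = extEnd n χ hχ := by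
  subst h
  apply s_hom_ext
  · intro x
    simp [extEnd_JJ]
  · intro j
    simp [extEnd_rA]
  · intro j
    simp [extEnd_rB]

theorem extEnd_id (φ : F8 →* F8) (hφ : φ bd = bd) (h : φ = MonoidHom.id _) :
    extEnd n φ hφ = MonoidHom.id _ := by
  subst h
  apply s_hom_ext
  · intro x
    simp [extEnd_JJ]
  · intro j
    simp [extEnd_rA]
  · intro j
    simp [extEnd_rB]

variable (n)

/-- The extension of automorphisms. -/
def extAut : S8 →* MulAut (SurfaceGroup (4 + n)) where
  toFun φ := MonoidHom.toMulEquiv (extEnd n (φ : MulAut F8).toMonoidHom φ.2.1)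
    (extEnd n ((φ⁻¹ : S8) : MulAut F8).toMonoidHom (φ⁻¹).2.1)
    (by
      rw [extEnd_comp _ _ (MonoidHom.id _) _ _ rfl, extEnd_id _ _ rfl]
      exact MonoidHom.ext fun x => (φ : MulAut F8).symm_apply_apply x)
    (by
      rw [extEnd_comp _ _ (MonoidHom.id _) _ _ rfl, extEnd_id _ _ rfl]
      exact MonoidHom.ext fun x => (φ : MulAut F8).apply_symm_apply x)
  map_one' := MulEquiv.ext fun x =>
    DFunLike.congr_fun (extEnd_id ((1 : S8) : MulAut F8).toMonoidHom (1 : S8).2.1 rfl) x
  map_mul' φ ψ := MulEquiv.ext fun x =>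
    (DFunLike.congr_fun (extEnd_comp (φ : MulAut F8).toMonoidHom (ψ : MulAut F8).toMonoidHom
      ((φ * ψ : S8) : MulAut F8).toMonoidHom φ.2.1 ψ.2.1 (φ * ψ).2.1 rfl) x).symm

variable {n}

theorem extAut_JJ (φ : S8) (x : F8) : extAut n φ (JJ n x) = JJ n ((φ : MulAut F8) x) :=
  extEnd_JJ _ φ.2.1 _

theorem extAut_rA (φ : S8) (j : Fin n) : extAut n φ (rA n j) = rA n j := extEnd_rA _ φ.2.1 _

theorem extAut_rB (φ : S8) (j : Fin n) : extAut n φ (rB n j) = rB n j := extEnd_rB _ φ.2.1 _

theorem intersectionForm_split (χ ψ : SurfaceGroup (4 + n) →* Multiplicative ℤ) :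
    intersectionForm (4 + n) χ ψ = om8 (χ.comp (JJ n)) (ψ.comp (JJ n)) +
      ∑ j : Fin n, ((χ (rA n j)).toAdd * (ψ (rB n j)).toAdd -
        (χ (rB n j)).toAdd * (ψ (rA n j)).toAdd) := by
  rw [intersectionForm, Fin.sum_univ_add]
  congr 1

theorem extAut_mem (φ : S8) : extAut n φ ∈ autPlus (4 + n) := by
  intro χ ψ
  rw [intersectionForm_split, intersectionForm_split]
  congr 1
  · have h : ∀ χ : SurfaceGroup (4 + n) →* Multiplicative ℤ,
        (χ.comp (extAut n φ).toMonoidHom).comp (JJ n) =
          (χ.comp (JJ n)).comp (φ : MulAut F8).toMonoidHom := by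
      intro χ
      exact MonoidHom.ext fun x => congrArg χ (extAut_JJ φ x)
    rw [h, h]
    exact φ.2.2 _ _
  · refine Finset.sum_congr rfl fun j _ => ?_
    have hA : ∀ χ : SurfaceGroup (4 + n) →* Multiplicative ℤ,
        (χ.comp (extAut n φ).toMonoidHom) (rA n j) = χ (rA n j) := fun χ =>
      congrArg χ (extAut_rA φ j)
    have hB : ∀ χ : SurfaceGroup (4 + n) →* Multiplicative ℤ,
        (χ.comp (extAut n φ).toMonoidHom) (rB n j) = χ (rB n j) := fun χ =>
      congrArg χ (extAut_rB φ j)
    rw [hA, hA, hB, hB]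

variable (n)

/-- The homomorphism to the mapping class group. -/
def toMod : Gam F2 →* ModGroup (4 + n) :=
  (QuotientGroup.mk' (innPlus (4 + n))).comp (((extAut n).codRestrict (autPlus (4 + n)) extAut_mem).comp dat8.hom)

theorem toMod_injective : Function.Injective (toMod n) := by
  rw [injective_iff_map_eq_one]
  intro x hx
  apply detect
  intro K _ ρ hρ
  have h1 : ((extAut n).codRestrict (autPlus (4 + n)) extAut_mem) (dat8.hom x) ∈
      innPlus (4 + n) := (QuotientGroup.eq_one_iff _).1 hx
  rw [innPlus, Subgroup.mem_subgroupOf] at h1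
  obtain ⟨u, hu⟩ := h1
  have hu' : MulAut.conj u = extAut n (dat8.hom x) := hu
  let σ : SurfaceGroup (4 + n) →* K := sLift n ρ 1 1 (by
    rw [hρ, one_mul]
    refine List.prod_eq_one ?_
    intro y hy
    rw [List.mem_ofFn] at hy
    obtain ⟨j, rfl⟩ := hy
    simp)
  refine ⟨σ u, fun f => ?_⟩
  have h2 := congrArg σ (DFunLike.congr_fun hu' (JJ n f))
  rw [extAut_JJ, MulAut.conj_apply, map_mul, map_mul, map_inv, sLift_JJ, sLift_JJ] at h2
  exact h2.symm

end Ext

/-- The common form of the two undecidability results. -/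
theorem mod_undecidable (g : ℕ) (hg : 4 ≤ g) :
    ∃ E : Finset (ModGroup g), ∀ (k : ℕ) (S : Fin k → ModGroup g),
      (∀ x ∈ E, x ∈ Subgroup.closure (Set.range S)) →
      (¬ ComputablePred fun ws : List (List (Fin k × Bool)) =>
        FreelyIndecomposable (subgroupOf S ws)) ∧
      (¬ ComputablePred fun ws : List (List (Fin k × Bool)) => SplitsOverZ (subgroupOf S ws)) := by
  obtain ⟨n, rfl⟩ := Nat.exists_eq_add_of_le hg
  exact undecidable_of_embedding (toMod n) (toMod_injective n)

end Pool.Agent.Helper55
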