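import Mathlib

/-!
# Balls in finitely generated groups and growth of virtually abelian groups
-/

set_option autoImplicit false

namespace Pool.Agent.Helper55.Tdc

open Filter Pointwise Topology

variable {G : Type*} [Group G]

/-- The elements of `G` that are products of at most `n` elements of `X ∪ X⁻¹`. -/
def ball (X : Set G) (n : ℕ) : Set G :=
  {g | ∃ l : List G, l.length ≤ n ∧ (∀ x ∈ l, x ∈ X ∨ x⁻¹ ∈ X) ∧ l.prod = g}

theorem ball_mono (X : Set G) {m n : ℕ} (h : m ≤ n) : ball X m ⊆ ball X n := by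
  rintro g ⟨l, hl, hx, rfl⟩
  exact ⟨l, hl.trans h, hx, rfl⟩

theorem one_mem_ball (X : Set G) (n : ℕ) : (1 : G) ∈ ball X n :=
  ⟨[], by simp, by simp, by simp⟩

theorem mul_mem_ball {X : Set G} {m n : ℕ} {g h : G} (hg : g ∈ ball X m) (hh : h ∈ ball X n) :
    g * h ∈ ball X (m + n) := by
  obtain ⟨l, hl, hx, rfl⟩ := hg
  obtain ⟨l', hl', hx', rfl⟩ := hh
  refine ⟨l ++ l', by simp; omega, ?_, by simp⟩
  intro x hx2
  rcases List.mem_append.1 hx2 with h | h
  · exact hx x h
  · exact hx' x h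

theorem inv_mem_ball {X : Set G} {n : ℕ} {g : G} (hg : g ∈ ball X n) : g⁻¹ ∈ ball X n := by
  obtain ⟨l, hl, hx, rfl⟩ := hg
  refine ⟨(l.map (fun x => x⁻¹)).reverse, by simpa using hl, ?_, by rw [List.prod_inv_reverse]⟩
  intro x hx2
  simp only [List.mem_reverse, List.mem_map] at hx2
  obtain ⟨y, hy, rfl⟩ := hx2
  rcases hx y hy with h | h
  · right; simpa using h
  · left; exact h

theorem pow_mem_ball {X : Set G} {m : ℕ} {g : G} (hg : g ∈ ball X m) (k : ℕ) :
    g ^ k ∈ ball X (k * m) := by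
  induction k with
  | zero => simpa using one_mem_ball X _
  | succ k ih =>
    rw [pow_succ, Nat.succ_mul]
    exact mul_mem_ball ih hg

theorem prod_mem_ball {X : Set G} {ι : Type*} (l : List ι) (f : ι → G) (m : ι → ℕ)
    (h : ∀ i ∈ l, f i ∈ ball X (m i)) : (l.map f).prod ∈ ball X (l.map m).sum := by
  induction l with
  | nil => simpa using one_mem_ball X 0
  | cons a l ih =>
    simp only [List.map_cons, List.prod_cons, List.sum_cons]
    exact mul_mem_ball (h a (by simp)) (ih fun i hi => h i (by simp [hi]))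

theorem exists_mem_ball {X : Set G} (hX : Subgroup.closure X = ⊤) (g : G) :
    ∃ n, g ∈ ball X n := by
  have hg : g ∈ Subgroup.closure X := by rw [hX]; trivial
  induction hg using Subgroup.closure_induction with
  | mem x hx => exact ⟨1, [x], by simp, by simp [hx], by simp⟩
  | one => exact ⟨0, one_mem_ball X 0⟩
  | mul x y _ _ hx hy =>
    obtain ⟨m, hm⟩ := hx
    obtain ⟨n, hn⟩ := hy
    exact ⟨m + n, mul_mem_ball hm hn⟩
  | inv x _ hx =>
    obtain ⟨m, hm⟩ := hx
    exact ⟨m, inv_mem_ball hm⟩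

theorem finite_ball {X : Set G} (hX : X.Finite) (n : ℕ) : (ball X n).Finite := by
  have hY : (X ∪ X⁻¹ ∪ {1}).Finite := (hX.union hX.inv).union (Set.finite_singleton 1)
  have : (ball X n) ⊆ (X ∪ X⁻¹ ∪ {1}) ^ n := by
    rintro g ⟨l, hl, hx, rfl⟩
    induction l generalizing n with
    | nil =>
      have h1 : (1 : G) ∈ (X ∪ X⁻¹ ∪ {1}) := by simp
      simpa using Set.pow_mem_pow (n := n) h1
    | cons a l ih =>
      obtain ⟨n, rfl⟩ : ∃ k, n = k + 1 := ⟨n - 1, by simp at hl; omega⟩
      rw [pow_succ', List.prod_cons]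
      refine Set.mul_mem_mul ?_ (ih n (by simpa using hl) fun x hx' => hx x (by simp [hx']))
      rcases hx a (by simp) with h | h
      · simp [h]
      · simp [h]
  have h2 : ((X ∪ X⁻¹ ∪ {1}) ^ n).Finite := by
    clear this
    induction n with
    | zero => simp
    | succ n ih => rw [pow_succ]; exact ih.mul hY
  exact h2.subset this

/-- A finite set is contained in some ball. -/
theorem exists_subset_ball {X : Set G} (hX : Subgroup.closure X = ⊤) {S : Set G} (hS : S.Finite) :
    ∃ n, S ⊆ ball X n := by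
  choose f hf using exists_mem_ball hX
  obtain ⟨N, hN⟩ : ∃ N, ∀ s ∈ S, f s ≤ N := by
    obtain ⟨N, hN⟩ := (hS.image f).bddAbove
    exact ⟨N, fun s hs => hN ⟨s, hs, rfl⟩⟩
  exact ⟨N, fun s hs => ball_mono X (hN s hs) (hf s)⟩

end Pool.Agent.Helper55.Tdc
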