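import Mathlib
import Pool.Agent.Helper55.TdcBall

set_option autoImplicit false
set_option linter.unusedSectionVars false

namespace Pool.Agent.Helper55.Tdc

open Filter Pointwise Topology

variable {G : Type*} [Group G]

section Body

variable (X : Set G) (A : Subgroup G) [A.Normal] {r : ℕ}
  (e : A ≃* Multiplicative (Fin r → ℤ))

/-- The vector in `ℝ^r` attached to an element of the lattice `A`. -/
def vec (a : A) : Fin r → ℝ := fun i => ((Multiplicative.toAdd (e a)) i : ℝ)

theorem vec_mul (a b : A) : vec A e (a * b) = vec A e a + vec A e b := by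
  funext i; simp [vec]

theorem vec_one : vec A e 1 = 0 := by
  funext i; simp [vec]

theorem vec_inv (a : A) : vec A e a⁻¹ = - vec A e a := by
  funext i; simp [vec]

theorem vec_pow (a : A) (n : ℕ) : vec A e (a ^ n) = (n : ℝ) • vec A e a := by
  funext i; simp [vec]

theorem vec_injective : Function.Injective (vec A e) := by
  intro a b h
  apply e.injective
  apply Multiplicative.toAdd.injective
  funext i
  have := congrFun h i
  simpa [vec] using this

/-- The finite set spanning the convex body. -/
def gens : Set (Fin r → ℝ) :=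
  {x | ∃ (u : A) (m : ℕ) (g : G), 1 ≤ m ∧ m ≤ A.index ∧ (u : G) ∈ ball X m ∧
    x = (m : ℝ)⁻¹ • vec A e (MulAut.conjNormal g u)}

/-- The convex body. -/
def body : Set (Fin r → ℝ) := convexHull ℝ (gens X A e)

include e in
theorem mul_comm_of_equiv (a b : A) : a * b = b * a := by
  apply e.injective
  rw [map_mul, map_mul, mul_comm]

include e in
theorem conjNormal_of_mem (a : A) (u : A) : MulAut.conjNormal (a : G) u = u := by
  apply Subtype.ext
  have h := congrArg (Subtype.val) (mul_comm_of_equiv A e a u)
  simp only [Subgroup.coe_mul] at h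
  rw [MulAut.conjNormal_apply, h]
  group

theorem gens_finite [A.FiniteIndex] (hX : X.Finite) : (gens X A e).Finite := by
  classical
  have hfin : Finite (G ⧸ A) := Subgroup.finite_quotient_of_finiteIndex
  let B : Set A := {u : A | (u : G) ∈ ball X A.index}
  have hB : B.Finite := (finite_ball hX A.index).preimage (Subtype.val_injective.injOn)
  let T : Set A := ⋃ c : G ⧸ A, (fun u => MulAut.conjNormal (Quotient.out c) u) '' B
  have hT : T.Finite := Set.finite_iUnion fun c => hB.image _
  have : gens X A e ⊆ ⋃ m ∈ Set.Icc 1 A.index, (fun u => (m : ℝ)⁻¹ • vec A e u) '' T := by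
    rintro x ⟨u, m, g, h1, h2, hu, rfl⟩
    simp only [Set.mem_iUnion]
    refine ⟨m, ⟨h1, h2⟩, MulAut.conjNormal g u, ?_, rfl⟩
    simp only [T, Set.mem_iUnion]
    refine ⟨(g : G ⧸ A), u, ball_mono X h2 hu, ?_⟩
    obtain ⟨a, ha⟩ := QuotientGroup.mk_out_eq_mul A g
    have h3 : (Quotient.out (g : G ⧸ A)) = g * a := ha
    show MulAut.conjNormal (Quotient.out (g : G ⧸ A)) u = _
    rw [h3, map_mul, MulAut.mul_apply, conjNormal_of_mem A e]
  refine Set.Finite.subset ?_ this
  exact (Set.finite_Icc 1 A.index).biUnion fun m _ => hT.image _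

theorem zero_mem_gens [A.FiniteIndex] : (0 : Fin r → ℝ) ∈ gens X A e := by
  refine ⟨1, 1, 1, le_rfl, ?_, one_mem_ball X 1, ?_⟩
  · exact Nat.one_le_iff_ne_zero.2 Subgroup.FiniteIndex.index_ne_zero
  · simp [vec_one]

theorem zero_mem_body [A.FiniteIndex] : (0 : Fin r → ℝ) ∈ body X A e :=
  subset_convexHull ℝ _ (zero_mem_gens X A e)

theorem convex_body : Convex ℝ (body X A e) := convex_convexHull ℝ _

theorem smul_body_mono [A.FiniteIndex] {s t : ℝ} (hs : 0 ≤ s) (hst : s ≤ t) :
    s • body X A e ⊆ t • body X A e := by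
  have h := (convex_body X A e).add_smul hs (sub_nonneg.2 hst)
  rw [add_sub_cancel] at h
  rw [h]
  intro x hx
  refine ⟨x, hx, 0, ?_, add_zero x⟩
  exact ⟨0, zero_mem_body X A e, smul_zero _⟩

/-- Claim 1: an element of `A` of length at most `n` gives a vector in `n • body`. -/
theorem vec_mem_of_mem_ball [A.FiniteIndex] :
    ∀ (n : ℕ) (a : A), (a : G) ∈ ball X n → vec A e a ∈ (n : ℝ) • body X A e := by
  classical
  have hfin : Finite (G ⧸ A) := Subgroup.finite_quotient_of_finiteIndex
  have key : ∀ (n : ℕ) (l : List G) (a : A), l.length = n → (∀ x ∈ l, x ∈ X ∨ x⁻¹ ∈ X) →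
      l.prod = a → vec A e a ∈ (n : ℝ) • body X A e := by
    intro n
    induction n using Nat.strong_induction_on with
    | _ n ih =>
      intro l a hn hx ha
      rcases Nat.eq_zero_or_pos n with h0 | h0
      · subst h0
        have hl : l = [] := List.length_eq_zero_iff.1 hn
        subst hl
        have : a = 1 := by
          apply Subtype.ext
          simpa using ha.symm
        rw [this, vec_one]
        exact ⟨0, zero_mem_body X A e, smul_zero _⟩
      · by_cases hM : n ≤ A.index
        · -- short word
          have hn0 : (n : ℝ) ≠ 0 := by positivity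
          refine ⟨(n : ℝ)⁻¹ • vec A e a, ?_, by simp [smul_smul, hn0]⟩
          apply subset_convexHull
          refine ⟨a, n, 1, h0, hM, ⟨l, hn.le, hx, ha⟩, by simp⟩
        · -- long word: pigeonhole
          push Not at hM
          have hcard : Nat.card (G ⧸ A) < Nat.card (Fin (A.index + 1)) := by
            have h1 : Nat.card (G ⧸ A) = A.index := rfl
            have h2 : Nat.card (Fin (A.index + 1)) = A.index + 1 := by simp
            omega
          obtain ⟨i, j, hij, hf⟩ : ∃ i j : Fin (A.index + 1), i < j ∧
              ((l.take i).prod : G ⧸ A) = ((l.take j).prod : G ⧸ A) := by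
            have hni : ¬ Function.Injective
                (fun i : Fin (A.index + 1) => ((l.take i).prod : G ⧸ A)) := by
              intro hinj
              exact absurd (Nat.card_le_card_of_injective _ hinj) (by omega)
            simp only [Function.Injective, not_forall] at hni
            obtain ⟨i, j, h1, h2⟩ := hni
            rcases lt_or_gt_of_ne h2 with h3 | h3
            · exact ⟨i, j, h3, h1⟩
            · exact ⟨j, i, h3, h1.symm⟩
          have hj : (j : ℕ) ≤ A.index := Nat.lt_succ_iff.1 j.2
          have hij' : (i : ℕ) < j := hij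
          set p := (l.take i).prod with hp
          set w := (l.take j).drop i with hw
          have hwlen : w.length = j - i := by
            rw [hw]; simp; omega
          have htj : (l.take j) = l.take i ++ w := by
            rw [hw]
            conv_lhs => rw [← List.take_append_drop i (l.take j)]
            rw [List.take_take, min_eq_left hij'.le]
          have hwprod : (l.take j).prod = p * w.prod := by
            rw [htj, List.prod_append]
          have hwA : w.prod ∈ A := by
            have := QuotientGroup.eq.1 hf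
            rw [hwprod] at this
            simpa using this
          set s := (l.drop j) with hs
          have hl : l = l.take i ++ w ++ s := by
            rw [← htj, hs, List.take_append_drop]
          have hlp : l.prod = p * w.prod * s.prod := by
            conv_lhs => rw [hl]
            rw [List.prod_append, List.prod_append]
          have hpw : p * w.prod * p⁻¹ ∈ A := (inferInstance : A.Normal).conj_mem _ hwA _
          have hps : p * s.prod ∈ A := by
            have h1 : p * s.prod = (p * w.prod * p⁻¹)⁻¹ * l.prod := by rw [hlp]; group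
            rw [h1]
            exact A.mul_mem (A.inv_mem hpw) (ha ▸ a.2)
          have ha2 : a = (MulAut.conjNormal p (⟨w.prod, hwA⟩ : A)) * ⟨p * s.prod, hps⟩ := by
            apply Subtype.ext
            rw [← ha, hlp, Subgroup.coe_mul, MulAut.conjNormal_apply]
            group
          rw [ha2, vec_mul]
          have hlen : (l.take i ++ s).length = n - (j - i) := by
            simp [hs]; omega
          have h2 := ih (n - (j - i)) (by omega) (l.take i ++ s) ⟨p * s.prod, hps⟩ hlen
            (by
              intro x hx'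
              rcases List.mem_append.1 hx' with h | h
              · exact hx x (List.mem_of_mem_take h)
              · exact hx x (List.mem_of_mem_drop h)) (by rw [List.prod_append])
          have h1 : vec A e (MulAut.conjNormal p (⟨w.prod, hwA⟩ : A)) ∈
              ((j - i : ℕ) : ℝ) • body X A e := by
            have hn0 : ((j - i : ℕ) : ℝ) ≠ 0 := by
              have : 0 < (j : ℕ) - i := by omega
              positivity
            refine ⟨((j - i : ℕ) : ℝ)⁻¹ • vec A e (MulAut.conjNormal p (⟨w.prod, hwA⟩ : A)), ?_,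
              by simp only; rw [smul_smul, mul_inv_cancel₀ hn0, one_smul]⟩
            apply subset_convexHull
            refine ⟨⟨w.prod, hwA⟩, j - i, p, by omega, by omega, ⟨w, hwlen.le, ?_, rfl⟩, rfl⟩
            intro x hx'
            exact hx x (List.mem_of_mem_take (List.mem_of_mem_drop hx'))
          have h3 := (convex_body X A e).add_smul (p := ((j - i : ℕ) : ℝ))
            (q := ((n - (j - i) : ℕ) : ℝ)) (by positivity) (by positivity)
          have h4 : ((j - i : ℕ) : ℝ) + ((n - (j - i) : ℕ) : ℝ) = n := by
            rw [← Nat.cast_add]; congr 1; omega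
          rw [h4] at h3
          rw [h3]
          exact Set.add_mem_add h1 h2
  rintro n a ⟨l, hl, hx, ha⟩
  exact smul_body_mono X A e (by positivity) (by exact_mod_cast hl) (key l.length l a rfl hx ha)

theorem vec_list_prod {ι : Type*} (l : List ι) (f : ι → A) :
    vec A e (l.map f).prod = (l.map fun i => vec A e (f i)).sum := by
  induction l with
  | nil => simp [vec_one]
  | cons a l ih => simp [vec_mul, ih]

theorem finite_norm_le (R : ℝ) : {a : A | ‖vec A e a‖ ≤ R}.Finite := by
  have h1 : {f : Fin r → ℤ | ∀ i, |(f i : ℝ)| ≤ R}.Finite := by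
    refine (Set.finite_Icc (fun _ : Fin r => -⌈R⌉) (fun _ => ⌈R⌉)).subset ?_
    intro f hf
    refine ⟨fun i => ?_, fun i => ?_⟩
    · have := neg_le_of_abs_le (hf i)
      have h2 : (-⌈R⌉ : ℝ) ≤ f i := by
        have := Int.le_ceil R
        linarith
      exact_mod_cast h2
    · have h2 := le_of_abs_le (hf i)
      have h3 : (f i : ℝ) ≤ ⌈R⌉ := h2.trans (Int.le_ceil R)
      exact_mod_cast h3
  have h2 := h1.preimage (f := fun a : A => Multiplicative.toAdd (e a))
    ((Multiplicative.toAdd.injective.comp e.injective).injOn)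
  refine h2.subset ?_
  intro a ha i
  have := (norm_le_pi_norm (vec A e a) i).trans ha
  simpa [vec] using this

/-- Claim 2: a lattice vector in `n • body` has length at most `n + C`. -/
theorem exists_mem_ball_of_vec_mem [A.FiniteIndex] (hX : X.Finite)
    (hgen : Subgroup.closure X = ⊤) :
    ∃ C : ℕ, ∀ (n : ℕ) (a : A), vec A e a ∈ (n : ℝ) • body X A e → (a : G) ∈ ball X (n + C) := by
  classical
  have hs := gens_finite X A e hX
  set F := hs.toFinset with hF
  have hdata : ∀ y : Fin r → ℝ, ∃ (u : A) (m : ℕ) (g : G), y ∈ gens X A e → (1 ≤ m ∧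
      m ≤ A.index ∧ (u : G) ∈ ball X m ∧ y = (m : ℝ)⁻¹ • vec A e (MulAut.conjNormal g u)) := by
    intro y
    by_cases hy : y ∈ gens X A e
    · obtain ⟨u, m, g, h⟩ := hy
      exact ⟨u, m, g, fun _ => h⟩
    · exact ⟨1, 1, 1, fun h => absurd h hy⟩
  choose u m g hdat using hdata
  choose L hL using exists_mem_ball hgen
  set R : ℝ := ∑ y ∈ F, (m y : ℝ) * ‖y‖ with hR
  obtain ⟨C₁, hC₁⟩ := exists_subset_ball hgen ((finite_norm_le A e R).image (Subtype.val))
  set C₂ : ℕ := (F.toList.map fun y => 2 * L (g y)).sum with hC₂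
  refine ⟨C₁ + C₂, ?_⟩
  rintro n a ⟨k, hk, hka⟩
  rw [body, Set.Finite.convexHull_eq hs] at hk
  obtain ⟨w, hw0, hw1, hwk⟩ := hk
  have hk2 : k = ∑ y ∈ F, w y • y := by
    rw [← hwk, Finset.centerMass_eq_of_sum_1 _ _ hw1]; simp [hF]
  have hmemF : ∀ y, y ∈ F → y ∈ gens X A e := fun y hy => hs.mem_toFinset.1 hy
  set q : (Fin r → ℝ) → ℕ := fun y => ⌊n * w y / m y⌋₊ with hq
  set f : (Fin r → ℝ) → A := fun y => (MulAut.conjNormal (g y) (u y)) ^ (q y) with hf
  set b : A := (F.toList.map f).prod with hb
  have hm0 : ∀ y ∈ F, (0 : ℝ) < m y := by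
    intro y hy
    have := (hdat y (hmemF y hy)).1
    exact_mod_cast this
  have hq1 : ∀ y ∈ F, (q y : ℝ) * m y ≤ n * w y := by
    intro y hy
    have h1 := Nat.floor_le (a := n * w y / m y)
      (div_nonneg (mul_nonneg (by positivity) (hw0 y (hmemF y hy))) (by positivity))
    have h2 := mul_le_mul_of_nonneg_right h1 (hm0 y hy).le
    rwa [div_mul_cancel₀ _ (hm0 y hy).ne'] at h2
  have hq2 : ∀ y ∈ F, n * w y - (q y : ℝ) * m y ≤ m y := by
    intro y hy
    have h1 := (Nat.lt_floor_add_one (n * w y / m y)).le
    have h2 := mul_le_mul_of_nonneg_right h1 (hm0 y hy).le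
    rw [div_mul_cancel₀ _ (hm0 y hy).ne'] at h2
    have : ((⌊n * w y / m y⌋₊ : ℝ) + 1) * m y = (q y : ℝ) * m y + m y := by
      rw [hq]; ring
    linarith
  -- vector of b
  have hvb : vec A e b = ∑ y ∈ F, ((q y : ℝ) * m y) • y := by
    rw [hb, vec_list_prod, Finset.sum_map_toList]
    refine Finset.sum_congr rfl fun y hy => ?_
    have h1 := (hdat y (hmemF y hy)).2.2.2
    rw [hf]
    simp only
    rw [vec_pow, mul_smul]
    congr 1
    have h2 : (m y : ℝ) • y = (m y : ℝ) • ((m y : ℝ)⁻¹ • vec A e (MulAut.conjNormal (g y) (u y))) :=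
      congrArg (fun z => (m y : ℝ) • z) h1
    rw [h2, smul_smul, mul_inv_cancel₀ (hm0 y hy).ne', one_smul]
  have hva : vec A e a = ∑ y ∈ F, (n * w y) • y := by
    rw [← hka, hk2]
    simp only [Finset.smul_sum, smul_smul]
  have hab : ‖vec A e (a * b⁻¹)‖ ≤ R := by
    rw [vec_mul, vec_inv, ← sub_eq_add_neg, hva, hvb, ← Finset.sum_sub_distrib]
    refine (norm_sum_le _ _).trans ?_
    rw [hR]
    refine Finset.sum_le_sum fun y hy => ?_
    rw [← sub_smul, norm_smul]
    refine mul_le_mul_of_nonneg_right ?_ (norm_nonneg _)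
    rw [Real.norm_eq_abs, abs_of_nonneg (sub_nonneg.2 (hq1 y hy))]
    exact hq2 y hy
  have h1 : ((a * b⁻¹ : A) : G) ∈ ball X C₁ := hC₁ ⟨a * b⁻¹, hab, rfl⟩
  have h2 : (b : G) ∈ ball X (C₂ + n) := by
    have h3 : (b : G) = (F.toList.map fun y => (g y) * ((u y : G) ^ (q y)) * (g y)⁻¹).prod := by
      rw [hb]
      have : ((F.toList.map f).prod : G) = (F.toList.map fun y => ((f y : A) : G)).prod := by
        rw [← Subgroup.coe_subtype, map_list_prod, List.map_map]; rfl
      rw [this]
      congr 1
      refine List.map_congr_left fun y _ => ?_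
      rw [hf]
      simp only [Subgroup.coe_pow, MulAut.conjNormal_apply, conj_pow]
    rw [h3]
    have h4 : (F.toList.map fun y => (g y) * ((u y : G) ^ (q y)) * (g y)⁻¹).prod ∈
        ball X (F.toList.map fun y => (L (g y) + q y * m y + L (g y))).sum := by
      refine prod_mem_ball _ _ _ ?_
      intro y hy
      have hy' := hdat y (hmemF y (Finset.mem_toList.1 hy))
      exact mul_mem_ball (mul_mem_ball (hL _) (pow_mem_ball hy'.2.2.1 _)) (inv_mem_ball (hL _))
    refine ball_mono X ?_ h4
    have h5 : (F.toList.map fun y => (L (g y) + q y * m y + L (g y))).sum =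
        C₂ + ∑ y ∈ F, q y * m y := by
      rw [hC₂, Finset.sum_map_toList, Finset.sum_map_toList, ← Finset.sum_add_distrib]
      refine Finset.sum_congr rfl fun y _ => by ring
    rw [h5]
    have h6 : ((∑ y ∈ F, q y * m y : ℕ) : ℝ) ≤ n := by
      push_cast
      calc ∑ y ∈ F, (q y : ℝ) * m y ≤ ∑ y ∈ F, n * w y := Finset.sum_le_sum hq1
        _ = n := by rw [← Finset.mul_sum, hw1, mul_one]
    have h7 : (∑ y ∈ F, q y * m y : ℕ) ≤ n := by exact_mod_cast h6
    omega
  have h3 := mul_mem_ball h1 h2
  have h4 : ((a * b⁻¹ : A) : G) * (b : G) = a := by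
    rw [← Subgroup.coe_mul]; simp
  rw [h4] at h3
  exact ball_mono X (by omega) h3

end Body

end Pool.Agent.Helper55.Tdc
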