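import Mathlib
import Pool.Agent.Helper55.TdcGrowth

set_option autoImplicit false
set_option linter.unusedSectionVars false

namespace Pool.Agent.Helper55.Tdc

open Filter Pointwise Topology MeasureTheory

theorem tendsto_shift_ratio (k r : ℕ) :
    Tendsto (fun n : ℕ => (((n + k : ℕ) : ℝ) / n) ^ r) atTop (𝓝 1) := by
  have h1 : Tendsto (fun n : ℕ => ((n + k : ℕ) : ℝ) / n) atTop (𝓝 1) := by
    have h2 : Tendsto (fun n : ℕ => 1 + (k : ℝ) / n) atTop (𝓝 (1 + 0)) :=
      tendsto_const_nhds.add (tendsto_const_div_atTop_nhds_zero_nat _)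
    rw [add_zero] at h2
    refine h2.congr' ?_
    filter_upwards [eventually_gt_atTop 0] with n hn
    have : (n : ℝ) ≠ 0 := by positivity
    push_cast
    field_simp
  simpa using h1.pow r

theorem shift_iff (f : ℕ → ℝ) (k r : ℕ) (V : ℝ) :
    Tendsto (fun n : ℕ => f (n + k) / (n : ℝ) ^ r) atTop (𝓝 V) ↔
      Tendsto (fun n : ℕ => f n / (n : ℝ) ^ r) atTop (𝓝 V) := by
  rw [← tendsto_add_atTop_iff_nat (f := fun n : ℕ => f n / (n : ℝ) ^ r) k]
  have h1 := tendsto_shift_ratio k r
  constructor
  · intro h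
    have h2 := h.div h1 one_ne_zero
    rw [div_one] at h2
    refine h2.congr' ?_
    filter_upwards [eventually_gt_atTop 0] with n hn
    have : (n : ℝ) ≠ 0 := by positivity
    have h3 : ((n + k : ℕ) : ℝ) ≠ 0 := by positivity
    simp only [Pi.div_apply]
    rw [div_pow]
    field_simp
  · intro h
    have h2 := h.mul h1
    rw [mul_one] at h2
    refine h2.congr' ?_
    filter_upwards [eventually_gt_atTop 0] with n hn
    have : (n : ℝ) ≠ 0 := by positivity
    have h3 : ((n + k : ℕ) : ℝ) ≠ 0 := by positivity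
    rw [div_pow]
    field_simp

/-- Squeeze: if `f n ≤ g (n + k)` and `g n ≤ f (n + k)`, then `f` and `g` have the same
polynomial asymptotics. -/
theorem tendsto_of_interleaved (f g : ℕ → ℕ) (k r : ℕ) (V : ℝ)
    (h1 : ∀ n, f n ≤ g (n + k)) (h2 : ∀ n, g n ≤ f (n + k))
    (hf : Tendsto (fun n : ℕ => (f n : ℝ) / (n : ℝ) ^ r) atTop (𝓝 V)) :
    Tendsto (fun n : ℕ => (g n : ℝ) / (n : ℝ) ^ r) atTop (𝓝 V) := by
  rw [← shift_iff (fun n => (g n : ℝ)) k r V]
  have hf2 := (shift_iff (fun n => (f n : ℝ)) (2 * k) r V).2 hf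
  refine tendsto_of_tendsto_of_tendsto_of_le_of_le hf hf2 ?_ ?_
  · intro n
    simp only
    gcongr
    exact h1 n
  · intro n
    simp only
    gcongr
    have := h2 (n + k)
    rwa [show n + k + k = n + 2 * k by ring] at this

variable {G : Type*} [Group G]

section Body

variable (X : Set G) (A : Subgroup G) [A.Normal] {r : ℕ}
  (e : A ≃* Multiplicative (Fin r → ℤ))

theorem isCompact_body [A.FiniteIndex] (hX : X.Finite) : IsCompact (body X A e) :=
  (gens_finite X A e hX).isCompact_convexHull ℝ

theorem interior_body_nonempty [A.FiniteIndex] (hgen : Subgroup.closure X = ⊤) :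
    (interior (body X A e)).Nonempty := by
  classical
  rw [(convex_body X A e).interior_nonempty_iff_affineSpan_eq_top]
  have h0 : (0 : Fin r → ℝ) ∈ affineSpan ℝ (body X A e) :=
    mem_affineSpan ℝ (zero_mem_body X A e)
  rw [← AffineSubspace.direction_eq_top_iff_of_nonempty ⟨0, h0⟩, direction_affineSpan]
  rw [eq_top_iff, ← (Pi.basisFun ℝ (Fin r)).span_eq, Submodule.span_le]
  rintro _ ⟨i, rfl⟩
  set a : A := e.symm (Multiplicative.ofAdd (Pi.single i 1)) with ha
  obtain ⟨n, hn⟩ := exists_mem_ball hgen (a : G)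
  have hn1 : (a : G) ∈ ball X (n + 1) := ball_mono X (Nat.le_succ n) hn
  obtain ⟨x, hx, hxa⟩ := vec_mem_of_mem_ball X A e (n + 1) a hn1
  have hv : vec A e a = Pi.basisFun ℝ (Fin r) i := by
    funext j
    rw [vec, ha]
    simp only [MulEquiv.apply_symm_apply, toAdd_ofAdd, Pi.basisFun_apply]
    by_cases h : j = i
    · subst h; simp
    · simp [h]
  have h1 : x -ᵥ (0 : Fin r → ℝ) ∈ vectorSpan ℝ (body X A e) :=
    vsub_mem_vectorSpan ℝ hx (zero_mem_body X A e)
  simp only [vsub_eq_sub, sub_zero] at h1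
  have h2 : ((n + 1 : ℕ) : ℝ) • x ∈ vectorSpan ℝ (body X A e) :=
    Submodule.smul_mem _ _ h1
  have h3 : ((n + 1 : ℕ) : ℝ) • x = Pi.basisFun ℝ (Fin r) i := by rw [← hv, ← hxa]
  rw [h3] at h2
  exact h2

theorem volume_body_pos [A.FiniteIndex] (hX : X.Finite) (hgen : Subgroup.closure X = ⊤) :
    0 < (volume : Measure (Fin r → ℝ)).real (body X A e) := by
  have h1 := Measure.measure_pos_of_nonempty_interior (volume : Measure (Fin r → ℝ))
    (interior_body_nonempty X A e hgen)
  have h2 := (isCompact_body X A e hX).measure_lt_top (μ := (volume : Measure (Fin r → ℝ)))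
  exact ENNReal.toReal_pos h1.ne' h2.ne

theorem tendsto_lattice_count [A.FiniteIndex] (hX : X.Finite) :
    Tendsto (fun n : ℕ => (({a : A | vec A e a ∈ (n : ℝ) • body X A e}.ncard : ℕ) : ℝ) /
      (n : ℝ) ^ r) atTop (𝓝 ((volume : Measure (Fin r → ℝ)).real (body X A e))) := by
  have h := tendsto_card_div_pow_atTop_volume (body X A e)
    (isCompact_body X A e hX).isBounded (isCompact_body X A e hX).measurableSet
    ((convex_body X A e).addHaar_frontier volume)
  rw [Fintype.card_fin] at h
  refine h.congr' ?_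
  filter_upwards [eventually_gt_atTop 0] with n hn
  have hn0 : (n : ℝ) ≠ 0 := by positivity
  congr 1
  rw [Nat.cast_inj]
  symm
  change Set.ncard _ = Set.ncard _
  refine Set.ncard_congr (fun a _ => (n : ℝ)⁻¹ • vec A e a) ?_ ?_ ?_
  · intro a ha
    obtain ⟨x, hx, hxa⟩ := ha
    refine ⟨?_, ?_⟩
    · rw [← hxa]
      simp only
      rwa [smul_smul, inv_mul_cancel₀ hn0, one_smul]
    · refine ⟨vec A e a, ?_, rfl⟩
      simp only [SetLike.mem_coe]
      rw [Module.Basis.mem_span_iff_repr_mem]
      intro i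
      exact ⟨Multiplicative.toAdd (e a) i, by simp [vec]⟩
  · intro a b _ _ hab
    apply vec_injective A e
    have := congrArg (fun z => (n : ℝ) • z) hab
    simpa [smul_smul, hn0] using this
  · rintro x ⟨hx, y, hy, hyx⟩
    simp only [SetLike.mem_coe] at hy
    rw [Module.Basis.mem_span_iff_repr_mem] at hy
    choose z hz using hy
    refine ⟨e.symm (Multiplicative.ofAdd z), ?_, ?_⟩
    · have hv : vec A e (e.symm (Multiplicative.ofAdd z)) = y := by
        funext i
        have := hz i
        simp only [Pi.basisFun_repr, eq_intCast] at this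
        simp [vec, this]
      rw [Set.mem_ofPred_eq, hv]
      refine ⟨x, hx, ?_⟩
      rw [← hyx]
      simp [smul_smul, hn0]
    · have hv : vec A e (e.symm (Multiplicative.ofAdd z)) = y := by
        funext i
        have := hz i
        simp only [Pi.basisFun_repr, eq_intCast] at this
        simp [vec, this]
      rw [hv]
      exact hyx

theorem finite_vec_mem [A.FiniteIndex] (hX : X.Finite) (n : ℕ) :
    {a : A | vec A e a ∈ (n : ℝ) • body X A e}.Finite := by
  obtain ⟨R, hR⟩ := ((isCompact_body X A e hX).smul (n : ℝ)).isBounded.exists_norm_le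
  exact (finite_norm_le A e R).subset fun a ha => hR _ ha

theorem tendsto_count_subgroup [A.FiniteIndex] (hX : X.Finite)
    (hgen : Subgroup.closure X = ⊤) :
    Tendsto (fun n : ℕ => (({a : A | (a : G) ∈ ball X n}.ncard : ℕ) : ℝ) / (n : ℝ) ^ r) atTop
      (𝓝 ((volume : Measure (Fin r → ℝ)).real (body X A e))) := by
  obtain ⟨C, hC⟩ := exists_mem_ball_of_vec_mem X A e hX hgen
  refine tendsto_of_interleaved _ _ C r _ ?_ ?_ (tendsto_lattice_count X A e hX)
  · intro n
    refine Set.ncard_le_ncard (fun a ha => hC n a ha) ?_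
    exact (finite_ball hX (n + C)).preimage Subtype.val_injective.injOn
  · intro n
    refine Set.ncard_le_ncard (fun a ha => ?_) (finite_vec_mem X A e hX _)
    exact smul_body_mono X A e (by positivity) (by push_cast; linarith [Nat.cast_nonneg (α := ℝ) C])
      (vec_mem_of_mem_ball X A e n a ha)

theorem tendsto_count_coset [A.FiniteIndex] (hX : X.Finite)
    (hgen : Subgroup.closure X = ⊤) (g : G) :
    Tendsto (fun n : ℕ => (({a : A | g * (a : G) ∈ ball X n}.ncard : ℕ) : ℝ) / (n : ℝ) ^ r) atTop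
      (𝓝 ((volume : Measure (Fin r → ℝ)).real (body X A e))) := by
  obtain ⟨k, hk⟩ := exists_mem_ball hgen g
  refine tendsto_of_interleaved _ _ k r _ ?_ ?_ (tendsto_count_subgroup X A e hX hgen)
  · intro n
    refine Set.ncard_le_ncard (fun a ha => ?_) ?_
    · have := mul_mem_ball hk ha
      rwa [add_comm k n] at this
    · refine (finite_ball hX (n + k)).preimage (f := fun a : A => g * (a : G)) ?_
      intro a _ b _ hab
      exact Subtype.ext (mul_left_cancel hab)
  · intro n
    refine Set.ncard_le_ncard (fun a ha => ?_) ?_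
    · have := mul_mem_ball (inv_mem_ball hk) ha
      rw [inv_mul_cancel_left, add_comm k n] at this
      exact this
    · exact (finite_ball hX (n + k)).preimage Subtype.val_injective.injOn

theorem ncard_ball_eq [A.FiniteIndex] (hX : X.Finite) (n : ℕ) [Fintype (G ⧸ A)] :
    (ball X n).ncard = ∑ q : G ⧸ A, {a : A | Quotient.out q * (a : G) ∈ ball X n}.ncard := by
  classical
  have h1 : ∀ q : G ⧸ A, {a : A | Quotient.out q * (a : G) ∈ ball X n}.ncard =
      {g | g ∈ ball X n ∧ (g : G ⧸ A) = q}.ncard := by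
    intro q
    refine Set.ncard_congr (fun a _ => Quotient.out q * (a : G)) ?_ ?_ ?_
    · intro a ha
      refine ⟨ha, ?_⟩
      have h2 : ((Quotient.out q * (a : G) : G) : G ⧸ A) = ((Quotient.out q : G) : G ⧸ A) := by
        symm
        rw [QuotientGroup.eq]
        simp
      rw [h2]
      exact Quotient.out_eq q
    · intro a b _ _ hab
      exact Subtype.ext (mul_left_cancel hab)
    · rintro g ⟨hg, hgq⟩
      have h2 : (Quotient.out q)⁻¹ * g ∈ A := by
        rw [← QuotientGroup.eq, hgq]
        exact Quotient.out_eq q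
      exact ⟨⟨_, h2⟩, by simpa using hg, by simp⟩
  simp_rw [h1]
  rw [Set.ncard_eq_toFinset_card _ (finite_ball hX n)]
  rw [Finset.card_eq_sum_card_fiberwise (f := fun g : G => (g : G ⧸ A)) (t := Finset.univ)
    (by intro x _; simp)]
  refine Finset.sum_congr rfl fun q _ => ?_
  rw [← Set.ncard_coe_finset]
  congr 1
  ext g
  simp

include e in
theorem tendsto_count_ball [A.FiniteIndex] (hX : X.Finite)
    (hgen : Subgroup.closure X = ⊤) :
    ∃ V : ℝ, 0 < V ∧ Tendsto (fun n : ℕ => (((ball X n).ncard : ℕ) : ℝ) / (n : ℝ) ^ r) atTop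
      (𝓝 V) := by
  classical
  have hfin : Finite (G ⧸ A) := Subgroup.finite_quotient_of_finiteIndex
  have := Fintype.ofFinite (G ⧸ A)
  refine ⟨∑ _q : G ⧸ A, (volume : Measure (Fin r → ℝ)).real (body X A e), ?_, ?_⟩
  · exact Finset.sum_pos (fun _ _ => volume_body_pos X A e hX hgen) Finset.univ_nonempty
  · have h := tendsto_finsetSum (Finset.univ : Finset (G ⧸ A))
      (fun q _ => tendsto_count_coset X A e hX hgen (Quotient.out q))
    refine h.congr fun n => ?_
    rw [ncard_ball_eq X A hX n]
    push_cast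
    rw [Finset.sum_div]

end Body

end Pool.Agent.Helper55.Tdc
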