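import Mathlib
import Pool.Agent.Helper55.TdcAsymp

set_option autoImplicit false
set_option linter.unusedSectionVars false

namespace Pool.Agent.Helper55.Tdc

open Filter Pointwise Topology

/-- A finitely generated commutative group has a torsion-free subgroup of finite index. -/
theorem exists_torsionFree_finiteIndex (B : Type*) [CommGroup B] [Group.FG B] :
    ∃ H : Subgroup B, H.FiniteIndex ∧ ∀ b ∈ H, ∀ k : ℕ, k ≠ 0 → b ^ k = 1 → b = 1 := by
  classical
  obtain ⟨n, ι, hι, p, hp, ex, ⟨f⟩⟩ := AddCommGroup.equiv_free_prod_directSum_zmod (Additive B)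
  let g : Additive B →+ DirectSum ι fun i => ZMod (p i ^ ex i) :=
    (AddMonoidHom.snd _ _).comp f.toAddMonoidHom
  have hfin : ∀ i, Finite (ZMod (p i ^ ex i)) := by
    intro i
    have : NeZero (p i ^ ex i) := ⟨pow_ne_zero _ (hp i).ne_zero⟩
    infer_instance
  have : Finite (DirectSum ι fun i => ZMod (p i ^ ex i)) := by
    have e2 : (DirectSum ι fun i => ZMod (p i ^ ex i)) ≃ (∀ i, ZMod (p i ^ ex i)) :=
      DFinsupp.equivFunOnFintype
    exact Finite.of_equiv _ e2.symm
  let g' : B →* Multiplicative (DirectSum ι fun i => ZMod (p i ^ ex i)) :=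
    AddMonoidHom.toMultiplicativeRight g
  refine ⟨g'.ker, ?_, ?_⟩
  · have : Finite (Multiplicative (DirectSum ι fun i => ZMod (p i ^ ex i))) := this
    infer_instance
  · intro b hb k hk hbk
    have h1 : g (Additive.ofMul b) = 0 := hb
    have h2 : k • f (Additive.ofMul b) = 0 := by
      rw [← map_nsmul, ← ofMul_pow, hbk]
      simp
    have h3 : (f (Additive.ofMul b)).1 = 0 := by
      have h4 : k • (f (Additive.ofMul b)).1 = 0 := by
        rw [← Prod.smul_fst, h2]; rfl
      exact (smul_eq_zero.1 h4).resolve_left hk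
    have h5 : f (Additive.ofMul b) = 0 := Prod.ext h3 h1
    have h6 : Additive.ofMul b = 0 := f.injective (by rw [h5, map_zero])
    exact h6

/-- A finitely generated virtually abelian group has a normal subgroup of finite index which is
free abelian of finite rank. -/
theorem exists_lattice {G : Type*} [Group G] [Group.FG G] (A₀ : Subgroup G) [A₀.FiniteIndex]
    (hab : ∀ a ∈ A₀, ∀ b ∈ A₀, a * b = b * a) :
    ∃ (A : Subgroup G) (r : ℕ), A.Normal ∧ A.FiniteIndex ∧
      Nonempty (A ≃* Multiplicative (Fin r → ℤ)) := by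
  classical
  let i1 : CommGroup A₀ :=
    { (inferInstance : Group A₀) with mul_comm := fun a b => Subtype.ext (hab a a.2 b b.2) }
  have hfg0 : Group.FG A₀ := Subgroup.fg_of_index_ne_zero A₀
  obtain ⟨H, hH1, hH2⟩ := @exists_torsionFree_finiteIndex A₀ i1 hfg0
  let A₁ : Subgroup G := H.map A₀.subtype
  have hA₁ : A₁.FiniteIndex := by
    refine ⟨?_⟩
    show (H.map A₀.subtype).index ≠ 0
    rw [Subgroup.index_map_subtype]
    exact mul_ne_zero hH1.index_ne_zero (inferInstance : A₀.FiniteIndex).index_ne_zero
  let A : Subgroup G := A₁.normalCore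
  have hA : A.FiniteIndex := inferInstance
  have hAle : A ≤ A₁ := Subgroup.normalCore_le A₁
  have hA1le : A₁ ≤ A₀ := by
    rintro _ ⟨x, _, rfl⟩
    exact x.2
  let i2 : CommGroup A :=
    { (inferInstance : Group A) with
      mul_comm := fun a b => Subtype.ext (hab a (hA1le (hAle a.2)) b (hA1le (hAle b.2))) }
  have htf : ∀ a : A, ∀ k : ℕ, k ≠ 0 → a ^ k = 1 → a = 1 := by
    intro a k hk hak
    obtain ⟨x, hx, hxa⟩ := hAle a.2
    have h1 : x ^ k = 1 := by
      apply Subtype.ext
      have h2 := congrArg Subtype.val hak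
      have h3 : (x : G) = a := hxa
      simpa [h3] using h2
    have h2 := hH2 x hx k hk h1
    apply Subtype.ext
    rw [← hxa, h2]
    simp
  have hfgA : Group.FG A := Subgroup.fg_of_index_ne_zero A
  have i3 : AddGroup.FG (Additive A) := inferInstance
  have i4 : Module.Finite ℤ (Additive A) := Module.Finite.iff_addGroup_fg.2 i3
  have i5 : Module.IsTorsionFree ℤ (Additive A) := by
    rw [Module.isTorsionFree_iff_smul_eq_zero]
    intro n a h
    by_cases hn : n = 0
    · exact Or.inl hn
    · right
      have h1 : n.natAbs • a = 0 := by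
        rcases Int.natAbs_eq n with h2 | h2
        · rw [h2] at h; simpa using h
        · rw [h2] at h; simpa using h
      have := htf (Additive.toMul a) n.natAbs (by simpa using hn) (by
        have := congrArg Additive.toMul h1
        simpa using this)
      exact this
  have i6 : Module.Free ℤ (Additive A) := Module.free_of_finite_type_torsion_free'
  let b := Module.finBasis ℤ (Additive A)
  let f : A ≃* Multiplicative (Fin (Module.finrank ℤ (Additive A)) → ℤ) :=
    AddEquiv.toMultiplicativeRight b.equivFun.toAddEquiv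
  exact ⟨A, Module.finrank ℤ (Additive A), Subgroup.normalCore_normal A₁, hA, ⟨f⟩⟩

end Pool.Agent.Helper55.Tdc
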