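import Mathlib
import Pool.Agent.Helper55.TdcLattice

set_option autoImplicit false
set_option linter.unusedSectionVars false

namespace Pool.Agent.Helper55.Tdc

open Filter Pointwise Topology

variable {G : Type*} [Group G]

/-- Balls of a finitely generated virtually abelian group: `|B(n+k)| / |B(n)| → 1`. -/
theorem tendsto_ball_ratio (A₀ : Subgroup G) [A₀.FiniteIndex]
    (hab : ∀ a ∈ A₀, ∀ b ∈ A₀, a * b = b * a) (X : Set G) (hX : X.Finite)
    (hgen : Subgroup.closure X = ⊤) (k : ℕ) :
    Tendsto (fun n : ℕ => ((ball X (n + k)).ncard : ℝ) / ((ball X n).ncard : ℝ)) atTop (𝓝 1) := by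
  have hfg : Group.FG G := by
    rw [Group.fg_iff]
    exact ⟨X, hgen, hX⟩
  obtain ⟨A, r, hN, hFI, ⟨e⟩⟩ := exists_lattice A₀ hab
  obtain ⟨V, hV, hT⟩ := tendsto_count_ball X A e hX hgen
  have h1 := (shift_iff (fun n => ((ball X n).ncard : ℝ)) k r V).2 hT
  have h2 := h1.div hT hV.ne'
  rw [div_self hV.ne'] at h2
  refine h2.congr' ?_
  filter_upwards [eventually_gt_atTop 0] with n hn
  have h3 : ((n : ℝ) ^ r) ≠ 0 := by positivity
  simp only [Pi.div_apply]
  rw [div_div_div_cancel_right₀ h3]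

/-- The number of points of `S ⊆ G × G` in the product of balls of radius `n`. -/
noncomputable def cnt (X : Set G) (S : Set (G × G)) (n : ℕ) : ℕ :=
  {p : G × G | p ∈ S ∧ p.1 ∈ ball X n ∧ p.2 ∈ ball X n}.ncard

/-- The proportion of points of `S ⊆ G × G` in the product of balls of radius `n`. -/
noncomputable def dens (X : Set G) (S : Set (G × G)) (n : ℕ) : ℝ :=
  (cnt X S n : ℝ) / ((ball X n).ncard : ℝ) ^ 2

section

variable {X : Set G} (hX : X.Finite)

include hX

theorem finite_prod_ball (n : ℕ) : ((ball X n) ×ˢ (ball X n)).Finite :=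
  (finite_ball hX n).prod (finite_ball hX n)

theorem finite_cnt (S : Set (G × G)) (n : ℕ) :
    {p : G × G | p ∈ S ∧ p.1 ∈ ball X n ∧ p.2 ∈ ball X n}.Finite :=
  (finite_prod_ball hX n).subset fun p hp => ⟨hp.2.1, hp.2.2⟩

theorem ncard_ball_pos (n : ℕ) : 0 < (ball X n).ncard :=
  (Set.ncard_pos (finite_ball hX n)).2 ⟨1, one_mem_ball X n⟩

theorem cnt_univ (n : ℕ) : cnt X Set.univ n = (ball X n).ncard ^ 2 := by
  have : {p : G × G | p ∈ (Set.univ : Set (G × G)) ∧ p.1 ∈ ball X n ∧ p.2 ∈ ball X n} =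
      (ball X n) ×ˢ (ball X n) := by
    ext p; simp
  rw [cnt, this, Set.ncard_prod, sq]

theorem cnt_mono {S T : Set (G × G)} (h : S ⊆ T) (n : ℕ) : cnt X S n ≤ cnt X T n :=
  Set.ncard_le_ncard (fun _ hp => ⟨h hp.1, hp.2⟩) (finite_cnt hX T n)

theorem cnt_le (S : Set (G × G)) (n : ℕ) : cnt X S n ≤ (ball X n).ncard ^ 2 := by
  rw [← cnt_univ hX]
  exact cnt_mono hX (Set.subset_univ _) n

theorem dens_nonneg (S : Set (G × G)) (n : ℕ) : 0 ≤ dens X S n := by
  unfold dens; positivity

theorem dens_univ (n : ℕ) : dens X Set.univ n = 1 := by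
  have h := ncard_ball_pos hX n
  rw [dens, cnt_univ hX]
  push_cast
  exact div_self (by positivity)

/-- Counting through a partition into fibres. -/
theorem cnt_eq_sum_fiber {ι : Type*} [Fintype ι] [DecidableEq ι] (S : Set (G × G))
    (c : G × G → ι) (n : ℕ) : cnt X S n = ∑ i, cnt X (S ∩ {p | c p = i}) n := by
  classical
  unfold cnt
  rw [Set.ncard_eq_toFinset_card _ (finite_cnt hX S n)]
  rw [Finset.card_eq_sum_card_fiberwise (f := c) (t := Finset.univ) (by intro x _; simp)]
  refine Finset.sum_congr rfl fun q _ => ?_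
  rw [← Set.ncard_coe_finset]
  congr 1
  ext g
  simp only [Finset.coe_filter, Set.Finite.mem_toFinset, Set.mem_inter_iff]
  constructor
  · rintro ⟨⟨h1, h2⟩, h3⟩
    exact ⟨⟨h1, h3⟩, h2⟩
  · rintro ⟨⟨h1, h3⟩, h2⟩
    exact ⟨⟨h1, h2⟩, h3⟩

theorem dens_eq_sum_fiber {ι : Type*} [Fintype ι] [DecidableEq ι] (S : Set (G × G))
    (c : G × G → ι) (n : ℕ) : dens X S n = ∑ i, dens X (S ∩ {p | c p = i}) n := by
  unfold dens
  rw [cnt_eq_sum_fiber hX S c n]
  push_cast
  rw [Finset.sum_div]

/-- The error term for translations. -/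
noncomputable def err (X : Set G) (k n : ℕ) : ℝ :=
  (((ball X (n + k)).ncard : ℝ) / ((ball X n).ncard : ℝ)) ^ 2 - 1

theorem cnt_add_le (S : Set (G × G)) (n k : ℕ) :
    cnt X S (n + k) + (ball X n).ncard ^ 2 ≤ cnt X S n + (ball X (n + k)).ncard ^ 2 := by
  classical
  set a := {p : G × G | p ∈ S ∧ p.1 ∈ ball X n ∧ p.2 ∈ ball X n} with ha
  set b := {p : G × G | p ∈ S ∧ p.1 ∈ ball X (n + k) ∧ p.2 ∈ ball X (n + k)} with hb
  set c := (ball X n) ×ˢ (ball X n) with hc
  set d := (ball X (n + k)) ×ˢ (ball X (n + k)) with hd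
  have hcd : c ⊆ d := Set.prod_mono (ball_mono X (by omega)) (ball_mono X (by omega))
  have hdfin : d.Finite := finite_prod_ball hX _
  have hbd : b ⊆ d := fun p hp => ⟨hp.2.1, hp.2.2⟩
  have h1 : b ⊆ a ∪ (d \ c) := by
    intro p hp
    by_cases h : p ∈ c
    · left; exact ⟨hp.1, h.1, h.2⟩
    · right; exact ⟨hbd hp, h⟩
  have h2 : b.ncard ≤ a.ncard + (d \ c).ncard :=
    (Set.ncard_le_ncard h1 ((finite_cnt hX S n).union (hdfin.subset Set.sdiff_subset))).trans
      (Set.ncard_union_le _ _)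
  have h3 : (d \ c).ncard + c.ncard = d.ncard := Set.ncard_sdiff_add_ncard_of_subset hcd hdfin
  have h4 : c.ncard = (ball X n).ncard ^ 2 := by rw [hc, Set.ncard_prod, sq]
  have h5 : d.ncard = (ball X (n + k)).ncard ^ 2 := by rw [hd, Set.ncard_prod, sq]
  have h6 : cnt X S (n + k) = b.ncard := rfl
  have h7 : cnt X S n = a.ncard := rfl
  rw [h6, h7, ← h4, ← h5]
  omega

theorem dens_smul_le (hgen : Subgroup.closure X = ⊤) (z : G × G) :
    ∃ k : ℕ, ∀ (S : Set (G × G)) (n : ℕ), dens X (z • S) n ≤ dens X S n + err X k n := by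
  obtain ⟨k₁, hk₁⟩ := exists_mem_ball hgen z.1
  obtain ⟨k₂, hk₂⟩ := exists_mem_ball hgen z.2
  refine ⟨k₁ + k₂, fun S n => ?_⟩
  have h1 : cnt X (z • S) n ≤ cnt X S (n + (k₁ + k₂)) := by
    unfold cnt
    have : {p : G × G | p ∈ z • S ∧ p.1 ∈ ball X n ∧ p.2 ∈ ball X n} ⊆
        (fun p => z * p) ''
          {p : G × G | p ∈ S ∧ p.1 ∈ ball X (n + (k₁ + k₂)) ∧ p.2 ∈ ball X (n + (k₁ + k₂))} := by
      rintro p ⟨⟨q, hq, rfl⟩, h2, h3⟩
      refine ⟨q, ⟨hq, ?_, ?_⟩, rfl⟩
      · have h4 : q.1 = z.1⁻¹ * (z • q).1 := by simp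
        rw [h4]
        have := mul_mem_ball (inv_mem_ball hk₁) h2
        exact ball_mono X (by omega) this
      · have h4 : q.2 = z.2⁻¹ * (z • q).2 := by simp
        rw [h4]
        have := mul_mem_ball (inv_mem_ball hk₂) h3
        exact ball_mono X (by omega) this
    refine (Set.ncard_le_ncard this ((finite_cnt hX S _).image _)).trans ?_
    exact Set.ncard_image_le (finite_cnt hX S _)
  have h2 := cnt_add_le hX S n (k₁ + k₂)
  have hb := ncard_ball_pos hX n
  have hb' : (0 : ℝ) < ((ball X n).ncard : ℝ) ^ 2 := by positivity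
  unfold dens err
  rw [div_pow, div_add' _ _ _ hb'.ne', div_le_div_iff_of_pos_right hb', sub_mul,
    div_mul_cancel₀ _ hb'.ne', one_mul]
  have h3 : (cnt X (z • S) n : ℝ) ≤ cnt X S (n + (k₁ + k₂)) := by exact_mod_cast h1
  have h4 : (cnt X S (n + (k₁ + k₂)) : ℝ) + ((ball X n).ncard : ℝ) ^ 2 ≤
      cnt X S n + ((ball X (n + (k₁ + k₂))).ncard : ℝ) ^ 2 := by exact_mod_cast h2
  linarith

theorem dens_smul_ge (hgen : Subgroup.closure X = ⊤) (z : G × G) :
    ∃ k : ℕ, ∀ (S : Set (G × G)) (n : ℕ), dens X S n ≤ dens X (z • S) n + err X k n := by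
  obtain ⟨k, hk⟩ := dens_smul_le hX hgen z⁻¹
  refine ⟨k, fun S n => ?_⟩
  have := hk (z • S) n
  rwa [inv_smul_smul] at this

end

section Limits

variable {X : Set G} (hX : X.Finite) (hgen : Subgroup.closure X = ⊤)
  (herr : ∀ k, Tendsto (fun n : ℕ => ((ball X (n + k)).ncard : ℝ) / ((ball X n).ncard : ℝ))
    atTop (𝓝 1))

include herr in
theorem tendsto_err (k : ℕ) : Tendsto (fun n => err X k n) atTop (𝓝 0) := by
  have := ((herr k).pow 2).sub_const 1
  simpa [err] using this

include hX hgen herr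

theorem tendsto_dens_smul_sub (z : G × G) (S : Set (G × G)) :
    Tendsto (fun n => dens X (z • S) n - dens X S n) atTop (𝓝 0) := by
  obtain ⟨k, hk⟩ := dens_smul_le hX hgen z
  obtain ⟨l, hl⟩ := dens_smul_ge hX hgen z
  have h1 := (tendsto_err herr l).neg
  rw [neg_zero] at h1
  refine tendsto_of_tendsto_of_tendsto_of_le_of_le h1 (tendsto_err herr k) ?_ ?_
  · intro n
    have := hl S n
    simp only
    linarith
  · intro n
    have := hk S n
    simp only
    linarith

/-- The density of a subgroup of `G × G` is the inverse of its index. -/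
theorem tendsto_dens_subgroup (L : Subgroup (G × G)) :
    Tendsto (fun n => dens X (L : Set (G × G)) n) atTop (𝓝 ((L.index : ℝ)⁻¹)) := by
  classical
  have hcoset : ∀ q : (G × G) ⧸ L,
      {p : G × G | (p : (G × G) ⧸ L) = q} = (Quotient.out q) • (L : Set (G × G)) := by
    intro q
    ext p
    rw [Set.mem_smul_set_iff_inv_smul_mem, smul_eq_mul, SetLike.mem_coe, ← QuotientGroup.eq]
    have : ((Quotient.out q : G × G) : (G × G) ⧸ L) = q := Quotient.out_eq q
    rw [this]
    exact ⟨fun h => h.symm, fun h => h.symm⟩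
  by_cases hL : L.index = 0
  · -- infinite index
    rw [hL, Nat.cast_zero, inv_zero]
    have hinf : Infinite ((G × G) ⧸ L) := by
      by_contra h
      rw [not_infinite_iff_finite] at h
      exact (Subgroup.finiteIndex_of_finite_quotient (H := L)).index_ne_zero hL
    rw [Metric.tendsto_atTop]
    intro ε hε
    obtain ⟨m, hm⟩ := exists_nat_gt (2 / ε)
    have hm0 : (0 : ℝ) < m := lt_trans (by positivity) hm
    obtain ⟨T, hT⟩ := Infinite.exists_subset_card_eq ((G × G) ⧸ L) m
    have h1 : Tendsto (fun n => ∑ q ∈ T, (dens X ((Quotient.out q) • (L : Set (G × G))) n -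
        dens X (L : Set (G × G)) n)) atTop (𝓝 0) := by
      have := tendsto_finsetSum T
        (fun q _ => tendsto_dens_smul_sub hX hgen herr (Quotient.out q) (L : Set (G × G)))
      simpa using this
    rw [Metric.tendsto_atTop] at h1
    obtain ⟨N, hN⟩ := h1 1 one_pos
    refine ⟨N, fun n hn => ?_⟩
    have h2 := hN n hn
    rw [Real.dist_eq, sub_zero, Finset.sum_sub_distrib, Finset.sum_const, hT, nsmul_eq_mul] at h2
    have h3 : ∑ q ∈ T, dens X ((Quotient.out q) • (L : Set (G × G))) n ≤ 1 := by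
      have hb := ncard_ball_pos hX n
      have h4 : ∑ q ∈ T, cnt X ((Quotient.out q) • (L : Set (G × G))) n ≤
          (ball X n).ncard ^ 2 := by
        unfold cnt
        rw [← cnt_univ hX, cnt]
        have h5 : ∀ q ∈ T, {p : G × G | p ∈ (Quotient.out q) • (L : Set (G × G)) ∧
            p.1 ∈ ball X n ∧ p.2 ∈ ball X n}.ncard =
            ((finite_cnt hX (Quotient.out q • (L : Set (G × G))) n).toFinset).card := by
          intro q _
          exact Set.ncard_eq_toFinset_card _ _
        rw [Finset.sum_congr rfl h5, ← Finset.card_biUnion]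
        · rw [Set.ncard_eq_toFinset_card _ (finite_cnt hX Set.univ n)]
          refine Finset.card_le_card ?_
          intro p hp
          simp only [Finset.mem_biUnion, Set.Finite.mem_toFinset] at hp ⊢
          obtain ⟨q, _, hq⟩ := hp
          exact ⟨trivial, hq.2⟩
        · intro q _ q' _ hqq'
          rw [Function.onFun, Finset.disjoint_left]
          intro p hp hp'
          simp only [Set.Finite.mem_toFinset] at hp hp'
          have h6 : p ∈ {p : G × G | (p : (G × G) ⧸ L) = q} := by rw [hcoset]; exact hp.1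
          have h7 : p ∈ {p : G × G | (p : (G × G) ⧸ L) = q'} := by rw [hcoset]; exact hp'.1
          exact hqq' (h6.symm.trans h7)
      unfold dens
      rw [← Finset.sum_div, div_le_one (by positivity)]
      exact_mod_cast h4
    have h5 := (abs_lt.1 h2).1
    have h6 : (m : ℝ) * dens X (L : Set (G × G)) n < 2 := by linarith
    rw [Real.dist_eq, sub_zero, abs_of_nonneg (dens_nonneg hX _ _)]
    have h7 : 2 < m * ε := by rwa [div_lt_iff₀ hε] at hm
    by_contra hcon
    push Not at hcon
    have := mul_le_mul_of_nonneg_left hcon hm0.le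
    linarith
  · -- finite index
    have hFI : L.FiniteIndex := ⟨hL⟩
    have hfin : Finite ((G × G) ⧸ L) := Subgroup.finite_quotient_of_finiteIndex
    have hft := Fintype.ofFinite ((G × G) ⧸ L)
    have h1 : Tendsto (fun n => ∑ q : (G × G) ⧸ L,
        (dens X ((Quotient.out q) • (L : Set (G × G))) n -
        dens X (L : Set (G × G)) n)) atTop (𝓝 0) := by
      have := tendsto_finsetSum (Finset.univ : Finset ((G × G) ⧸ L))
        (fun q _ => tendsto_dens_smul_sub hX hgen herr (Quotient.out q) (L : Set (G × G)))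
      simpa using this
    have h2 : ∀ n, ∑ q : (G × G) ⧸ L,
        (dens X ((Quotient.out q) • (L : Set (G × G))) n -
        dens X (L : Set (G × G)) n) = 1 - L.index * dens X (L : Set (G × G)) n := by
      intro n
      rw [Finset.sum_sub_distrib, Finset.sum_const, nsmul_eq_mul]
      have h3 := dens_eq_sum_fiber hX Set.univ (fun p : G × G => (p : (G × G) ⧸ L)) n
      rw [dens_univ hX] at h3
      simp only [Set.univ_inter] at h3
      simp_rw [hcoset] at h3
      rw [← h3]
      congr 2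
      rw [Finset.card_univ, ← Nat.card_eq_fintype_card]
      rfl
    simp_rw [h2] at h1
    have hL' : (L.index : ℝ) ≠ 0 := by exact_mod_cast hL
    have h4 := (h1.const_sub 1).mul_const ((L.index : ℝ)⁻¹)
    simp only [sub_zero, one_mul, sub_sub_cancel] at h4
    refine h4.congr fun n => ?_
    field_simp

theorem tendsto_dens_coset (z : G × G) (L : Subgroup (G × G)) :
    Tendsto (fun n => dens X (z • (L : Set (G × G))) n) atTop (𝓝 ((L.index : ℝ)⁻¹)) := by
  have h1 := tendsto_dens_smul_sub hX hgen herr z (L : Set (G × G))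
  have h2 := h1.add (tendsto_dens_subgroup hX hgen herr L)
  simpa using h2

end Limits

end Pool.Agent.Helper55.Tdc
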