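import Mathlib
import Pool.Agent.Helper55.TdcDensity

set_option autoImplicit false
set_option linter.unusedSectionVars false

namespace Pool.Agent.Helper55.Tdc

open Filter Pointwise Topology

variable {G : Type*} [Group G]

/-- The solution set of the twisted commutation equation. -/
def solSet (φ : G →* G) : Set (G × G) := {p | p.1 * p.2 = p.2 * φ p.1}

/-- The subgroup of pairs `(a, b)` in the finite-index abelian part such that `(g a, h b)` is again
a solution, when `(g, h)` is one. -/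
def stabSub (A : Subgroup G) [A.Normal] (hab : ∀ a ∈ A, ∀ b ∈ A, a * b = b * a) (φ : G →* G)
    (g h : G) (hgh : g * h = h * φ g) : Subgroup (G × G) where
  carrier := {p | p.1 ∈ A ∧ φ p.1 ∈ A ∧ p.2 ∈ A ∧
    (g * p.1) * (h * p.2) = (h * p.2) * φ (g * p.1)}
  one_mem' := by
    refine ⟨A.one_mem, ?_, A.one_mem, ?_⟩
    · rw [Prod.fst_one, map_one]; exact A.one_mem
    · simpa using hgh
  mul_mem' := by
    rintro ⟨a, b⟩ ⟨a', b'⟩ ⟨h1, h2, h3, h4⟩ ⟨h1', h2', h3', h4'⟩
    refine ⟨A.mul_mem h1 h1', ?_, A.mul_mem h3 h3', ?_⟩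
    · simp only [Prod.fst_mul, map_mul]; exact A.mul_mem h2 h2'
    · simp only [Prod.fst_mul, Prod.snd_mul, map_mul] at h2 h2' h4 h4' ⊢
      -- rewrite the conditions inside `A`
      have hN : A.Normal := inferInstance
      have hφg : φ g = h⁻¹ * g * h := by rw [mul_assoc, hgh]; group
      rw [hφg] at h4 h4' ⊢
      have key : ∀ x y : G, (g * x * (h * y) = h * y * (h⁻¹ * g * h * φ x) ↔
          x * (h * y * h⁻¹) = (g⁻¹ * (h * y * h⁻¹) * g) * (h * φ x * h⁻¹)) := by
        intro x y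
        constructor
        · intro e
          have e1 : g⁻¹ * (g * x * (h * y)) * h⁻¹ = g⁻¹ * (h * y * (h⁻¹ * g * h * φ x)) * h⁻¹ :=
            congrArg (fun z => g⁻¹ * z * h⁻¹) e
          calc x * (h * y * h⁻¹) = g⁻¹ * (g * x * (h * y)) * h⁻¹ := by group
            _ = g⁻¹ * (h * y * (h⁻¹ * g * h * φ x)) * h⁻¹ := e1
            _ = _ := by group
        · intro e
          have e1 : g * (x * (h * y * h⁻¹)) * h =
              g * ((g⁻¹ * (h * y * h⁻¹) * g) * (h * φ x * h⁻¹)) * h :=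
            congrArg (fun z => g * z * h) e
          calc g * x * (h * y) = g * (x * (h * y * h⁻¹)) * h := by group
            _ = g * ((g⁻¹ * (h * y * h⁻¹) * g) * (h * φ x * h⁻¹)) * h := e1
            _ = _ := by group
      have key2 := (key (a * a') (b * b')).2
      rw [map_mul] at key2
      refine key2 ?_
      have e1 := (key a b).1 h4
      have e2 := (key a' b').1 h4'
      have m1 : h * b * h⁻¹ ∈ A := hN.conj_mem _ h3 _
      have m2 : h * b' * h⁻¹ ∈ A := hN.conj_mem _ h3' _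
      have m3 : g⁻¹ * (h * b' * h⁻¹) * g ∈ A := by
        have := hN.conj_mem _ m2 g⁻¹
        simpa using this
      have m4 : h * φ a * h⁻¹ ∈ A := hN.conj_mem _ h2 _
      calc a * a' * (h * (b * b') * h⁻¹) = a * (a' * (h * b * h⁻¹)) * (h * b' * h⁻¹) := by group
        _ = a * ((h * b * h⁻¹) * a') * (h * b' * h⁻¹) := by rw [hab _ h1' _ m1]
        _ = (a * (h * b * h⁻¹)) * (a' * (h * b' * h⁻¹)) := by group
        _ = ((g⁻¹ * (h * b * h⁻¹) * g) * (h * φ a * h⁻¹)) *
            ((g⁻¹ * (h * b' * h⁻¹) * g) * (h * φ a' * h⁻¹)) := by rw [e1, e2]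
        _ = (g⁻¹ * (h * b * h⁻¹) * g) * ((h * φ a * h⁻¹) *
            (g⁻¹ * (h * b' * h⁻¹) * g)) * (h * φ a' * h⁻¹) := by group
        _ = (g⁻¹ * (h * b * h⁻¹) * g) * ((g⁻¹ * (h * b' * h⁻¹) * g) *
            (h * φ a * h⁻¹)) * (h * φ a' * h⁻¹) := by rw [hab _ m4 _ m3]
        _ = _ := by group
  inv_mem' := by
    rintro ⟨a, b⟩ ⟨h1, h2, h3, h4⟩
    refine ⟨A.inv_mem h1, ?_, A.inv_mem h3, ?_⟩
    · simp only [Prod.fst_inv, map_inv]; exact A.inv_mem h2
    · simp only [Prod.fst_inv, Prod.snd_inv, map_mul, map_inv] at h2 h4 ⊢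
      have hN : A.Normal := inferInstance
      have hφg : φ g = h⁻¹ * g * h := by rw [mul_assoc, hgh]; group
      rw [hφg] at h4 ⊢
      have m1 : h * b * h⁻¹ ∈ A := hN.conj_mem _ h3 _
      have m3 : g⁻¹ * (h * b * h⁻¹) * g ∈ A := by
        have := hN.conj_mem _ m1 g⁻¹
        simpa using this
      have m4 : h * φ a * h⁻¹ ∈ A := hN.conj_mem _ h2 _
      have e1 : a * (h * b * h⁻¹) = (g⁻¹ * (h * b * h⁻¹) * g) * (h * φ a * h⁻¹) := by
        calc a * (h * b * h⁻¹) = g⁻¹ * (g * a * (h * b)) * h⁻¹ := by group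
          _ = g⁻¹ * (h * b * (h⁻¹ * g * h * φ a)) * h⁻¹ := by rw [h4]
          _ = _ := by group
      have e2 : a⁻¹ * (h * b * h⁻¹)⁻¹ = (g⁻¹ * (h * b * h⁻¹) * g)⁻¹ * (h * φ a * h⁻¹)⁻¹ := by
        rw [← mul_inv_rev, ← mul_inv_rev, hab _ m1 _ h1, hab _ m4 _ m3, e1]
      calc g * a⁻¹ * (h * b⁻¹) = g * (a⁻¹ * (h * b * h⁻¹)⁻¹) * h := by group
        _ = g * ((g⁻¹ * (h * b * h⁻¹) * g)⁻¹ * (h * φ a * h⁻¹)⁻¹) * h := by rw [e2]
        _ = _ := by group

theorem mem_stabSub {A : Subgroup G} [A.Normal] {hab : ∀ a ∈ A, ∀ b ∈ A, a * b = b * a}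
    {φ : G →* G} {g h : G} {hgh : g * h = h * φ g} {p : G × G} :
    p ∈ stabSub A hab φ g h hgh ↔ p.1 ∈ A ∧ φ p.1 ∈ A ∧ p.2 ∈ A ∧
      (g * p.1) * (h * p.2) = (h * p.2) * φ (g * p.1) := Iff.rfl

/-- The twisted commutation density of an endomorphism of a finitely generated virtually abelian
group is a limit that does not depend on the finite generating set. -/
theorem exists_density (A₀ : Subgroup G) [A₀.FiniteIndex]
    (hab₀ : ∀ a ∈ A₀, ∀ b ∈ A₀, a * b = b * a) (φ : G →* G) :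
    ∃ κ : ℝ, ∀ X : Set G, X.Finite → Subgroup.closure X = ⊤ →
      Tendsto (fun n => dens X (solSet φ) n) atTop (𝓝 κ) := by
  classical
  set A := A₀.normalCore with hA
  have hAle : A ≤ A₀ := Subgroup.normalCore_le A₀
  have hab : ∀ a ∈ A, ∀ b ∈ A, a * b = b * a := fun a ha b hb => hab₀ a (hAle ha) b (hAle hb)
  have hAN : A.Normal := Subgroup.normalCore_normal A₀
  have hAFI : A.FiniteIndex := Subgroup.finiteIndex_normalCore A₀
  set D : Subgroup (G × G) := (A ⊓ A.comap φ).prod A with hD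
  have hcomap : (A.comap φ).FiniteIndex := ⟨by
    rw [Subgroup.index_comap]
    exact Subgroup.FiniteIndex.index_ne_zero (H := A.subgroupOf φ.range)⟩
  have h1FI : (A ⊓ A.comap φ).FiniteIndex := inferInstance
  have hDFI : D.FiniteIndex := ⟨by
    rw [hD, Subgroup.index_prod]
    exact mul_ne_zero h1FI.index_ne_zero hAFI.index_ne_zero⟩
  have hfin : Finite ((G × G) ⧸ D) := Subgroup.finite_quotient_of_finiteIndex
  have hft := Fintype.ofFinite ((G × G) ⧸ D)
  have hloc : ∀ q : (G × G) ⧸ D, ∃ κ : ℝ, ∀ X : Set G, X.Finite → Subgroup.closure X = ⊤ →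
      Tendsto (fun n => dens X (solSet φ ∩ {p | ((p : G × G) : (G × G) ⧸ D) = q}) n)
        atTop (𝓝 κ) := by
    intro q
    by_cases hq : ∃ p : G × G, p ∈ solSet φ ∧ (p : (G × G) ⧸ D) = q
    · obtain ⟨⟨g, h⟩, hp, rfl⟩ := hq
      have hgh : g * h = h * φ g := hp
      set L := stabSub A hab φ g h hgh with hL
      refine ⟨(L.index : ℝ)⁻¹, fun X hX hgen => ?_⟩
      have hset : solSet φ ∩ {p | ((p : G × G) : (G × G) ⧸ D) = ((g, h) : G × G)} =
          ((g, h) : G × G) • (L : Set (G × G)) := by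
        ext p
        rw [Set.mem_smul_set_iff_inv_smul_mem, smul_eq_mul, SetLike.mem_coe, hL, mem_stabSub]
        constructor
        · rintro ⟨h1, h2⟩
          have h3 : ((g, h) : G × G)⁻¹ * p ∈ D := QuotientGroup.eq.1 (Eq.symm h2)
          rw [hD, Subgroup.mem_prod] at h3
          refine ⟨h3.1.1, h3.1.2, h3.2, ?_⟩
          have h4 : g * (((g, h) : G × G)⁻¹ * p).1 = p.1 := by simp
          have h5 : h * (((g, h) : G × G)⁻¹ * p).2 = p.2 := by simp
          rw [h4, h5]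
          exact h1
        · rintro ⟨h1, h2, h3, h4⟩
          have h5 : g * (((g, h) : G × G)⁻¹ * p).1 = p.1 := by simp
          have h6 : h * (((g, h) : G × G)⁻¹ * p).2 = p.2 := by simp
          rw [h5, h6] at h4
          refine ⟨h4, ?_⟩
          show ((p : G × G) : (G × G) ⧸ D) = ((g, h) : G × G)
          symm
          rw [QuotientGroup.eq, hD, Subgroup.mem_prod]
          exact ⟨⟨h1, h2⟩, h3⟩
      simp_rw [hset]
      exact tendsto_dens_coset hX hgen (tendsto_ball_ratio A₀ hab₀ X hX hgen) _ _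
    · refine ⟨0, fun X hX hgen => ?_⟩
      have hset : solSet φ ∩ {p | ((p : G × G) : (G × G) ⧸ D) = q} = ∅ := by
        ext p
        simp only [Set.mem_inter_iff, Set.mem_empty_iff_false, iff_false]
        rintro ⟨h1, h2⟩
        exact hq ⟨p, h1, h2⟩
      simp_rw [hset]
      have : ∀ n, dens X (∅ : Set (G × G)) n = 0 := by
        intro n
        simp [dens, cnt]
      simp_rw [this]
      exact tendsto_const_nhds
  choose κ hκ using hloc
  refine ⟨∑ q, κ q, fun X hX hgen => ?_⟩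
  have h := tendsto_finsetSum (Finset.univ : Finset ((G × G) ⧸ D)) (fun q _ => hκ q X hX hgen)
  refine h.congr fun n => ?_
  exact (dens_eq_sum_fiber hX (solSet φ) (fun p : G × G => (p : (G × G) ⧸ D)) n).symm

end Pool.Agent.Helper55.Tdc
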